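import Pool.Agent.MG.Two2.AlgDefs

/-!
# Pure algebra part of the case `(g, n) = (2, n)`: data over normal domains only
-/

open Polynomial

namespace Pool.Agent.MG.Two2

/-- The data of `S f q` over all integrally closed domains over `k`. -/
structure DatN (k : Type) [Field k] where
  /-- the value -/
  S : ∀ (B : Type) [CommRing B] [IsDomain B] [IsIntegrallyClosed B] [Algebra k B],
    B[X] → B[X] → B
  nat : ∀ (B B' : Type) [CommRing B] [IsDomain B] [IsIntegrallyClosed B] [Algebra k B]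
    [CommRing B'] [IsDomain B'] [IsIntegrallyClosed B'] [Algebra k B'] (φ : B →ₐ[k] B')
    (f q : B[X]), Good f → q.natDegree ≤ 2 →
    S B' (f.map (φ : B →+* B')) (q.map (φ : B →+* B')) = φ (S B f q)
  scal : ∀ (B : Type) [CommRing B] [IsDomain B] [IsIntegrallyClosed B] [Algebra k B] (u : B)
    (f q : B[X]), IsUnit u → Good f → q.natDegree ≤ 2 →
    S B (C (u ^ 2) * f) (C (u ^ 2) * q) = S B f q
  trans : ∀ (B : Type) [CommRing B] [IsDomain B] [IsIntegrallyClosed B] [Algebra k B] (t : B)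
    (f q : B[X]), Good f → q.natDegree ≤ 2 → S B (f.comp (X + C t)) (q.comp (X + C t)) = S B f q
  inv : ∀ (B : Type) [CommRing B] [IsDomain B] [IsIntegrallyClosed B] [Algebra k B]
    (f q : B[X]), Good f → q.natDegree ≤ 2 → S B (f.reflect 6) (q.reflect 2) = S B f q
  reg : ∀ (B K : Type) [CommRing B] [IsDomain B] [IsIntegrallyClosed B] [Field K] [Algebra k B]
    [Algebra k K] (φ : B →ₐ[k] K), Function.Injective φ → ∀ (s : B) (ρ r e : Fin 3 → B), s ≠ 0 →
    (∀ i j, i ≠ j → IsUnit (ρ i - ρ j)) → (∀ i j, i ≠ j → IsUnit (r i - r j)) →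
    (∀ j, IsUnit (r j)) → (∀ i j, IsUnit (r j - s ^ 2 * ρ i)) →
    ∃ b : B, S K
      (((∏ i, (X - C (s ^ 2 * ρ i))) * ∏ j, (X - C (r j)) : B[X]).map (φ : B →+* K))
      ((C (s ^ 2 * e 0) + C (s * e 1) * X + C (e 2) * X ^ 2 : B[X]).map (φ : B →+* K)) = φ b

/-- `S` is constant. -/
def AlgN_Stmt : Prop :=
  ∀ (k : Type) [Field k] [CharZero k] [IsAlgClosed k] (D : DatN k), ∃ c : k,
    ∀ (K : Type) [Field K] [IsAlgClosed K] [Algebra k K] (f q : K[X]), Good f →
      q.natDegree ≤ 2 → D.S K f q = algebraMap k K c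

/-- The restriction of the data to integrally closed domains. -/
def Dat.toN {k : Type} [Field k] (D : Dat k) : DatN k where
  S B _ _ _ _ f q := D.S B f q
  nat B B' _ _ _ _ _ _ _ _ φ f q hf hq := D.nat B B' φ f q hf hq
  scal B _ _ _ _ u f q hu hf hq := D.scal B u f q hu hf hq
  trans B _ _ _ _ t f q hf hq := D.trans B t f q hf hq
  inv B _ _ _ _ f q hf hq := D.inv B f q hf hq
  reg B K _ _ _ _ _ _ φ hφ s ρ r e hs h1 h2 h3 h4 := D.reg B K φ hφ s ρ r e hs h1 h2 h3 h4

end Pool.Agent.MG.Two2
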