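import Pool.Agent.MG.Two2.Alg12

/-!
# Pure algebra part of the case `(2, 0)`: the theorem
-/

open Polynomial

namespace Pool.Agent.MG.Two2

variable {k : Type} [Field k]

section field

variable {K : Type} [Field K]

theorem Good.reflectK {f : K[X]} (hf : Good f) : Good (f.reflect 6) := by
  refine ⟨(natDegree_reflect_le).trans (max_le le_rfl hf.deg), hf.cop', ?_⟩
  rw [reflect_reflect]
  exact hf.cop

/-- The degree is at least five. -/
theorem Good.five_le {f : K[X]} (hf : Good f) : 5 ≤ f.natDegree := by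
  by_contra h
  push Not at h
  obtain ⟨a, b, hab⟩ := hf.cop'
  have h1 : (f.reflect 6).coeff 0 = 0 := by
    rw [coeff_reflect]
    exact coeff_eq_zero_of_natDegree_lt (by simpa [revAt] using by omega)
  have h2 : (derivative (f.reflect 6)).coeff 0 = 0 := by
    rw [coeff_derivative, coeff_reflect]
    have : f.coeff (revAt 6 (0 + 1)) = 0 :=
      coeff_eq_zero_of_natDegree_lt (by simpa [revAt] using by omega)
    rw [this, zero_mul]
  have h3 := congrArg (eval 0) hab
  rw [eval_add, eval_mul, eval_mul, ← coeff_zero_eq_eval_zero (f.reflect 6),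
    ← coeff_zero_eq_eval_zero (derivative _), h1, h2, mul_zero, mul_zero, add_zero, eval_one] at h3
  exact zero_ne_one h3

theorem S_smul [Algebra k K] (D : Dat k) (u : K) (hu : u ≠ 0) (f q : K[X]) (hf : Good f)
    (huf : Good (C u * f)) (hq : q.natDegree ≤ 2) :
    D.S K (C u * f) q = D.S K f (C u⁻¹ * q) := by
  rw [← scal_field D u hu f (C u⁻¹ * q) hf huf ((natDegree_C_mul_le _ _).trans hq), ← mul_assoc,
    ← C_mul, mul_inv_cancel₀ hu, C_1, one_mul]

/-- The case of degree six. -/
theorem S_six [Algebra k K] (D : Dat k) (c : k)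
    (hc : ∀ (a : Fin 6 → K) (q : Fin 3 → K), Function.Injective a → D.T a q = algebraMap k K c)
    (u : K) (a : Fin 6 → K) (hu : u ≠ 0) (ha : Function.Injective a) (q : K[X])
    (hf : Good (C u * P6 a)) (hq : q.natDegree ≤ 2) :
    D.S K (C u * P6 a) q = algebraMap k K c := by
  rw [S_smul D u hu _ q (good_P6 rfl a (dis_of_inj ha)) hf hq,
    ← Qp_coeff (C u⁻¹ * q) ((natDegree_C_mul_le _ _).trans hq)]
  exact hc a _ ha

theorem reflect_five (a : Fin 5 → K) (h0 : ∀ i, a i ≠ 0) :
    (P6 a).reflect 6 = C (-∏ i, a i) * P6 (Fin.cons 0 (fun i => (a i)⁻¹) : Fin 6 → K) := by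
  have h1 : (P6 a).reflect 6 = X * ∏ i, (1 - C (a i) * X) := by
    have := reflect_mul (P6 a) (1 : K[X]) (natDegree_P6 a) (G := 1) (by simp)
    rw [mul_one, P6_reflect, reflect_one, pow_one] at this
    rw [this, mul_comm]
  have h2 : ∀ i, (1 - C (a i) * X : K[X]) = (-1) * (C (a i) * (X - C (a i)⁻¹)) := by
    intro i
    have h2 : (C (a i) * C (a i)⁻¹ : K[X]) = 1 := by
      rw [← C_mul, mul_inv_cancel₀ (h0 i), C_1]
    linear_combination -h2
  rw [h1, P6_cons, C_0, sub_zero]
  simp_rw [h2]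
  rw [Finset.prod_mul_distrib, Finset.prod_mul_distrib, Finset.prod_const, Finset.card_univ,
    Fintype.card_fin, C_neg, map_prod, P6]
  ring

/-- The case of degree five. -/
theorem S_five [Infinite K] [Algebra k K] (D : Dat k) (c : k)
    (hc : ∀ (a : Fin 6 → K) (q : Fin 3 → K), Function.Injective a → D.T a q = algebraMap k K c)
    (u : K) (a : Fin 5 → K) (hu : u ≠ 0) (ha : Function.Injective a) (q : K[X])
    (hf : Good (C u * P6 a)) (hq : q.natDegree ≤ 2) :
    D.S K (C u * P6 a) q = algebraMap k K c := by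
  rw [S_smul D u hu _ q (good_P5 a (dis_of_inj ha)) hf hq,
    ← Qp_coeff (C u⁻¹ * q) ((natDegree_C_mul_le _ _).trans hq)]
  set q1 : Fin 3 → K := fun i => (C u⁻¹ * q).coeff i
  obtain ⟨s, hs⟩ := (Set.finite_range a).infinite_compl.nonempty
  have hs' : ∀ i, a i - s ≠ 0 := fun i h => hs ⟨i, sub_eq_zero.1 h⟩
  have ha' : Function.Injective fun i => a i - s := fun i j h => ha (sub_left_injective h)
  rw [← D.trans K s _ _ (good_P5 a (dis_of_inj ha)) (natDegree_Qp q1), P6_comp, Qp_comp,
    ← D.inv K _ _ (good_P5 _ (dis_of_inj ha')) (natDegree_Qp _)]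
  have hg := (good_P5 _ (dis_of_inj ha')).reflectK
  rw [reflect_five _ hs'] at hg ⊢
  refine S_six D c hc _ _ ?_ ?_ _ hg ?_
  · exact neg_ne_zero.2 (Finset.prod_ne_zero_iff.2 fun i _ => hs' i)
  · rw [Fin.cons_injective_iff]
    refine ⟨?_, fun i j h => ha' (inv_inj.1 h)⟩
    rintro ⟨i, hi⟩
    exact hs' i (inv_eq_zero.1 hi)
  · rw [Qp_reflect]
    exact natDegree_Qp _

end field

/-- `S` is constant. -/
theorem alg : Alg_Stmt := by
  intro k _ _ D
  obtain ⟨c, hc⟩ := exists_const D
  refine ⟨c, fun K _ _ _ f q hf hq => ?_⟩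
  have hinf : Infinite K := Infinite.of_injective _ (algebraMap k K).injective
  have h5 := hf.five_le
  have h6 := hf.deg
  rcases Nat.lt_or_ge f.natDegree 6 with h | h
  · obtain ⟨u, a, hu, ha, rfl⟩ := splits_P6 f hf.cop 5 (by omega)
    exact S_five D c (hc K) u a hu ha q hf hq
  · obtain ⟨u, a, hu, ha, rfl⟩ := splits_P6 f hf.cop 6 (by omega)
    exact S_six D c (hc K) u a hu ha q hf hq

end Pool.Agent.MG.Two2
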