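import Pool.Agent.MG.Two2.AlgN3

/-!
# Pure algebra part of the case `(2, n)`: data over normal domains, the theorem
-/

open Polynomial

namespace Pool.Agent.MG.Two2.N

section up

variable {k : Type} [Field k]

/-- The data over a larger base field. -/
noncomputable def up (D : DatN k) (K : Type) [Field K] [Algebra k K] : DatN K where
  S B _ _ _ _ f q := @DatN.S k _ D B _ _ _ (Algebra.compHom B (algebraMap k K)) f q
  nat B B' _ _ _ _ _ _ _ _ φ f q hf hq := by
    let _ : Algebra k B := Algebra.compHom B (algebraMap k K)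
    let _ : Algebra k B' := Algebra.compHom B' (algebraMap k K)
    let ψ : B →ₐ[k] B' := { (φ : B →+* B') with
      commutes' := fun c => φ.commutes (algebraMap k K c) }
    exact D.nat B B' ψ f q hf hq
  scal B _ _ _ _ u f q hu hf hq := by
    let _ : Algebra k B := Algebra.compHom B (algebraMap k K)
    exact D.scal B u f q hu hf hq
  trans B _ _ _ _ t f q hf hq := by
    let _ : Algebra k B := Algebra.compHom B (algebraMap k K)
    exact D.trans B t f q hf hq
  inv B _ _ _ _ f q hf hq := by
    let _ : Algebra k B := Algebra.compHom B (algebraMap k K)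
    exact D.inv B f q hf hq
  reg B L _ _ _ _ _ _ φ hφ s ρ r e hs h1 h2 h3 h4 := by
    let _ : Algebra k B := Algebra.compHom B (algebraMap k K)
    let _ : Algebra k L := Algebra.compHom L (algebraMap k K)
    let ψ : B →ₐ[k] L := { (φ : B →+* L) with
      commutes' := fun c => φ.commutes (algebraMap k K c) }
    exact D.reg B L ψ hφ s ρ r e hs h1 h2 h3 h4

theorem up_S (D : DatN k) (K : Type) [Field K] [A : Algebra k K] (f q : K[X]) :
    (up D K).S K f q = D.S K f q := by
  change @DatN.S k _ D K _ _ _ (Algebra.compHom K (algebraMap k K)) f q =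
    @DatN.S k _ D K _ _ _ A f q
  have hA : Algebra.compHom K (algebraMap k K) = A := by
    refine Algebra.algebra_ext _ _ fun c => ?_
    rfl
  rw [hA]

theorem up_T (D : DatN k) (K : Type) [Field K] [Algebra k K] (a : Fin 6 → K)
    (q : Fin 3 → K) : T (up D K) a q = T D a q :=
  up_S D K _ _

/-- The constant comes from the base field. -/
theorem exists_const [Infinite k] (D : DatN k) : ∃ c : k, ∀ (K : Type) [Field K] [Algebra k K]
    (a : Fin 6 → K) (q : Fin 3 → K), Function.Injective a → T D a q = algebraMap k K c := by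
  obtain ⟨a₀, ha₀⟩ := exists_inj k 6
  refine ⟨T D a₀ 0, fun K _ _ a q ha => ?_⟩
  have : Infinite K := Infinite.of_injective _ (algebraMap k K).injective
  have h1 : Function.Injective fun i => algebraMap k K (a₀ i) :=
    (algebraMap k K).injective.comp ha₀
  rw [← up_T D K a, const6 (up D K) _ a h1 ha q (fun _ => 0), up_T D K _]
  have h2 := T_nat D (Algebra.ofId k K) a₀ (dis_of_inj ha₀) 0
  have h3 : (fun i => Algebra.ofId k K ((0 : Fin 3 → k) i)) = fun _ => (0 : K) := by
    funext i
    exact map_zero _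
  rw [h3] at h2
  exact h2

end up

section field

variable {k : Type} [Field k] {K : Type} [Field K]

theorem S_smul [Algebra k K] (D : DatN k) (u : K) (hu : u ≠ 0) (f q : K[X]) (hf : Good f)
    (huf : Good (C u * f)) (hq : q.natDegree ≤ 2) :
    D.S K (C u * f) q = D.S K f (C u⁻¹ * q) := by
  rw [← scal_field D u hu f (C u⁻¹ * q) hf huf ((natDegree_C_mul_le _ _).trans hq), ← mul_assoc,
    ← C_mul, mul_inv_cancel₀ hu, C_1, one_mul]

/-- The case of degree six. -/
theorem S_six [Algebra k K] (D : DatN k) (c : k)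
    (hc : ∀ (a : Fin 6 → K) (q : Fin 3 → K), Function.Injective a → T D a q = algebraMap k K c)
    (u : K) (a : Fin 6 → K) (hu : u ≠ 0) (ha : Function.Injective a) (q : K[X])
    (hf : Good (C u * P6 a)) (hq : q.natDegree ≤ 2) :
    D.S K (C u * P6 a) q = algebraMap k K c := by
  rw [S_smul D u hu _ q (good_P6 rfl a (dis_of_inj ha)) hf hq,
    ← Qp_coeff (C u⁻¹ * q) ((natDegree_C_mul_le _ _).trans hq)]
  exact hc a _ ha

/-- The case of degree five. -/
theorem S_five [Infinite K] [Algebra k K] (D : DatN k) (c : k)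
    (hc : ∀ (a : Fin 6 → K) (q : Fin 3 → K), Function.Injective a → T D a q = algebraMap k K c)
    (u : K) (a : Fin 5 → K) (hu : u ≠ 0) (ha : Function.Injective a) (q : K[X])
    (hf : Good (C u * P6 a)) (hq : q.natDegree ≤ 2) :
    D.S K (C u * P6 a) q = algebraMap k K c := by
  rw [S_smul D u hu _ q (good_P5 a (dis_of_inj ha)) hf hq,
    ← Qp_coeff (C u⁻¹ * q) ((natDegree_C_mul_le _ _).trans hq)]
  set q1 : Fin 3 → K := fun i => (C u⁻¹ * q).coeff i
  obtain ⟨s, hs⟩ := (Set.finite_range a).infinite_compl.nonempty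
  have hs' : ∀ i, a i - s ≠ 0 := fun i h => hs ⟨i, sub_eq_zero.1 h⟩
  have ha' : Function.Injective fun i => a i - s := fun i j h => ha (sub_left_injective h)
  rw [← D.trans K s _ _ (good_P5 a (dis_of_inj ha)) (natDegree_Qp q1), P6_comp, Qp_comp,
    ← D.inv K _ _ (good_P5 _ (dis_of_inj ha')) (natDegree_Qp _)]
  have hg := (good_P5 _ (dis_of_inj ha')).reflectK
  rw [reflect_five _ hs'] at hg ⊢
  refine S_six D c hc _ _ ?_ ?_ _ hg ?_
  · exact neg_ne_zero.2 (Finset.prod_ne_zero_iff.2 fun i _ => hs' i)
  · rw [Fin.cons_injective_iff]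
    refine ⟨?_, fun i j h => ha' (inv_inj.1 h)⟩
    rintro ⟨i, hi⟩
    exact hs' i (inv_eq_zero.1 hi)
  · rw [Qp_reflect]
    exact natDegree_Qp _

end field

/-- `S` is constant: every infinite base field. -/
theorem algN_inf (k : Type) [Field k] [Infinite k] (D : DatN k) : ∃ c : k,
    ∀ (K : Type) [Field K] [IsAlgClosed K] [Algebra k K] (f q : K[X]), Good f →
      q.natDegree ≤ 2 → D.S K f q = algebraMap k K c := by
  obtain ⟨c, hc⟩ := exists_const D
  refine ⟨c, fun K _ _ _ f q hf hq => ?_⟩
  have hinf : Infinite K := Infinite.of_injective _ (algebraMap k K).injective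
  have h5 := hf.five_le
  have h6 := hf.deg
  rcases Nat.lt_or_ge f.natDegree 6 with h | h
  · obtain ⟨u, a, hu, ha, rfl⟩ := splits_P6 f hf.cop 5 (by omega)
    exact S_five D c (hc K) u a hu ha q hf hq
  · obtain ⟨u, a, hu, ha, rfl⟩ := splits_P6 f hf.cop 6 (by omega)
    exact S_six D c (hc K) u a hu ha q hf hq

end Pool.Agent.MG.Two2.N

namespace Pool.Agent.MG.Two2

/-- `S` is constant, for data over normal domains. -/
theorem algN : AlgN_Stmt := by
  intro k _ _ _ D
  have : Infinite k := IsAlgClosed.instInfinite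
  exact N.algN_inf k D

end Pool.Agent.MG.Two2
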