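import Mathlib

/-!
# Pure algebra part of the case `(g, n) = (2, 0)`: the data and the statement

`f` is a polynomial of degree at most six without double roots on the projective line, `q` a
polynomial of degree at most two, and `S f q` is the value of a regular function at the curve
`y² = f(x)` and the covector which belongs to `q`.
-/

open Polynomial

namespace Pool.Agent.MG.Two2

/-- `f` has degree at most six and no double root on the projective line (the point at infinity
included), at every point of `Spec B`. -/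
structure Good {B : Type} [CommRing B] (f : B[X]) : Prop where
  deg : f.natDegree ≤ 6
  cop : IsCoprime f (derivative f)
  cop' : IsCoprime (f.reflect 6) (derivative (f.reflect 6))

/-- The data of `S f q` over all commutative `k`-algebras. -/
structure Dat (k : Type) [Field k] where
  /-- the value -/
  S : ∀ (B : Type) [CommRing B] [Algebra k B], B[X] → B[X] → B
  nat : ∀ (B B' : Type) [CommRing B] [Algebra k B] [CommRing B'] [Algebra k B'] (φ : B →ₐ[k] B')
    (f q : B[X]), Good f → q.natDegree ≤ 2 →
    S B' (f.map (φ : B →+* B')) (q.map (φ : B →+* B')) = φ (S B f q)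
  scal : ∀ (B : Type) [CommRing B] [Algebra k B] (u : B) (f q : B[X]), IsUnit u → Good f →
    q.natDegree ≤ 2 → S B (C (u ^ 2) * f) (C (u ^ 2) * q) = S B f q
  trans : ∀ (B : Type) [CommRing B] [Algebra k B] (t : B) (f q : B[X]), Good f →
    q.natDegree ≤ 2 → S B (f.comp (X + C t)) (q.comp (X + C t)) = S B f q
  inv : ∀ (B : Type) [CommRing B] [Algebra k B] (f q : B[X]), Good f →
    q.natDegree ≤ 2 → S B (f.reflect 6) (q.reflect 2) = S B f q
  reg : ∀ (B K : Type) [CommRing B] [IsDomain B] [Field K] [Algebra k B] [Algebra k K]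
    (φ : B →ₐ[k] K), Function.Injective φ → ∀ (s : B) (ρ r e : Fin 3 → B), s ≠ 0 →
    (∀ i j, i ≠ j → IsUnit (ρ i - ρ j)) → (∀ i j, i ≠ j → IsUnit (r i - r j)) →
    (∀ j, IsUnit (r j)) → (∀ i j, IsUnit (r j - s ^ 2 * ρ i)) →
    ∃ b : B, S K
      (((∏ i, (X - C (s ^ 2 * ρ i))) * ∏ j, (X - C (r j)) : B[X]).map (φ : B →+* K))
      ((C (s ^ 2 * e 0) + C (s * e 1) * X + C (e 2) * X ^ 2 : B[X]).map (φ : B →+* K)) = φ b

/-- `S` is constant. -/
def Alg_Stmt : Prop :=
  ∀ (k : Type) [Field k] [Infinite k] (D : Dat k), ∃ c : k,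
    ∀ (K : Type) [Field K] [IsAlgClosed K] [Algebra k K] (f q : K[X]), Good f →
      q.natDegree ≤ 2 → D.S K f q = algebraMap k K c

end Pool.Agent.MG.Two2
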