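import Pool.Agent.MG.Two2.AlgDefs

/-!
# Pure algebra part of the case `(2, 0)`: products of linear factors
-/

open Polynomial

namespace Pool.Agent.MG.Two2

section basic

variable {B : Type} [CommRing B]

/-- The product of `X - a_i`. -/
noncomputable def P6 {n : ℕ} (a : Fin n → B) : B[X] := ∏ i, (X - C (a i))

/-- The polynomial with coefficients `q`. -/
noncomputable def Qp (q : Fin 3 → B) : B[X] := C (q 0) + C (q 1) * X + C (q 2) * X ^ 2

theorem natDegree_P6 {n : ℕ} (a : Fin n → B) : (P6 a).natDegree ≤ n := by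
  refine (natDegree_prod_le _ _).trans ?_
  refine (Finset.sum_le_sum fun i _ => natDegree_X_sub_C_le (a i)).trans ?_
  simp

theorem natDegree_Qp (q : Fin 3 → B) : (Qp q).natDegree ≤ 2 := by
  unfold Qp
  compute_degree

theorem P6_map {B' : Type} [CommRing B'] (φ : B →+* B') {n : ℕ} (a : Fin n → B) :
    (P6 a).map φ = P6 (fun i => φ (a i)) := by
  simp [P6, Polynomial.map_prod]

theorem Qp_map {B' : Type} [CommRing B'] (φ : B →+* B') (q : Fin 3 → B) :
    (Qp q).map φ = Qp (fun i => φ (q i)) := by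
  simp [Qp]

theorem P6_comp {n : ℕ} (a : Fin n → B) (t : B) :
    (P6 a).comp (X + C t) = P6 (fun i => a i - t) := by
  rw [P6, Polynomial.prod_comp]
  refine Finset.prod_congr rfl fun i _ => ?_
  simp only [sub_comp, X_comp, C_comp, C_sub]
  ring

/-- The coefficients of `q(x + t)`. -/
def shq (t : B) (q : Fin 3 → B) : Fin 3 → B :=
  ![q 0 + q 1 * t + q 2 * t ^ 2, q 1 + 2 * q 2 * t, q 2]

theorem Qp_comp (q : Fin 3 → B) (t : B) : (Qp q).comp (X + C t) = Qp (shq t q) := by
  simp only [Qp, shq, add_comp, mul_comp, C_comp, X_comp, pow_comp, Matrix.cons_val_zero,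
    Matrix.cons_val_one, Matrix.cons_val_two, Matrix.head_cons, Matrix.tail_cons,
    C_add, C_mul, C_pow]
  have : (C (2 : B) : B[X]) = 2 := rfl
  rw [this]
  ring

theorem Qp_reflect (q : Fin 3 → B) : (Qp q).reflect 2 = Qp ![q 2, q 1, q 0] := by
  ext n
  rw [coeff_reflect]
  simp only [Qp, coeff_add, coeff_C_mul, coeff_X_pow, coeff_X, coeff_C, Matrix.cons_val_zero,
    Matrix.cons_val_one, Matrix.cons_val]
  rcases n with _ | _ | _ | n
  · simp [revAt]
  · simp [revAt]
  · simp [revAt]
  · rw [revAt_eq_self_of_lt (by omega)]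
    simp

theorem Qp_smul (c : B) (q : Fin 3 → B) : C c * Qp q = Qp (fun i => c * q i) := by
  simp only [Qp, C_mul]
  ring

theorem Qp_coeff (q : B[X]) (h : q.natDegree ≤ 2) : Qp (fun i => q.coeff i) = q := by
  conv_rhs => rw [q.as_sum_range_C_mul_X_pow' (Nat.lt_succ_of_le h)]
  simp [Qp, Finset.sum_range_succ]

/-- `1 - a X` -/
theorem reflect_X_sub_C (a : B) : (X - C a : B[X]).reflect 1 = 1 - C a * X := by
  rw [reflect_sub, reflect_one_X, reflect_C, pow_one]

theorem P6_reflect {n : ℕ} (a : Fin n → B) : (P6 a).reflect n = ∏ i, (1 - C (a i) * X) := by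
  induction n with
  | zero => simp [P6]
  | succ n ih =>
    have e := reflect_mul (X - C (a 0)) (P6 fun i => a i.succ) (natDegree_X_sub_C_le (a 0))
      (natDegree_P6 fun i => a i.succ)
    rw [Nat.add_comm 1 n, reflect_X_sub_C, ih] at e
    rw [P6, Fin.prod_univ_succ, Fin.prod_univ_succ]
    exact e

theorem cop_X_sub_C {a b : B} (h : IsUnit (a - b)) : IsCoprime (X - C a) (X - C b) := by
  obtain ⟨u, hu⟩ := h
  refine ⟨-C (↑u⁻¹ : B), C (↑u⁻¹ : B), ?_⟩
  have h1 : C (↑u⁻¹ : B) * (C a - C b) = (1 : B[X]) := by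
    rw [← C_sub, ← hu, ← C_mul, Units.inv_mul, C_1]
  linear_combination h1

theorem sep_one_sub (a : B) : (1 - C a * X : B[X]).Separable := by
  rw [separable_def]
  refine ⟨1, -X, ?_⟩
  simp only [derivative_sub, derivative_one, derivative_mul, derivative_C, derivative_X]
  ring

theorem cop_one_sub {a b : B} (h : IsUnit (a - b)) : IsCoprime (1 - C a * X) (1 - C b * X) := by
  obtain ⟨u, hu⟩ := h
  refine ⟨-C (↑u⁻¹ : B) * C b, C (↑u⁻¹ : B) * C a, ?_⟩
  have h1 : C (↑u⁻¹ : B) * (C a - C b) = (1 : B[X]) := by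
    rw [← C_sub, ← hu, ← C_mul, Units.inv_mul, C_1]
  linear_combination h1

theorem good_P6 {n : ℕ} (hn : n = 6) (a : Fin n → B) (h : ∀ i j, i ≠ j → IsUnit (a i - a j)) :
    Good (P6 a) := by
  subst hn
  refine ⟨natDegree_P6 a, ?_, ?_⟩
  · exact separable_prod (fun i j hij => cop_X_sub_C (h i j hij)) fun i => separable_X_sub_C
  · rw [P6_reflect]
    exact separable_prod (fun i j hij => cop_one_sub (h i j hij)) fun i => sep_one_sub _

/-- One root at infinity. -/
theorem good_P5 (a : Fin 5 → B) (h : ∀ i j, i ≠ j → IsUnit (a i - a j)) : Good (P6 a) := by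
  refine ⟨(natDegree_P6 a).trans (by omega), ?_, ?_⟩
  · exact separable_prod (fun i j hij => cop_X_sub_C (h i j hij)) fun i => separable_X_sub_C
  · have h1 : (P6 a).reflect 6 = X * ∏ i, (1 - C (a i) * X) := by
      have := reflect_mul (P6 a) (1 : B[X]) (natDegree_P6 a) (G := 1) (by simp)
      rw [mul_one, P6_reflect, reflect_one, pow_one] at this
      rw [this, mul_comm]
    rw [h1]
    have h2 : (∏ i, (1 - C (a i) * X) : B[X]).Separable :=
      separable_prod (fun i j hij => cop_one_sub (h i j hij)) fun i => sep_one_sub _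
    have h3 : (X : B[X]).Separable := separable_X
    refine h3.mul h2 ?_
    refine IsCoprime.prod_right fun i _ => ?_
    exact ⟨C (a i), 1, by ring⟩

end basic

end Pool.Agent.MG.Two2
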