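import Pool.Agent.MG.Two2.Alg9

/-!
# Pure algebra part of the case `(2, 0)`: one root moves, no pole
-/

open Polynomial

namespace Pool.Agent.MG.Two2

variable {K : Type} [Field K]

theorem evM_self (N : MvPolynomial (Fin 3) K[X]) :
    evM (MvPolynomial.C X) MvPolynomial.X N = N := by
  have : (evM (MvPolynomial.C X) MvPolynomial.X : MvPolynomial (Fin 3) K[X] →+*
      MvPolynomial (Fin 3) K[X]) = RingHom.id _ := by
    refine MvPolynomial.ringHom_ext (fun p => ?_) fun i => ?_
    · rw [evM_C]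
      have h2 : (aeval (MvPolynomial.C X : MvPolynomial (Fin 3) K[X]) : K[X] →ₐ[K] _) =
          IsScalarTower.toAlgHom K K[X] (MvPolynomial (Fin 3) K[X]) := by
        refine Polynomial.algHom_ext ?_
        rw [aeval_X]
        rfl
      rw [h2]
      rfl
    · simp [evM]
  rw [this]
  rfl

theorem P6_rf {B : Type} [CommRing B] [Algebra K B] (r : Fin 5 → K) (x : B) (i : Fin 5) :
    P6 (Fin.cons (algebraMap K B (r i)) (Fin.cons x fun j : Fin 4 =>
      algebraMap K B (r (i.succAbove j))) : Fin 6 → B) = P6 (rf r x) := by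
  rw [rf, P6_cons, P6_cons, P6_cons]
  have : P6 (fun i : Fin 5 => algebraMap K B (r i)) = (X - C (algebraMap K B (r i))) *
      P6 fun j : Fin 4 => algebraMap K B (r (i.succAbove j)) := by
    rw [P6, Fin.prod_univ_succAbove _ i]
    rfl
  rw [this]
  ring

theorem KJ_dvd [Infinite K] (D : Dat K) (r : Fin 5 → K) (hr : Function.Injective r)
    (hr0 : ∀ i, r i ≠ 0) (n : ℕ) (N : MvPolynomial (Fin 3) K[X]) (hN : KJ D r n N) (i : Fin 5) :
    (MvPolynomial.C ((X - C (r i)) ^ n) : MvPolynomial (Fin 3) K[X]) ∣ N := by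
  let r' : Fin 4 → K := fun j => r (i.succAbove j)
  have hr' : Function.Injective r' := hr.comp Fin.succAbove_right_injective
  obtain ⟨c, N4, hN4⟩ := KI_zero D r' hr' fun j => hr0 _
  let M := MvPolynomial (Fin 3) K[X]
  let Q := FractionRing M
  let φ : M →ₐ[K] Q := IsScalarTower.toAlgHom K M Q
  have hφ : Function.Injective φ := IsFractionRing.injective M Q
  have hφ0 : ∀ x : M, x ≠ 0 → φ x ≠ 0 := fun x hx h => hx (hφ (by rw [h, map_zero]))
  let jC : K[X] →ₐ[K] M := IsScalarTower.toAlgHom K K[X] M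
  have hjC : Function.Injective jC := MvPolynomial.C_injective _ _
  let x : M := jC X
  let t : M := algebraMap K M (r i)
  have htC : t = jC (C (r i)) := by
    change algebraMap K M (r i) = jC (algebraMap K K[X] (r i))
    rw [AlgHom.commutes]
  have hE : EE r x = jC (EE r X) := by
    simp only [x, EE_map]
  have hE0 : (EE r X : K[X]) ≠ 0 := by
    unfold EE
    exact Finset.prod_ne_zero_iff.2 fun l _ => X_sub_C_ne_zero _
  have hxt : x - t = jC (X - C (r i)) := by
    rw [map_sub, htC]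
  have hDD : DD r' t (x - t) = jC (DD r' (C (r i)) (X - C (r i))) := by
    rw [DD_map, hxt, htC]
  have hfac : ∀ j, algebraMap K K[X] (r' j) - C (r i) = C (r' j - r i) := fun j => by
    rw [C_sub]
    rfl
  have hne : ∀ j, r' j - r i ≠ 0 := fun j =>
    sub_ne_zero.2 fun h => Fin.succAbove_ne i j (hr h)
  have hcop : IsCoprime (X - C (r i)) (DD r' (C (r i)) (X - C (r i))) := by
    unfold DD
    refine IsCoprime.prod_right fun j _ => ?_
    rw [hfac j]
    have h1 : IsUnit (C (r' j - r i) : K[X]) := (IsUnit.mk0 _ (hne j)).map C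
    have h1' : IsCoprime (X - C (r i)) (C (r' j - r i) : K[X]) := by
      obtain ⟨v, hv⟩ := h1.exists_left_inv
      exact ⟨0, v, by rw [zero_mul, zero_add, hv]⟩
    refine IsCoprime.mul_right h1' ?_
    have h2 : (C (r' j - r i) - (X - C (r i)) : K[X]) = -(X - C (r' j)) := by
      rw [C_sub]
      ring
    rw [h2]
    exact (isCoprime_X_sub_C_of_isUnit_sub (IsUnit.mk0 _ (by
      rw [← neg_sub]
      exact neg_ne_zero.2 (hne j)))).neg_right
  have hDD0 : (DD r' (C (r i)) (X - C (r i)) : K[X]) ≠ 0 := by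
    unfold DD
    refine Finset.prod_ne_zero_iff.2 fun j _ => ?_
    rw [hfac j]
    refine mul_ne_zero (C_ne_zero.2 (hne j)) ?_
    have h2 : (C (r' j - r i) - (X - C (r i)) : K[X]) = -(X - C (r' j)) := by
      rw [C_sub]
      ring
    rw [h2]
    exact neg_ne_zero.2 (X_sub_C_ne_zero _)
  have u1 : IsUnit (EE r (φ x)) := by
    rw [← EE_map, hE]
    exact IsUnit.mk0 _ (hφ0 _ fun h => hE0 (hjC (by rw [h, map_zero])))
  have u2 : IsUnit (φ (x - t)) := by
    rw [hxt]
    exact IsUnit.mk0 _ (hφ0 _ fun h => X_sub_C_ne_zero (r i) (hjC (by rw [h, map_zero])))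
  have u3 : IsUnit (DD r' (φ t) (φ (x - t))) := by
    rw [← DD_map, hDD]
    exact IsUnit.mk0 _ (hφ0 _ fun h => hDD0 (hjC (by rw [h, map_zero])))
  have k1 := hN Q (φ x) (fun l => φ (MvPolynomial.X l)) u1
  have k2 := hN4 Q (φ t) (φ (x - t)) (shq (φ t) fun l => φ (MvPolynomial.X l)) u2 u3
  -- comparison of the values
  let a : Fin 6 → Q := Fin.cons (φ t) (Fin.cons (φ x) fun j : Fin 4 => algebraMap K Q (r' j))
  have hφt : φ t = algebraMap K Q (r i) := AlgHom.commutes φ (r i)
  have ha : (fun l => a l - φ t) = rt r' (φ t) (φ (x - t)) := by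
    refine (map_cons2 (fun y : Q => y - φ t) _ _ _).trans ?_
    unfold rt
    simp only [sub_self, map_sub]
  have hPa : P6 a = P6 (rf r (φ x)) := by
    have := P6_rf r (φ x) i
    rw [← hφt] at this
    exact this
  have hda : Dis a := by
    have h1 := dis_rt r' hr' (φ t) (φ (x - t)) u2 u3
    rw [← ha] at h1
    have h2 := h1.sub (-φ t)
    simpa only [sub_neg_eq_add, sub_add_cancel] using h2
  have s1 := T_trans D a hda (φ t) fun l => φ (MvPolynomial.X l)
  rw [ha, T_congr D hPa] at s1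
  rw [s1, pow_zero, one_mul] at k2
  have e1 : (shq (φ t) fun l => φ (MvPolynomial.X l)) = fun l => φ (shq t MvPolynomial.X l) := by
    have h2 : φ 2 = 2 := map_ofNat φ 2
    funext l
    fin_cases l <;> simp [shq, h2]
  rw [e1, ← evN_map, ← DD_map, ← map_pow] at k2
  rw [← evM_map, ← EE_map, ← map_pow] at k1
  have k3 : φ (evM x MvPolynomial.X N * DD r' t (x - t) ^ c) =
      φ (evN t (x - t) (shq t MvPolynomial.X) N4 * EE r x ^ n) := by
    rw [map_mul, map_mul, ← k1, ← k2]
    ring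
  have k4 := hφ k3
  have hself : evM x MvPolynomial.X N = N := evM_self N
  rw [hself, hDD, hE] at k4
  have h5 : jC (X - C (r i)) ^ n ∣ N * jC (DD r' (C (r i)) (X - C (r i))) ^ c := by
    rw [k4]
    refine Dvd.dvd.mul_left (pow_dvd_pow_of_dvd ?_ n) _
    refine map_dvd jC ?_
    exact Finset.dvd_prod_of_mem (fun l => (X - algebraMap K K[X] (r l))) (Finset.mem_univ i)
  have h6 : IsCoprime (jC (X - C (r i)) ^ n) (jC (DD r' (C (r i)) (X - C (r i))) ^ c) :=
    (hcop.map (jC : K[X] →+* M)).pow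
  have h7 := h6.dvd_of_dvd_mul_right h5
  rw [MvPolynomial.C_pow]
  exact h7

theorem KJ_zero [Infinite K] (D : Dat K) (r : Fin 5 → K) (hr : Function.Injective r)
    (hr0 : ∀ i, r i ≠ 0) : ∃ N : MvPolynomial (Fin 3) K[X], KJ D r 0 N := by
  obtain ⟨n, N, hN⟩ := KJ_exists D r hr
  have h1 : (∏ i, MvPolynomial.C ((X - C (r i)) ^ n) : MvPolynomial (Fin 3) K[X]) ∣ N := by
    refine Finset.prod_dvd_of_coprime ?_ fun i _ => KJ_dvd D r hr hr0 n N hN i
    intro i _ j _ hij
    have : IsCoprime ((X - C (r i)) ^ n) ((X - C (r j)) ^ n) := by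
      refine IsCoprime.pow (isCoprime_X_sub_C_of_isUnit_sub ?_)
      exact IsUnit.mk0 _ (sub_ne_zero.2 fun h => hij (hr h))
    exact this.map (MvPolynomial.C : K[X] →+* MvPolynomial (Fin 3) K[X])
  have h2 : (∏ i, MvPolynomial.C ((X - C (r i)) ^ n) : MvPolynomial (Fin 3) K[X]) =
      MvPolynomial.C (EE r X ^ n) := by
    rw [← map_prod, Finset.prod_pow]
    rfl
  rw [h2] at h1
  obtain ⟨N0, rfl⟩ := h1
  refine ⟨N0, ?_⟩
  intro B _ _ x q hu
  have h3 := hN B x q hu
  rw [map_mul, evM_C, map_pow, EE_map, aeval_X] at h3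
  obtain ⟨v, hv⟩ := hu.pow n
  rw [← hv] at h3
  rw [pow_zero, mul_one]
  refine (Units.mul_right_inj v).1 ?_
  rw [← h3, mul_comm]

end Pool.Agent.MG.Two2
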