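import Pool.Agent.MG.Two2.Alg10

/-!
# Pure algebra part of the case `(2, 0)`: constancy in one root, and in all roots
-/

open Polynomial

namespace Pool.Agent.MG.Two2

variable {K : Type} [Field K]

/-- If `P(x) = G(1/x)` for infinitely many `x`, then `P` and `G` are constant. -/
theorem poly_inv_const [Infinite K] (P G : K[X]) (s : Set K) (hs : s.Finite)
    (h : ∀ x, x ∉ s → x ≠ 0 → P.eval x = G.eval x⁻¹) :
    P = C (G.eval 0) := by
  have hfin : (Set.insert (0 : K) s).Finite := hs.insert 0
  have e1 : P * X ^ G.natDegree = G.reverse := by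
    refine eq_of_infinite_eval_eq _ _ ?_
    refine hfin.infinite_compl.mono fun t ht => ?_
    have ht0 : t ≠ 0 := fun h => ht (Or.inl h)
    have hts : t ∉ s := fun h => ht (Or.inr h)
    change eval t _ = eval t _
    have h2 : eval t⁻¹ G = eval t G.reverse * t⁻¹ ^ G.natDegree := by
      let _ : Invertible t⁻¹ := invertibleOfNonzero (inv_ne_zero ht0)
      have h3 := eval₂_reverse_mul_pow (RingHom.id K) t⁻¹ G
      rw [invOf_eq_inv, inv_inv] at h3
      rw [eval, ← h3]
      rfl
    rw [eval_mul, eval_pow, eval_X, h t hts ht0, h2, mul_assoc, ← mul_pow,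
      inv_mul_cancel₀ ht0, one_pow, mul_one]
  have e2 : P = C (P.coeff 0) := by
    by_cases hP : P = 0
    · rw [hP, coeff_zero, C_0]
    · have e3 := congrArg natDegree e1
      rw [natDegree_mul hP (pow_ne_zero _ X_ne_zero), natDegree_X_pow] at e3
      have e4 := reverse_natDegree_le G
      exact eq_C_of_natDegree_eq_zero (by omega)
  have e5 : G = C (P.coeff 0) := by
    refine eq_of_infinite_eval_eq _ _ ?_
    have hfin2 : (Set.insert (0 : K) ((fun x => x⁻¹) '' s)).Finite := (hs.image _).insert 0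
    refine hfin2.infinite_compl.mono fun t ht => ?_
    have ht0 : t ≠ 0 := fun h => ht (Or.inl h)
    have hts : t⁻¹ ∉ s := fun h => ht (Or.inr ⟨t⁻¹, h, inv_inv t⟩)
    change eval t _ = eval t _
    have h1 := h t⁻¹ hts (inv_ne_zero ht0)
    rw [inv_inv] at h1
    rw [← h1, e2, eval_C, eval_C, coeff_C_zero]
  rw [e5, eval_C]
  exact e2

/-- The polynomial in one variable. -/
theorem evM_eval (x : K) (Y : K) (q : Fin 3 → K[X]) (N : MvPolynomial (Fin 3) K[X]) (P : K[X])
    (hP : P.eval Y = x) :
    (evM P q N).eval Y = evM x (fun i => (q i).eval Y) N := by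
  have h := evM_map (K := K) (aeval Y : K[X] →ₐ[K] K) P q N
  simp only [coe_aeval_eq_eval] at h
  rw [hP] at h
  exact h

theorem const5_aux [Infinite K] (D : Dat K) (r : Fin 5 → K) (hr : Function.Injective r)
    (hr0 : ∀ i, r i ≠ 0) : ∃ c : K, ∀ (x : K) (q : Fin 3 → K), (∀ i, x ≠ r i) →
      D.T (rf r x) q = c := by
  have hr' : Function.Injective fun i => (r i)⁻¹ := fun i j h => hr (inv_inj.1 h)
  have hr0' : ∀ i, (r i)⁻¹ ≠ 0 := fun i => inv_ne_zero (hr0 i)
  obtain ⟨N, hN⟩ := KJ_zero D r hr hr0
  obtain ⟨N', hN'⟩ := KJ_zero D _ hr' hr0'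
  have hE : ∀ (s : Fin 5 → K) (x : K), (∀ i, x ≠ s i) → IsUnit (EE s x) := fun s x hx =>
    IsUnit.mk0 _ (Finset.prod_ne_zero_iff.2 fun i _ => sub_ne_zero.2 (hx i))
  have hv : ∀ (x : K) (q : Fin 3 → K), (∀ i, x ≠ r i) → D.T (rf r x) q = evM x q N := by
    intro x q hx
    rw [← hN K x q (hE r x hx), pow_zero, mul_one]
  have hv' : ∀ (x : K) (q : Fin 3 → K), (∀ i, x ≠ (r i)⁻¹) →
      D.T (rf (fun i => (r i)⁻¹) x) q = evM x q N' := by
    intro x q hx
    rw [← hN' K x q (hE _ x hx), pow_zero, mul_one]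
  set R := ∏ i, r i with hR
  refine ⟨evM (0 : K) (fun _ => 0) N', fun x q hx => ?_⟩
  let P : K[X] := evM X (fun i => C (q i)) N
  let G : K[X] := evM X (fun i => C (R⁻¹ * ![q 2, q 1, q 0] i) * X) N'
  have hPe : ∀ y : K, P.eval y = evM y q N := by
    intro y
    rw [evM_eval y y _ N X (eval_X)]
    simp only [eval_C]
  have hGe : ∀ y : K, G.eval y = evM y (fun i => R⁻¹ * ![q 2, q 1, q 0] i * y) N' := by
    intro y
    rw [evM_eval y y _ N' X (eval_X)]
    simp only [eval_C, eval_mul, eval_X]
  have key : P = C (G.eval 0) := by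
    refine poly_inv_const P G (Set.range r) (Set.finite_range r) fun y hy hy0 => ?_
    have hyr : ∀ i, y ≠ r i := fun i h => hy ⟨i, h.symm⟩
    have hd : Dis (rf r y) := dis_rf r hr y (hE r y hyr)
    have ha0 : ∀ i, rf r y i ≠ 0 := fun i => by
      refine Fin.cases hy0 (fun j => ?_) i
      exact hr0 j
    have h1 := T_inv D (rf r y) hd ha0 q
    have h2 : (fun i => (rf r y i)⁻¹) = rf (fun i => (r i)⁻¹) y⁻¹ :=
      map_cons (fun z : K => z⁻¹) y _
    have h3 : (∏ j, rf r y j) = y * R := by
      rw [Fin.prod_univ_succ]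
      rfl
    rw [h2, h3] at h1
    rw [hPe, hGe, ← hv y q hyr, ← h1, hv' y⁻¹ _ fun i h => hyr i (inv_inj.1 h)]
    congr 2
    funext i
    rw [mul_inv]
    ring
  rw [hv x q hx, ← hPe, key, eval_C, hGe]
  simp only [mul_zero]

theorem const5 [Infinite K] (D : Dat K) (r : Fin 5 → K) (hr : Function.Injective r) :
    ∃ c : K, ∀ (x : K) (q : Fin 3 → K), (∀ i, x ≠ r i) → D.T (rf r x) q = c := by
  obtain ⟨s, hs⟩ := (Set.finite_range r).infinite_compl.nonempty
  have hs' : ∀ i, r i - s ≠ 0 := fun i h => hs ⟨i, sub_eq_zero.1 h⟩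
  obtain ⟨c, hc⟩ := const5_aux D (fun i => r i - s) (fun i j h => hr (sub_left_injective h)) hs'
  refine ⟨c, fun x q hx => ?_⟩
  have hd : Dis (rf r x) := dis_rf r hr x
    (IsUnit.mk0 _ (Finset.prod_ne_zero_iff.2 fun i _ => sub_ne_zero.2 (hx i)))
  rw [← T_trans D _ hd s q]
  have h2 : (fun i => rf r x i - s) = rf (fun i => r i - s) (x - s) :=
    map_cons (fun z : K => z - s) x _
  rw [h2]
  exact hc _ _ fun i h => hx i (sub_left_injective h)

theorem P6_split {n : ℕ} (a : Fin (n + 1) → K) (i : Fin (n + 1)) :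
    P6 a = (X - C (a i)) * P6 fun j => a (i.succAbove j) := by
  rw [P6, Fin.prod_univ_succAbove _ i]
  rfl

theorem const_step [Infinite K] (D : Dat K) (a b : Fin 6 → K) (ha : Function.Injective a)
    (hb : Function.Injective b) (i : Fin 6) (hab : ∀ j, j ≠ i → b j = a j) (q q' : Fin 3 → K) :
    D.T b q = D.T a q' := by
  let r : Fin 5 → K := fun j => a (i.succAbove j)
  have hr : Function.Injective r := ha.comp Fin.succAbove_right_injective
  obtain ⟨c, hc⟩ := const5 D r hr
  have h1 : P6 a = P6 (rf r (a i)) := by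
    rw [P6_split a i, rf, P6_cons]
    rfl
  have h2 : P6 b = P6 (rf r (b i)) := by
    rw [P6_split b i, rf, P6_cons]
    congr 2
    funext j
    exact hab _ (Fin.succAbove_ne i j)
  rw [T_congr D h1, T_congr D h2, hc, hc]
  · exact fun j h => Fin.succAbove_ne i j (ha h).symm
  · intro j h
    change b i = a (i.succAbove j) at h
    rw [← hab _ (Fin.succAbove_ne i j)] at h
    exact Fin.succAbove_ne i j (hb h).symm

theorem const_disj [Infinite K] (D : Dat K) (a b : Fin 6 → K) (ha : Function.Injective a)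
    (hb : Function.Injective b) (hab : ∀ i j, a i ≠ b j) (q q' : Fin 3 → K) :
    D.T b q = D.T a q' := by
  classical
  have hinj : ∀ s : Finset (Fin 6), Function.Injective fun i => if i ∈ s then b i else a i := by
    intro s i j h
    simp only at h
    by_cases hi : i ∈ s
    · by_cases hj : j ∈ s
      · rw [if_pos hi, if_pos hj] at h
        exact hb h
      · rw [if_pos hi, if_neg hj] at h
        exact absurd h.symm (hab j i)
    · by_cases hj : j ∈ s
      · rw [if_neg hi, if_pos hj] at h
        exact absurd h (hab i j)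
      · rw [if_neg hi, if_neg hj] at h
        exact ha h
  have H : ∀ (s : Finset (Fin 6)) (q : Fin 3 → K),
      D.T (fun i => if i ∈ s then b i else a i) q = D.T a q' := by
    intro s
    induction s using Finset.induction_on with
    | empty =>
      intro q
      simp only [Finset.notMem_empty, if_false]
      exact const_step D a a ha ha 0 (fun _ _ => rfl) q q'
    | insert i s his ih =>
      intro q
      rw [← ih q]
      refine const_step D _ _ (hinj s) (hinj (insert i s)) i (fun j hj => ?_) q q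
      by_cases hjs : j ∈ s
      · rw [if_pos hjs, if_pos (Finset.mem_insert_of_mem hjs)]
      · rw [if_neg hjs, if_neg]
        rw [Finset.mem_insert, not_or]
        exact ⟨hj, hjs⟩
  have := H Finset.univ q
  simpa using this

/-- `S` is constant on polynomials with six roots. -/
theorem const6 [Infinite K] (D : Dat K) (a b : Fin 6 → K) (ha : Function.Injective a)
    (hb : Function.Injective b) (q q' : Fin 3 → K) : D.T b q = D.T a q' := by
  have hfin : (Set.range a ∪ Set.range b).Finite := (Set.finite_range a).union (Set.finite_range b)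
  have hinf : (Set.range a ∪ Set.range b)ᶜ.Infinite := hfin.infinite_compl
  obtain ⟨t, ht, hcard⟩ := hinf.exists_subset_card_eq 6
  let e : Fin 6 ≃ t := (Finset.equivFinOfCardEq hcard).symm
  let d : Fin 6 → K := fun i => e i
  have hd : Function.Injective d := Subtype.val_injective.comp e.injective
  have hdn : ∀ i, d i ∉ Set.range a ∪ Set.range b := fun i => ht (e i).2
  have h1 : ∀ i j, a i ≠ d j := fun i j h => hdn j (Or.inl ⟨i, h⟩)
  have h2 : ∀ i j, b i ≠ d j := fun i j h => hdn j (Or.inr ⟨i, h⟩)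
  rw [← const_disj D b d hb hd h2 0 q, ← const_disj D a d ha hd h1 0 q']

end Pool.Agent.MG.Two2
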