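import Pool.Agent.MG.Two2.Alg11

/-!
# Pure algebra part of the case `(2, 0)`: all polynomials over algebraically closed fields
-/

open Polynomial

namespace Pool.Agent.MG.Two2

section up

variable {k : Type} [Field k]

/-- The data over a larger base field. -/
noncomputable def Dat.up (D : Dat k) (K : Type) [Field K] [Algebra k K] : Dat K where
  S B _ _ f q := @Dat.S k _ D B _ (Algebra.compHom B (algebraMap k K)) f q
  nat B B' _ _ _ _ φ f q hf hq := by
    let _ : Algebra k B := Algebra.compHom B (algebraMap k K)
    let _ : Algebra k B' := Algebra.compHom B' (algebraMap k K)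
    let ψ : B →ₐ[k] B' := { (φ : B →+* B') with
      commutes' := fun c => φ.commutes (algebraMap k K c) }
    exact D.nat B B' ψ f q hf hq
  scal B _ _ u f q hu hf hq := by
    let _ : Algebra k B := Algebra.compHom B (algebraMap k K)
    exact D.scal B u f q hu hf hq
  trans B _ _ t f q hf hq := by
    let _ : Algebra k B := Algebra.compHom B (algebraMap k K)
    exact D.trans B t f q hf hq
  inv B _ _ f q hf hq := by
    let _ : Algebra k B := Algebra.compHom B (algebraMap k K)
    exact D.inv B f q hf hq
  reg B L _ _ _ _ _ φ hφ s ρ r e hs h1 h2 h3 h4 := by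
    let _ : Algebra k B := Algebra.compHom B (algebraMap k K)
    let _ : Algebra k L := Algebra.compHom L (algebraMap k K)
    let ψ : B →ₐ[k] L := { (φ : B →+* L) with
      commutes' := fun c => φ.commutes (algebraMap k K c) }
    exact D.reg B L ψ hφ s ρ r e hs h1 h2 h3 h4

theorem up_S (D : Dat k) (K : Type) [Field K] [A : Algebra k K] (f q : K[X]) :
    (D.up K).S K f q = D.S K f q := by
  change @Dat.S k _ D K _ (Algebra.compHom K (algebraMap k K)) f q = @Dat.S k _ D K _ A f q
  have hA : Algebra.compHom K (algebraMap k K) = A := by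
    refine Algebra.algebra_ext _ _ fun c => ?_
    rfl
  rw [hA]

theorem up_T (D : Dat k) (K : Type) [Field K] [Algebra k K] (a : Fin 6 → K)
    (q : Fin 3 → K) : (D.up K).T a q = D.T a q :=
  up_S D K _ _

theorem dis_of_inj {K : Type} [Field K] {n : ℕ} {a : Fin n → K} (ha : Function.Injective a) :
    Dis a := fun _ _ hij => IsUnit.mk0 _ (sub_ne_zero.2 fun h => hij (ha h))

theorem exists_inj (K : Type) [Infinite K] (n : ℕ) : ∃ a : Fin n → K, Function.Injective a := by
  obtain ⟨f⟩ : Nonempty (Fin n ↪ K) := ⟨(Fin.valEmbedding).trans (Infinite.natEmbedding K)⟩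
  exact ⟨f, f.injective⟩

/-- The constant comes from the base field. -/
theorem exists_const [Infinite k] (D : Dat k) : ∃ c : k, ∀ (K : Type) [Field K] [Algebra k K]
    (a : Fin 6 → K) (q : Fin 3 → K), Function.Injective a → D.T a q = algebraMap k K c := by
  obtain ⟨a₀, ha₀⟩ := exists_inj k 6
  refine ⟨D.T a₀ 0, fun K _ _ a q ha => ?_⟩
  have : Infinite K := Infinite.of_injective _ (algebraMap k K).injective
  have h1 : Function.Injective fun i => algebraMap k K (a₀ i) :=
    (algebraMap k K).injective.comp ha₀
  rw [← up_T D K a, const6 (D.up K) _ a h1 ha q (fun _ => 0), up_T D K _]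
  have h2 := T_nat D (Algebra.ofId k K) a₀ (dis_of_inj ha₀) 0
  have h3 : (fun i => Algebra.ofId k K ((0 : Fin 3 → k) i)) = fun _ => (0 : K) := by
    funext i
    exact map_zero _
  rw [h3] at h2
  exact h2

end up

section closed

variable {K : Type} [Field K]

/-- Multiples of a polynomial with simple roots. -/
theorem splits_P6 [IsAlgClosed K] (f : K[X]) (hf : f.Separable) (n : ℕ) (hn : f.natDegree = n) :
    ∃ (u : K) (a : Fin n → K), u ≠ 0 ∧ Function.Injective a ∧ f = C u * P6 a := by
  classical
  have hf0 : f ≠ 0 := hf.ne_zero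
  have hs : f.Splits := IsAlgClosed.splits f
  have hcard : f.roots.toFinset.card = n := by
    rw [Multiset.toFinset_card_of_nodup (nodup_roots hf), ← hn]
    exact hs.natDegree_eq_card_roots.symm
  let e : Fin n ≃ f.roots.toFinset := (Finset.equivFinOfCardEq hcard).symm
  refine ⟨f.leadingCoeff, fun i => e i, leadingCoeff_ne_zero.2 hf0,
    Subtype.val_injective.comp e.injective, ?_⟩
  have h1 : P6 (fun i => (e i : K)) = (f.roots.map fun a => X - C a).prod := by
    unfold P6
    rw [Equiv.prod_comp e (fun x : f.roots.toFinset => (X - C (x : K))),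
      Finset.prod_coe_sort f.roots.toFinset (fun x => X - C x), Finset.prod_multiset_map_count]
    refine Finset.prod_congr rfl fun x hx => ?_
    rw [Multiset.count_eq_one_of_mem (nodup_roots hf) (Multiset.mem_toFinset.1 hx), pow_one]
  rw [h1]
  exact hs.eq_prod_roots

end closed

end Pool.Agent.MG.Two2
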