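import Pool.Agent.MG.Two2.Alg1

/-!
# Pure algebra part of the case `(2, 0)`: `S` at products of linear factors
-/

open Polynomial

namespace Pool.Agent.MG.Two2

variable {k : Type} [Field k] (D : Dat k)

/-- Distinct modulo every maximal ideal. -/
def Dis {B : Type} [CommRing B] {n : ℕ} (a : Fin n → B) : Prop := ∀ i j, i ≠ j → IsUnit (a i - a j)

/-- The value at the polynomial with roots `a`. -/
noncomputable def Dat.T {B : Type} [CommRing B] [Algebra k B] {n : ℕ} (a : Fin n → B)
    (q : Fin 3 → B) : B := D.S B (P6 a) (Qp q)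

section

variable {B B' : Type} [CommRing B] [CommRing B'] [Algebra k B] [Algebra k B']

theorem Dis.map {n : ℕ} {a : Fin n → B} (h : Dis a) (φ : B →+* B') : Dis (fun i => φ (a i)) := by
  intro i j hij
  rw [← map_sub]
  exact (h i j hij).map φ

theorem Dis.sub {n : ℕ} {a : Fin n → B} (h : Dis a) (t : B) : Dis (fun i => a i - t) := by
  intro i j hij
  rw [sub_sub_sub_cancel_right]
  exact h i j hij

theorem T_nat (φ : B →ₐ[k] B') (a : Fin 6 → B) (h : Dis a) (q : Fin 3 → B) :
    D.T (fun i => φ (a i)) (fun i => φ (q i)) = φ (D.T a q) := by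
  unfold Dat.T
  rw [← D.nat B B' φ _ _ (good_P6 rfl a h) (natDegree_Qp q), P6_map, Qp_map]
  rfl

theorem T_congr {a b : Fin 6 → B} (h : P6 a = P6 b) (q : Fin 3 → B) : D.T a q = D.T b q := by
  unfold Dat.T
  rw [h]

theorem T_trans (a : Fin 6 → B) (h : Dis a) (t : B) (q : Fin 3 → B) :
    D.T (fun i => a i - t) (shq t q) = D.T a q := by
  unfold Dat.T
  rw [← D.trans B t _ _ (good_P6 rfl a h) (natDegree_Qp q), P6_comp, Qp_comp]

end

theorem scal_field {K : Type} [Field K] [Algebra k K] (c : K) (hc : c ≠ 0) (f q : K[X])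
    (hf : Good f) (hf' : Good (C c * f)) (hq : q.natDegree ≤ 2) :
    D.S K (C c * f) (C c * q) = D.S K f q := by
  let L := AlgebraicClosure K
  let φ : K →ₐ[k] L := IsScalarTower.toAlgHom k K L
  have hφ : Function.Injective φ := (algebraMap K L).injective
  apply hφ
  obtain ⟨v, hv⟩ := IsAlgClosed.exists_pow_nat_eq (algebraMap K L c) (n := 2) (by norm_num)
  have hv0 : v ≠ 0 := by
    rintro rfl
    rw [zero_pow two_ne_zero] at hv
    exact hc ((algebraMap K L).injective (by rw [← hv, map_zero]))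
  have hq' : (C c * q).natDegree ≤ 2 := (natDegree_C_mul_le _ _).trans hq
  have hfL : Good (f.map (φ : K →+* L)) := by
    refine ⟨(natDegree_map_le).trans hf.deg, ?_, ?_⟩
    · have := hf.cop.map (mapRingHom (φ : K →+* L))
      rw [coe_mapRingHom, ← derivative_map] at this
      exact this
    · have := hf.cop'.map (mapRingHom (φ : K →+* L))
      rw [coe_mapRingHom, ← derivative_map, ← reflect_map] at this
      exact this
  have hqL : (q.map (φ : K →+* L)).natDegree ≤ 2 := (natDegree_map_le).trans hq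
  have e := D.scal L v _ _ (IsUnit.mk0 v hv0) hfL hqL
  rw [← D.nat K L φ _ _ hf' hq', ← D.nat K L φ _ _ hf hq, ← e]
  rw [Polynomial.map_mul, Polynomial.map_mul, map_C]
  have e2 : (φ : K →+* L) c = v ^ 2 := by rw [hv]; rfl
  rw [e2]

theorem T_inv {K : Type} [Field K] [Algebra k K] (a : Fin 6 → K) (h : Dis a)
    (h0 : ∀ i, a i ≠ 0) (q : Fin 3 → K) :
    D.T (fun i => (a i)⁻¹) (fun i => (∏ j, a j)⁻¹ * ![q 2, q 1, q 0] i) = D.T a q := by
  have hR : (∏ j, a j) ≠ 0 := Finset.prod_ne_zero_iff.2 fun i _ => h0 i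
  have hd : Dis (fun i => (a i)⁻¹) := by
    intro i j hij
    refine IsUnit.mk0 _ ?_
    rw [Ne, sub_eq_zero, inv_inj]
    exact fun e => (h i j hij).ne_zero (sub_eq_zero.2 e)
  have hg := good_P6 rfl a h
  have e1 : (P6 a).reflect 6 = C (∏ j, a j) * P6 (fun i => (a i)⁻¹) := by
    rw [P6_reflect, P6, map_prod, ← Finset.prod_mul_distrib]
    have : ∀ i, (1 - C (a i) * X : K[X]) = (-1) * (C (a i) * (X - C (a i)⁻¹)) := by
      intro i
      have h2 : (C (a i) * C (a i)⁻¹ : K[X]) = 1 := by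
        rw [← C_mul, mul_inv_cancel₀ (h0 i), C_1]
      linear_combination -h2
    simp_rw [this]
    rw [Finset.prod_mul_distrib, Finset.prod_const, Finset.card_univ, Fintype.card_fin]
    norm_num
  have hgr : Good ((P6 a).reflect 6) := by
    refine ⟨(natDegree_reflect_le).trans (max_le le_rfl hg.deg), hg.cop', ?_⟩
    rw [reflect_reflect]
    exact hg.cop
  have e2 := D.inv K _ _ hg (natDegree_Qp q)
  unfold Dat.T
  rw [← e2, e1, Qp_reflect, ← Qp_smul]
  rw [e1] at hgr
  rw [← scal_field D _ hR _ _ (good_P6 rfl _ hd) hgr]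
  · congr 1
    rw [← mul_assoc, ← C_mul, mul_inv_cancel₀ hR, C_1, one_mul]
  · exact (natDegree_C_mul_le _ _).trans (natDegree_Qp _)

end Pool.Agent.MG.Two2
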