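import Pool.Agent.MG.Two2.Alg2

/-!
# Pure algebra part of the case `(2, 0)`: the universal pair of colliding roots
-/

open Polynomial

namespace Pool.Agent.MG.Two2

section cons

variable {B : Type} [CommRing B]

theorem P6_cons {n : ℕ} (x : B) (a : Fin n → B) :
    P6 (Fin.cons x a : Fin (n + 1) → B) = (X - C x) * P6 a := by
  rw [P6, Fin.prod_univ_succ, Fin.cons_zero]
  rfl

theorem dis_cons {n : ℕ} {x : B} {a : Fin n → B} (h : ∀ i, IsUnit (x - a i)) (ha : Dis a) :
    Dis (Fin.cons x a : Fin (n + 1) → B) := by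
  intro i j hij
  refine Fin.cases ?_ (fun i' => ?_) i (motive := fun i => i ≠ j → IsUnit ((Fin.cons x a :
    Fin (n + 1) → B) i - (Fin.cons x a : Fin (n + 1) → B) j)) hij
  · refine Fin.cases (fun e => absurd rfl e) (fun j' _ => ?_) j
    rw [Fin.cons_zero, Fin.cons_succ]
    exact h j'
  · refine Fin.cases (fun _ => ?_) (fun j' e => ?_) j
    · rw [Fin.cons_zero, Fin.cons_succ, ← neg_sub]
      exact (h i').neg
    · rw [Fin.cons_succ, Fin.cons_succ]
      exact ha i' j' fun e' => e (by rw [e'])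

omit [CommRing B] in
theorem map_cons {B' : Type} (φ : B → B') {n : ℕ} (x : B) (a : Fin n → B) :
    (fun i => φ ((Fin.cons x a : Fin (n + 1) → B) i)) =
      (Fin.cons (φ x) (fun i => φ (a i)) : Fin (n + 1) → B') := by
  funext i
  refine Fin.cases ?_ (fun i' => ?_) i
  · rfl
  · rfl

end cons

variable {K : Type} [Field K]

section ev

variable {B B' : Type} [CommRing B] [CommRing B'] [Algebra K B] [Algebra K B']

/-- The roots `0, δ, r_i - t`. -/
def rt (r : Fin 4 → K) (t δ : B) : Fin 6 → B :=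
  Fin.cons 0 (Fin.cons δ fun i : Fin 4 => algebraMap K B (r i) - t)

/-- The discriminant factor of the pairs of one of the first two roots and one of the others. -/
def DD (r : Fin 4 → K) (t δ : B) : B :=
  ∏ i, ((algebraMap K B (r i) - t) * (algebraMap K B (r i) - t - δ))

theorem DD_map (φ : B →ₐ[K] B') (r : Fin 4 → K) (t δ : B) :
    φ (DD r t δ) = DD r (φ t) (φ δ) := by
  simp [DD, map_prod]

theorem rt_map (φ : B →ₐ[K] B') (r : Fin 4 → K) (t δ : B) :
    (fun i => φ (rt r t δ i)) = rt r (φ t) (φ δ) := by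
  unfold rt
  rw [map_cons, map_cons, map_zero]
  simp

theorem dis_rt (r : Fin 4 → K) (hr : Function.Injective r) (t δ : B) (hδ : IsUnit δ)
    (hD : IsUnit (DD r t δ)) : Dis (rt r t δ) := by
  have h1 : ∀ i, IsUnit ((algebraMap K B (r i) - t) * (algebraMap K B (r i) - t - δ)) := by
    intro i
    exact isUnit_of_dvd_unit (Finset.dvd_prod_of_mem (fun i => (algebraMap K B (r i) - t) *
      (algebraMap K B (r i) - t - δ)) (Finset.mem_univ i)) hD
  refine dis_cons (fun i => ?_) (dis_cons (fun i => ?_) fun i j hij => ?_)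
  · refine Fin.cases ?_ (fun j => ?_) i
    · rw [Fin.cons_zero, zero_sub]
      exact hδ.neg
    · rw [Fin.cons_succ, zero_sub]
      exact (isUnit_of_mul_isUnit_left (h1 j)).neg
  · rw [← neg_sub]
    exact (isUnit_of_mul_isUnit_right (h1 i)).neg
  · rw [sub_sub_sub_cancel_right, ← map_sub]
    refine (IsUnit.mk0 _ ?_).map (algebraMap K B)
    rw [sub_ne_zero]
    exact fun e => hij (hr e)

/-- Evaluation at `(t, δ)`. -/
noncomputable def ev (t δ : B) : K[X][X] →ₐ[K] B :=
  eval₂AlgHom (aeval t) δ fun _ => Commute.all _ _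

theorem ev_C (t δ : B) (p : K[X]) : ev t δ (C p) = aeval t p := by
  simp [ev]

theorem ev_X (t δ : B) : ev (K := K) t δ X = δ := by
  simp [ev]

theorem ev_map (φ : B →ₐ[K] B') (t δ : B) (p : K[X][X]) : φ (ev t δ p) = ev (φ t) (φ δ) p := by
  have : φ.comp (ev t δ) = ev (K := K) (φ t) (φ δ) := by
    refine Polynomial.algHom_ext' ?_ ?_
    · ext
      simp [ev]
    · simp [ev]
  exact DFunLike.congr_fun this p

/-- Evaluation at `(t, δ)` and `q`. -/
noncomputable def evN (t δ : B) (q : Fin 3 → B) : MvPolynomial (Fin 3) K[X][X] →+* B :=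
  MvPolynomial.eval₂Hom ((ev t δ : K[X][X] →ₐ[K] B) : K[X][X] →+* B) q

theorem evN_map (φ : B →ₐ[K] B') (t δ : B) (q : Fin 3 → B) (N : MvPolynomial (Fin 3) K[X][X]) :
    φ (evN t δ q N) = evN (φ t) (φ δ) (fun i => φ (q i)) N := by
  have : (φ : B →+* B').comp (evN t δ q) = evN (K := K) (φ t) (φ δ) (fun i => φ (q i)) := by
    refine MvPolynomial.ringHom_ext (fun p => ?_) fun i => ?_
    · simp [evN, ev_map]
    · simp [evN]
  exact DFunLike.congr_fun this N

theorem evN_C (t δ : B) (q : Fin 3 → B) (p : K[X][X]) : evN t δ q (MvPolynomial.C p) = ev t δ p := by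
  simp [evN]

end ev

/-- The polynomial `N` is `δ ^ w * D ^ c * S`. -/
def KI (D : Dat K) (r : Fin 4 → K) (w c : ℕ) (N : MvPolynomial (Fin 3) K[X][X]) : Prop :=
  ∀ (B : Type) [CommRing B] [Algebra K B] (t δ : B) (q : Fin 3 → B), IsUnit δ →
    IsUnit (DD r t δ) → D.T (rt r t δ) q * (δ ^ w * DD r t δ ^ c) = evN t δ q N

attribute [local instance] MvPolynomial.algebraMvPolynomial in
theorem KI_exists (D : Dat K) (r : Fin 4 → K) (hr : Function.Injective r) :
    ∃ (n : ℕ) (N : MvPolynomial (Fin 3) K[X][X]), KI D r n n N := by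
  let h : K[X][X] := X * DD r (C X : K[X][X]) X
  let L := Localization.Away h
  let M := MvPolynomial (Fin 3) L
  let ι : K[X][X] →ₐ[K] L := IsScalarTower.toAlgHom K K[X][X] L
  let jC : L →ₐ[K] M := IsScalarTower.toAlgHom K L M
  have hu : IsUnit (ι h) := IsLocalization.Away.algebraMap_isUnit h
  let t₀ : M := jC (ι (C X))
  let δ₀ : M := jC (ι X)
  let T₀ : M := D.T (rt r t₀ δ₀) MvPolynomial.X
  have hu2 : IsUnit (δ₀ * DD r t₀ δ₀) := by
    have : δ₀ * DD r t₀ δ₀ = jC (ι h) := by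
      simp only [h, t₀, δ₀, map_mul, DD_map]
    rw [this]
    exact hu.map jC
  have hδ : IsUnit δ₀ := isUnit_of_mul_isUnit_left hu2
  have hD : IsUnit (DD r t₀ δ₀) := isUnit_of_mul_isUnit_right hu2
  have hdis := dis_rt r hr t₀ δ₀ hδ hD
  obtain ⟨⟨N, s⟩, hs⟩ := IsLocalization.surj (M := (Submonoid.powers h).map
    (MvPolynomial.C (σ := Fin 3))) T₀
  obtain ⟨_, ⟨_, ⟨n, rfl⟩, rfl⟩⟩ := s
  refine ⟨n, N, ?_⟩
  intro B _ _ t δ q h1 h2
  have h3 : IsUnit (ev (K := K) t δ h) := by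
    have : ev (K := K) t δ h = δ * DD r t δ := by
      simp only [h, map_mul, DD_map, ev_X, ev_C, aeval_X]
    rw [this]
    exact h1.mul h2
  let ψ₀ : L →ₐ[K] B := IsLocalization.liftAlgHom (M := Submonoid.powers h) (f := ev (K := K) t δ)
    (by
      rintro ⟨_, ⟨m, rfl⟩⟩
      rw [map_pow]
      exact h3.pow m)
  have hψ₀ : ∀ p, ψ₀ (ι p) = ev t δ p := fun p => IsLocalization.lift_eq _ _
  let ψ : M →ₐ[K] B :=
    { MvPolynomial.eval₂Hom (ψ₀ : L →+* B) q with
      commutes' := fun c => by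
        change MvPolynomial.eval₂Hom (ψ₀ : L →+* B) q (MvPolynomial.C (algebraMap K L c)) = _
        simp }
  have hψC : ∀ x, ψ (jC x) = ψ₀ x := fun x => by
    change MvPolynomial.eval₂Hom (ψ₀ : L →+* B) q (MvPolynomial.C x) = _
    simp
  have hψX : ∀ i, ψ (MvPolynomial.X i) = q i := fun i => by
    change MvPolynomial.eval₂Hom (ψ₀ : L →+* B) q (MvPolynomial.X i) = _
    simp
  have e1 : ψ T₀ = D.T (rt r t δ) q := by
    rw [← T_nat D ψ _ hdis, rt_map]
    simp only [hψX, t₀, δ₀, hψC, hψ₀, ev_X, ev_C, aeval_X]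
  have e2 : ψ (algebraMap (MvPolynomial (Fin 3) K[X][X]) M N) = evN t δ q N := by
    rw [MvPolynomial.algebraMap_def]
    change MvPolynomial.eval₂Hom (ψ₀ : L →+* B) q (MvPolynomial.map (algebraMap K[X][X] L) N) = _
    rw [MvPolynomial.coe_eval₂Hom, MvPolynomial.eval₂_map]
    have : ((ψ₀ : L →+* B).comp (algebraMap K[X][X] L)) = ((ev (K := K) t δ : K[X][X] →ₐ[K] B) :
        K[X][X] →+* B) := RingHom.ext hψ₀
    rw [this]
    rfl
  rw [← e1, ← e2, ← hs, map_mul]
  congr 1
  have e3 : algebraMap (MvPolynomial (Fin 3) K[X][X]) M (MvPolynomial.C (h ^ n)) = jC (ι (h ^ n)) := by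
    rw [MvPolynomial.algebraMap_def, MvPolynomial.map_C]
    rfl
  change _ = ψ (algebraMap (MvPolynomial (Fin 3) K[X][X]) M (MvPolynomial.C (h ^ n)))
  rw [e3, hψC, hψ₀, map_pow, ← mul_pow]
  simp only [h, map_mul, DD_map, ev_X, ev_C, aeval_X]

end Pool.Agent.MG.Two2
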