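import Pool.Agent.MG.Two2.Alg3

/-!
# Pure algebra part of the case `(2, 0)`: regularity when three roots collide
-/

open Polynomial

namespace Pool.Agent.MG.Two2

variable {K : Type} [Field K]

section dom

variable {R1 : Type} [CommRing R1] [IsDomain R1] [Algebra K R1]

/-- The homomorphism from polynomials over a domain to power series over its field of
fractions. -/
noncomputable def toPS (R1 : Type) [CommRing R1] [IsDomain R1] [Algebra K R1] :
    R1[X] →ₐ[K] PowerSeries (FractionRing R1) :=
  { (Polynomial.coeToPowerSeries.ringHom (R := FractionRing R1)).comp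
      (mapRingHom (algebraMap R1 (FractionRing R1))) with
    commutes' := fun c => by
      change ((Polynomial.map (algebraMap R1 (FractionRing R1)) (C (algebraMap K R1 c)) :
        (FractionRing R1)[X]) : PowerSeries (FractionRing R1)) = _
      rw [map_C, Polynomial.coe_C, ← IsScalarTower.algebraMap_apply K R1 (FractionRing R1),
        PowerSeries.algebraMap_apply] }

theorem coeff_toPS (p : R1[X]) (n : ℕ) :
    PowerSeries.coeff n (toPS (K := K) R1 p) = algebraMap R1 (FractionRing R1) (p.coeff n) := by
  change PowerSeries.coeff n ((Polynomial.map (algebraMap R1 (FractionRing R1)) p :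
        (FractionRing R1)[X]) : PowerSeries (FractionRing R1)) = _
  rw [Polynomial.coeff_coe, coeff_map]

theorem toPS_X : toPS (K := K) R1 X = PowerSeries.X := by
  change ((Polynomial.map (algebraMap R1 (FractionRing R1)) X :
        (FractionRing R1)[X]) : PowerSeries (FractionRing R1)) = _
  rw [map_X, Polynomial.coe_X]

theorem toPS_C (c : R1) :
    toPS (K := K) R1 (C c) = PowerSeries.C (algebraMap R1 (FractionRing R1) c) := by
  change ((Polynomial.map (algebraMap R1 (FractionRing R1)) (C c) :
        (FractionRing R1)[X]) : PowerSeries (FractionRing R1)) = _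
  rw [map_C, Polynomial.coe_C]

end dom

section fieldps

variable {F : Type} [Field F] [Algebra K F]

theorem alg_ps (c : K) : algebraMap K (PowerSeries F) c = PowerSeries.C (algebraMap K F c) :=
  PowerSeries.algebraMap_apply

/-- The order of vanishing of `N` when three roots collide, over power series. -/
theorem reg_ps (D : Dat K) (r : Fin 4 → K) (hr : Function.Injective r) (w c : ℕ)
    (N : MvPolynomial (Fin 3) K[X][X]) (hN : KI D r w c N) (i : Fin 4) (d : F) (hd : d ≠ 0)
    (hd1 : d + 1 ≠ 0) (e : Fin 3 → PowerSeries F) :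
    (PowerSeries.X : PowerSeries F) ^ (2 * w + 4 * c) ∣
      evN (algebraMap K (PowerSeries F) (r i) + PowerSeries.X ^ 2)
        (PowerSeries.X ^ 2 * PowerSeries.C d)
        ![PowerSeries.X ^ 2 * e 0, PowerSeries.X * e 1, e 2] N := by
  let P := PowerSeries F
  let Q := FractionRing P
  let φ : P →ₐ[K] Q := IsScalarTower.toAlgHom K P Q
  have hφ : Function.Injective φ := IsFractionRing.injective P Q
  let s : P := PowerSeries.X
  let t : P := algebraMap K P (r i) + s ^ 2
  let δ : P := s ^ 2 * PowerSeries.C d
  let q : Fin 3 → P := ![s ^ 2 * e 0, s * e 1, e 2]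
  let ρ : Fin 3 → P := ![0, PowerSeries.C d, -1]
  let r' : Fin 3 → P := fun j => algebraMap K P (r (i.succAbove j)) - t
  have hs : s ≠ 0 := PowerSeries.X_ne_zero
  have hsc : PowerSeries.constantCoeff s = 0 := PowerSeries.constantCoeff_X
  have hC : ∀ x : F, x ≠ 0 → IsUnit (PowerSeries.C x : P) := fun x hx =>
    (IsUnit.mk0 x hx).map PowerSeries.C
  have hK : ∀ x : K, x ≠ 0 → IsUnit (algebraMap K P x) := fun x hx =>
    (IsUnit.mk0 x hx).map (algebraMap K P)
  have hne : ∀ j, r (i.succAbove j) - r i ≠ 0 := fun j =>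
    sub_ne_zero.2 fun h => Fin.succAbove_ne i j (hr h)
  have hcc : ∀ x : K, PowerSeries.constantCoeff (algebraMap K P x) = algebraMap K F x := fun x => by
    rw [alg_ps]
    simp
  have hunit : ∀ j (x : P), IsUnit (r' j - s ^ 2 * x) := by
    intro j x
    rw [PowerSeries.isUnit_iff_constantCoeff]
    have : PowerSeries.constantCoeff (r' j - s ^ 2 * x) =
        algebraMap K F (r (i.succAbove j) - r i) := by
      simp only [r', t, map_sub, map_add, map_mul, map_pow, hsc, hcc]
      ring
    rw [this]
    exact (IsUnit.mk0 _ (hne j)).map (algebraMap K F)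
  have hr'u : ∀ j, IsUnit (r' j) := fun j => by
    have := hunit j 0
    rwa [mul_zero, sub_zero] at this
  obtain ⟨b, hb⟩ := D.reg P Q φ hφ s ρ r' e hs
    (by
      have h1 : IsUnit (PowerSeries.C d : P) := hC d hd
      have h2 : IsUnit (PowerSeries.C d + 1 : P) := by
        have := hC _ hd1
        rwa [map_add, map_one] at this
      intro a b hab
      fin_cases a <;> fin_cases b
      · exact absurd rfl hab
      · change IsUnit ((0 : P) - PowerSeries.C d)
        rw [zero_sub]
        exact h1.neg
      · change IsUnit ((0 : P) - (-1))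
        rw [zero_sub, neg_neg]
        exact isUnit_one
      · change IsUnit ((PowerSeries.C d : P) - 0)
        rw [sub_zero]
        exact h1
      · exact absurd rfl hab
      · change IsUnit ((PowerSeries.C d : P) - (-1))
        rw [sub_neg_eq_add]
        exact h2
      · change IsUnit ((-1 : P) - 0)
        rw [sub_zero]
        exact isUnit_one.neg
      · change IsUnit ((-1 : P) - PowerSeries.C d)
        have : (-1 : P) - PowerSeries.C d = -(PowerSeries.C d + 1) := by ring
        rw [this]
        exact h2.neg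
      · exact absurd rfl hab)
    (by
      intro a b hab
      have : r' a - r' b = algebraMap K P (r (i.succAbove a) - r (i.succAbove b)) := by
        simp only [r', map_sub]
        ring
      rw [this]
      refine hK _ (sub_ne_zero.2 fun h => hab ?_)
      exact Fin.succAbove_right_injective (hr h))
    hr'u (fun a j => hunit j _)
  have hroots : ((∏ i, (X - C (s ^ 2 * ρ i))) * ∏ j, (X - C (r' j)) : P[X]) = P6 (rt r t δ) := by
    rw [rt, P6_cons, P6_cons, P6, Fin.prod_univ_succAbove _ i, Fin.prod_univ_three]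
    have h1 : algebraMap K P (r i) - t = s ^ 2 * ρ 2 := by
      change algebraMap K P (r i) - (algebraMap K P (r i) + s ^ 2) = s ^ 2 * (-1)
      ring
    have h0 : (0 : P) = s ^ 2 * ρ 0 := by
      change (0 : P) = s ^ 2 * 0
      rw [mul_zero]
    have h2 : δ = s ^ 2 * ρ 1 := rfl
    rw [h1, ← h0, ← h2]
    simp only [r', mul_assoc]
  have hq : (C (s ^ 2 * e 0) + C (s * e 1) * X + C (e 2) * X ^ 2 : P[X]) = Qp q := rfl
  rw [hroots, hq, P6_map, Qp_map] at hb
  have hrt : (fun i => (φ : P →+* Q) (rt r t δ i)) = rt r (φ t) (φ δ) := rt_map φ r t δ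
  rw [hrt] at hb
  have hδ0 : δ ≠ 0 := mul_ne_zero (pow_ne_zero _ hs) (hC d hd).ne_zero
  have hfac : (algebraMap K P (r i) - t) * (algebraMap K P (r i) - t - δ) =
      s ^ 4 * (PowerSeries.C d + 1) := by
    simp only [t, δ]
    ring
  have hD0 : DD r t δ ≠ 0 := by
    unfold DD
    refine Finset.prod_ne_zero_iff.2 fun l _ => ?_
    by_cases hl : l = i
    · rw [hl, hfac]
      refine mul_ne_zero (pow_ne_zero _ hs) ?_
      have := (hC _ hd1).ne_zero
      rwa [map_add, map_one] at this
    · obtain ⟨j, rfl⟩ := Fin.exists_succAbove_eq hl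
      refine mul_ne_zero (hr'u j).ne_zero ?_
      exact (hunit j (PowerSeries.C d)).ne_zero
  have hφ0 : ∀ x : P, x ≠ 0 → φ x ≠ 0 := fun x hx h => hx (hφ (by rw [h, map_zero]))
  have key := hN Q (φ t) (φ δ) (fun i => φ (q i)) (IsUnit.mk0 _ (hφ0 _ hδ0))
    (by rw [← DD_map]; exact IsUnit.mk0 _ (hφ0 _ hD0))
  have hT : D.T (rt r (φ t) (φ δ)) (fun i => φ (q i)) = φ b := hb
  rw [hT, ← DD_map, ← map_pow, ← map_pow, ← map_mul, ← map_mul, ← evN_map] at key
  have key2 := hφ key
  change s ^ (2 * w + 4 * c) ∣ evN t δ q N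
  rw [← key2, pow_add, pow_mul, pow_mul]
  refine Dvd.dvd.mul_left (mul_dvd_mul (pow_dvd_pow_of_dvd ⟨_, rfl⟩ w)
    (pow_dvd_pow_of_dvd ?_ c)) b
  refine Dvd.dvd.trans ⟨_, hfac⟩ ?_
  exact Finset.dvd_prod_of_mem (fun i => (algebraMap K P (r i) - t) *
      (algebraMap K P (r i) - t - δ)) (Finset.mem_univ i)

end fieldps

end Pool.Agent.MG.Two2
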