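import Pool.Agent.MG.Two2.Alg4

/-!
# Pure algebra part of the case `(2, 0)`: the order of the leading coefficient at a root
-/

open Polynomial

namespace Pool.Agent.MG.Two2

variable {K : Type} [Field K]

/-- Polynomials in the three coefficients of `q`. -/
abbrev RE (K : Type) [Field K] : Type := MvPolynomial (Fin 3) K

/-- The leading coefficient: `δ = 0`. -/
noncomputable def lead (N : MvPolynomial (Fin 3) K[X][X]) : MvPolynomial (Fin 3) K[X] :=
  MvPolynomial.map (evalRingHom (0 : K[X])) N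

theorem reg_poly1 (D : Dat K) (r : Fin 4 → K) (hr : Function.Injective r) (w c : ℕ)
    (N : MvPolynomial (Fin 3) K[X][X]) (hN : KI D r w c N) (i : Fin 4) :
    (X : (RE K)[X][X]) ^ (2 * w + 4 * c) ∣
      evN (algebraMap K (RE K)[X][X] (r i) + X ^ 2) (X ^ 2 * C X)
        ![X ^ 2 * C (C (MvPolynomial.X 0)), X * C (C (MvPolynomial.X 1)),
          C (C (MvPolynomial.X 2))] N := by
  let R1 := (RE K)[X]
  let F := FractionRing R1
  let θ : R1[X] →ₐ[K] PowerSeries F := toPS R1
  let d : F := algebraMap R1 F X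
  have hinj : Function.Injective (algebraMap R1 F) := IsFractionRing.injective R1 F
  have hd : d ≠ 0 := fun h => X_ne_zero (hinj (by rw [map_zero]; exact h))
  have hd1 : d + 1 ≠ 0 := by
    intro h
    have h2 : (X + C 1 : R1) = 0 := hinj (by rw [map_add, C_1, map_one, map_zero]; exact h)
    exact X_add_C_ne_zero 1 h2
  have h1 := reg_ps (F := F) D r hr w c N hN i d hd hd1
    ![PowerSeries.C (algebraMap R1 F (C (MvPolynomial.X 0))),
      PowerSeries.C (algebraMap R1 F (C (MvPolynomial.X 1))),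
      PowerSeries.C (algebraMap R1 F (C (MvPolynomial.X 2)))]
  rw [Polynomial.X_pow_dvd_iff]
  intro n hn
  apply hinj
  rw [← coeff_toPS (K := K), map_zero]
  refine (PowerSeries.X_pow_dvd_iff.1 ?_) n hn
  rw [evN_map]
  have e1 : θ (algebraMap K R1[X] (r i) + X ^ 2) =
      algebraMap K (PowerSeries F) (r i) + PowerSeries.X ^ 2 := by
    rw [map_add, AlgHom.commutes, map_pow]
    exact congrArg _ (congrArg (· ^ 2) toPS_X)
  have e2 : θ (X ^ 2 * C X) = PowerSeries.X ^ 2 * PowerSeries.C d := by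
    rw [map_mul, map_pow]
    exact congr (congrArg _ (congrArg (· ^ 2) toPS_X)) (toPS_C X)
  have e3 : (fun j => θ ((![X ^ 2 * C (C (MvPolynomial.X 0)), X * C (C (MvPolynomial.X 1)),
      C (C (MvPolynomial.X 2))] : Fin 3 → R1[X]) j)) =
      ![PowerSeries.X ^ 2 * (![PowerSeries.C (algebraMap R1 F (C (MvPolynomial.X 0))),
        PowerSeries.C (algebraMap R1 F (C (MvPolynomial.X 1))),
        PowerSeries.C (algebraMap R1 F (C (MvPolynomial.X 2)))] : Fin 3 → PowerSeries F) 0,
        PowerSeries.X * (![PowerSeries.C (algebraMap R1 F (C (MvPolynomial.X 0))),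
        PowerSeries.C (algebraMap R1 F (C (MvPolynomial.X 1))),
        PowerSeries.C (algebraMap R1 F (C (MvPolynomial.X 2)))] : Fin 3 → PowerSeries F) 1,
        (![PowerSeries.C (algebraMap R1 F (C (MvPolynomial.X 0))),
        PowerSeries.C (algebraMap R1 F (C (MvPolynomial.X 1))),
        PowerSeries.C (algebraMap R1 F (C (MvPolynomial.X 2)))] : Fin 3 → PowerSeries F) 2] := by
    funext j
    fin_cases j
    · change θ (X ^ 2 * C (C (MvPolynomial.X 0))) = PowerSeries.X ^ 2 *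
        PowerSeries.C (algebraMap R1 F (C (MvPolynomial.X 0)))
      rw [map_mul, map_pow]
      exact congr (congrArg _ (congrArg (· ^ 2) toPS_X)) (toPS_C _)
    · change θ (X * C (C (MvPolynomial.X 1))) = PowerSeries.X *
        PowerSeries.C (algebraMap R1 F (C (MvPolynomial.X 1)))
      rw [map_mul]
      exact congr (congrArg _ toPS_X) (toPS_C _)
    · exact toPS_C _
  change PowerSeries.X ^ (2 * w + 4 * c) ∣ evN (θ (algebraMap K R1[X] (r i) + X ^ 2))
    (θ (X ^ 2 * C X)) (fun j => θ ((![X ^ 2 * C (C (MvPolynomial.X 0)),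
      X * C (C (MvPolynomial.X 1)), C (C (MvPolynomial.X 2))] : Fin 3 → R1[X]) j)) N
  rw [e1, e2, e3]
  exact h1

theorem reg_poly2 (D : Dat K) (r : Fin 4 → K) (hr : Function.Injective r) (w c : ℕ)
    (N : MvPolynomial (Fin 3) K[X][X]) (hN : KI D r w c N) (i : Fin 4) :
    (X : (RE K)[X]) ^ (2 * w + 4 * c) ∣
      MvPolynomial.eval₂ ((aeval (algebraMap K (RE K)[X] (r i) + X ^ 2) : K[X] →ₐ[K] (RE K)[X]) :
        K[X] →+* (RE K)[X])
        ![X ^ 2 * C (MvPolynomial.X 0), X * C (MvPolynomial.X 1), C (MvPolynomial.X 2)]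
        (lead N) := by
  let θ : (RE K)[X][X] →ₐ[K] (RE K)[X] :=
    mapAlgHom ((aeval (0 : RE K) : (RE K)[X] →ₐ[RE K] RE K).restrictScalars K)
  have hX : θ X = X := by simp [θ]
  have hC : ∀ p : (RE K)[X], θ (C p) = C (p.eval 0) := fun p => by
    simp [θ]
  have h1 := (reg_poly1 D r hr w c N hN i)
  have h2 := map_dvd θ h1
  rw [map_pow, hX] at h2
  replace h2 := h2.trans (dvd_of_eq (evN_map (B := (RE K)[X][X]) (B' := (RE K)[X]) θ
    (algebraMap K (RE K)[X][X] (r i) + X ^ 2)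
    (X ^ 2 * C X) ![X ^ 2 * C (C (MvPolynomial.X 0)), X * C (C (MvPolynomial.X 1)),
      C (C (MvPolynomial.X 2))] N))
  have e1 : θ (algebraMap K (RE K)[X][X] (r i) + X ^ 2) = algebraMap K (RE K)[X] (r i) + X ^ 2 := by
    rw [map_add, AlgHom.commutes, map_pow, hX]
  have e2 : θ (X ^ 2 * C X) = 0 := by
    rw [map_mul, hC, eval_X, C_0, mul_zero]
  have e3 : (fun j => θ ((![X ^ 2 * C (C (MvPolynomial.X 0)), X * C (C (MvPolynomial.X 1)),
      C (C (MvPolynomial.X 2))] : Fin 3 → (RE K)[X][X]) j)) =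
      ![X ^ 2 * C (MvPolynomial.X 0), X * C (MvPolynomial.X 1), C (MvPolynomial.X 2)] := by
    funext j
    fin_cases j
    · change θ (X ^ 2 * C (C (MvPolynomial.X 0))) = X ^ 2 * C (MvPolynomial.X 0)
      rw [map_mul, map_pow, hX, hC, eval_C]
    · change θ (X * C (C (MvPolynomial.X 1))) = X * C (MvPolynomial.X 1)
      rw [map_mul, hX, hC, eval_C]
    · change θ (C (C (MvPolynomial.X 2))) = C (MvPolynomial.X 2)
      rw [hC, eval_C]
  rw [e1, e2, e3] at h2
  refine h2.trans (dvd_of_eq ?_)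
  rw [lead, MvPolynomial.eval₂_map, evN, MvPolynomial.coe_eval₂Hom]
  congr 1
  refine RingHom.ext fun p => ?_
  have : (ev (K := K) (algebraMap K (RE K)[X] (r i) + X ^ 2) 0 : K[X][X] →ₐ[K] (RE K)[X]) =
      (aeval (algebraMap K (RE K)[X] (r i) + X ^ 2) : K[X] →ₐ[K] (RE K)[X]).comp
        ((aeval (0 : K[X]) : K[X][X] →ₐ[K[X]] K[X]).restrictScalars K) := by
    refine Polynomial.algHom_ext' ?_ ?_
    · ext
      simp [ev]
    · simp [ev]
  change (ev (K := K) (algebraMap K (RE K)[X] (r i) + X ^ 2) 0) p =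
    aeval (algebraMap K (RE K)[X] (r i) + X ^ 2) (eval 0 p)
  rw [this]
  rfl

/-- The coefficients of the evaluation. -/
theorem coeff_ev (a : K) (G : MvPolynomial (Fin 3) K[X]) (m : Fin 3 →₀ ℕ) (n : ℕ) :
    MvPolynomial.coeff m ((MvPolynomial.eval₂
      ((aeval (algebraMap K (RE K)[X] a + X ^ 2) : K[X] →ₐ[K] (RE K)[X]) : K[X] →+* (RE K)[X])
        ![X ^ 2 * C (MvPolynomial.X 0), X * C (MvPolynomial.X 1), C (MvPolynomial.X 2)]
        G).coeff n) =
      ((MvPolynomial.coeff m G).comp (C a + X ^ 2) * X ^ (2 * m 0 + m 1)).coeff n := by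
  classical
  induction G using MvPolynomial.induction_on' with
  | add p q hp hq =>
    rw [MvPolynomial.eval₂_add, coeff_add, MvPolynomial.coeff_add, hp, hq,
      MvPolynomial.coeff_add, add_comp, add_mul, coeff_add]
  | monomial u p =>
    rw [MvPolynomial.eval₂_monomial, MvPolynomial.coeff_monomial]
    have e1 : ((aeval (algebraMap K (RE K)[X] a + X ^ 2) : K[X] →ₐ[K] (RE K)[X]) :
        K[X] →+* (RE K)[X]) p = (p.comp (C a + X ^ 2)).map (algebraMap K (RE K)) := by
      change aeval (algebraMap K (RE K)[X] a + X ^ 2) p = _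
      rw [map_comp, aeval_def, eval₂_eq_eval_map, comp, eval₂_eq_eval_map]
      congr 1
      · simp
      · rw [Polynomial.map_map]
        rfl
    have e2 : (u.prod fun i e => (![X ^ 2 * C (MvPolynomial.X 0), X * C (MvPolynomial.X 1),
        C (MvPolynomial.X 2)] : Fin 3 → (RE K)[X]) i ^ e) =
        X ^ (2 * u 0 + u 1) * C (MvPolynomial.monomial u 1) := by
      rw [Finsupp.prod_fintype _ _ (fun i => pow_zero _), Fin.prod_univ_three]
      have e3 : (MvPolynomial.monomial u 1 : RE K) =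
          MvPolynomial.X 0 ^ u 0 * MvPolynomial.X 1 ^ u 1 * MvPolynomial.X 2 ^ u 2 := by
        rw [MvPolynomial.monomial_eq, MvPolynomial.C_1, one_mul,
          Finsupp.prod_fintype _ _ (fun i => pow_zero _), Fin.prod_univ_three]
      rw [e3]
      simp only [Matrix.cons_val_zero, Matrix.cons_val_one, Matrix.cons_val_two,
        Matrix.head_cons, Matrix.tail_cons, C_mul, C_pow, mul_pow]
      ring
    rw [e1, e2, ← mul_assoc]
    have e4 : (p.comp (C a + X ^ 2)).map (algebraMap K (RE K)) * X ^ (2 * u 0 + u 1) =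
        ((p.comp (C a + X ^ 2)) * X ^ (2 * u 0 + u 1)).map (algebraMap K (RE K)) := by
      rw [Polynomial.map_mul, Polynomial.map_pow, map_X]
    rw [e4, coeff_mul_C, coeff_map]
    change MvPolynomial.coeff m (MvPolynomial.C _ * MvPolynomial.monomial u 1) = _
    rw [MvPolynomial.coeff_C_mul, MvPolynomial.coeff_monomial]
    by_cases h : u = m
    · subst h
      simp
    · simp [h]

/-- `2 ord_{r_i} + 2 l + j ≥ 2 w + 4 c`. -/
theorem reg_dvd (D : Dat K) (r : Fin 4 → K) (hr : Function.Injective r) (w c : ℕ)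
    (N : MvPolynomial (Fin 3) K[X][X]) (hN : KI D r w c N) (i : Fin 4) (m : Fin 3 →₀ ℕ) :
    (X : K[X]) ^ (2 * w + 4 * c) ∣
      (MvPolynomial.coeff m (lead N)).comp (C (r i) + X ^ 2) * X ^ (2 * m 0 + m 1) := by
  rw [Polynomial.X_pow_dvd_iff]
  intro n hn
  rw [← coeff_ev, Polynomial.X_pow_dvd_iff.1 (reg_poly2 D r hr w c N hN i) n hn,
    MvPolynomial.coeff_zero]

/-- The multiplicity of the root `r_i`. -/
theorem reg_mult (D : Dat K) (r : Fin 4 → K) (hr : Function.Injective r) (w c : ℕ)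
    (N : MvPolynomial (Fin 3) K[X][X]) (hN : KI D r w c N) (i : Fin 4) (m : Fin 3 →₀ ℕ)
    (h0 : MvPolynomial.coeff m (lead N) ≠ 0) :
    2 * w + 4 * c ≤ 2 * (MvPolynomial.coeff m (lead N)).rootMultiplicity (r i) + (2 * m 0 + m 1) := by
  set p := MvPolynomial.coeff m (lead N) with hp
  obtain ⟨p1, hp1, hnd⟩ := exists_eq_pow_rootMultiplicity_mul_and_not_dvd p h0 (r i)
  have h1 := reg_dvd D r hr w c N hN i m
  rw [← hp] at h1
  set μ := p.rootMultiplicity (r i)
  have h2 : p.comp (C (r i) + X ^ 2) = X ^ (2 * μ) * p1.comp (C (r i) + X ^ 2) := by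
    conv_lhs => rw [hp1]
    rw [mul_comp, pow_comp, sub_comp, X_comp, C_comp, add_sub_cancel_left, ← pow_mul]
  rw [h2, mul_assoc, mul_comm (p1.comp _), ← mul_assoc, ← pow_add] at h1
  by_contra hlt
  push Not at hlt
  have hX : (X : K[X]) ^ (2 * μ + (2 * m 0 + m 1)) ≠ 0 := pow_ne_zero _ X_ne_zero
  have h3 : (X : K[X]) ^ (2 * μ + (2 * m 0 + m 1)) * X ∣
      X ^ (2 * μ + (2 * m 0 + m 1)) * p1.comp (C (r i) + X ^ 2) := by
    rw [← pow_succ]
    exact (pow_dvd_pow X hlt).trans h1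
  have h5 : (X : K[X]) ∣ p1.comp (C (r i) + X ^ 2) := (mul_dvd_mul_iff_left hX).1 h3
  have h4 : p1.eval (r i) = 0 := by
    rw [X_dvd_iff, coeff_zero_eq_eval_zero, eval_comp] at h5
    simpa using h5
  exact hnd (dvd_iff_isRoot.2 h4)

end Pool.Agent.MG.Two2
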