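import Pool.Agent.MG.Two2.Alg5

/-!
# Pure algebra part of the case `(2, 0)`: the inversion `x ↦ 1/x`
-/

open Polynomial

namespace Pool.Agent.MG.Two2

variable {K : Type} [Field K]

theorem shq_neg {B : Type} [CommRing B] (t : B) (q : Fin 3 → B) : shq t (shq (-t) q) = q := by
  funext i
  fin_cases i
  · change (q 0 + q 1 * -t + q 2 * (-t) ^ 2) + (q 1 + 2 * q 2 * -t) * t + q 2 * t ^ 2 = q 0
    ring
  · change (q 1 + 2 * q 2 * -t) + 2 * q 2 * t = q 1
    ring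
  · rfl

/-- The new coefficients; `ti`, `v`, `R` are the inverses of `t`, `t + δ` and of the product of
the `r_i`. -/
def qh {B : Type} [CommRing B] (t ti v R : B) (q : Fin 3 → B) : Fin 3 → B :=
  shq ti (fun i => (ti * v * R) * ![shq (-t) q 2, shq (-t) q 1, shq (-t) q 0] i)

theorem qh_map {B B' : Type} [CommRing B] [CommRing B'] (φ : B →+* B') (t ti v R : B)
    (q : Fin 3 → B) : (fun i => φ (qh t ti v R q i)) =
      qh (φ t) (φ ti) (φ v) (φ R) (fun i => φ (q i)) := by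
  have h2 : φ 2 = 2 := map_ofNat φ 2
  funext i
  fin_cases i <;> simp [qh, shq, h2]

theorem map_cons2 {B B' : Type} (φ : B → B') {n : ℕ} (x y : B) (a : Fin n → B) :
    (fun i => φ ((Fin.cons x (Fin.cons y a) : Fin (n + 2) → B) i)) =
      (Fin.cons (φ x) (Fin.cons (φ y) (fun i => φ (a i))) : Fin (n + 2) → B') := by
  rw [map_cons, map_cons]

section fieldQ

variable {Q : Type} [Field Q] [Algebra K Q]

theorem alg_inv (x : K) : algebraMap K Q x⁻¹ = (algebraMap K Q x)⁻¹ := map_inv₀ _ _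

theorem T_inv_rt (D : Dat K) (r : Fin 4 → K) (hr : Function.Injective r) (hr0 : ∀ i, r i ≠ 0)
    (t δ : Q) (ht : t ≠ 0) (htδ : t + δ ≠ 0) (hδ : δ ≠ 0) (hD : DD r t δ ≠ 0) (q : Fin 3 → Q) :
    D.T (rt (fun i => (r i)⁻¹) t⁻¹ ((t + δ)⁻¹ - t⁻¹))
      (qh t t⁻¹ (t + δ)⁻¹ (∏ i, algebraMap K Q (r i))⁻¹ q) = D.T (rt r t δ) q := by
  let a : Fin 6 → Q := Fin.cons t (Fin.cons (t + δ) fun i : Fin 4 => algebraMap K Q (r i))
  have ha : (fun i => a i - t) = rt r t δ := by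
    refine (map_cons2 (fun x : Q => x - t) _ _ _).trans ?_
    unfold rt
    simp only [sub_self, add_sub_cancel_left]
  have hdis : Dis a := by
    have h1 := dis_rt r hr t δ (IsUnit.mk0 _ hδ) (IsUnit.mk0 _ hD)
    rw [← ha] at h1
    have h2 := h1.sub (-t)
    simpa only [sub_neg_eq_add, sub_add_cancel] using h2
  have hrQ : ∀ i, algebraMap K Q (r i) ≠ 0 := fun i h =>
    hr0 i ((algebraMap K Q).injective (by rw [h, map_zero]))
  have ha0 : ∀ i, a i ≠ 0 := by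
    intro i
    refine Fin.cases ht (fun j => ?_) i
    exact Fin.cases htδ (fun l => hrQ l) j
  have hai : (fun i => (a i)⁻¹) = Fin.cons t⁻¹ (Fin.cons (t + δ)⁻¹ fun i : Fin 4 =>
      (algebraMap K Q (r i))⁻¹) := by
    exact map_cons2 (fun x : Q => x⁻¹) _ _ _
  have hdi : Dis (fun i => (a i)⁻¹) := by
    intro i j hij
    refine IsUnit.mk0 _ ?_
    rw [Ne, sub_eq_zero, inv_inj]
    exact fun e => (hdis i j hij).ne_zero (sub_eq_zero.2 e)
  have hai2 : (fun i => (a i)⁻¹ - t⁻¹) =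
      rt (fun i => (r i)⁻¹) t⁻¹ ((t + δ)⁻¹ - t⁻¹) := by
    have e1 : (fun i => (a i)⁻¹ - t⁻¹) = fun i => (fun x => x - t⁻¹) ((fun i => (a i)⁻¹) i) := rfl
    rw [e1, hai]
    refine (map_cons2 (fun x : Q => x - t⁻¹) _ _ _).trans ?_
    unfold rt
    simp only [alg_inv, sub_self]
  have hprod : (∏ j, a j)⁻¹ = t⁻¹ * (t + δ)⁻¹ * (∏ i, algebraMap K Q (r i))⁻¹ := by
    rw [Fin.prod_univ_succ, Fin.prod_univ_succ, mul_inv, mul_inv, mul_assoc]
    rfl
  have s1 := T_trans D a hdis t (shq (-t) q)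
  rw [ha, shq_neg] at s1
  have s2 := T_inv D a hdis ha0 (shq (-t) q)
  have s3 := T_trans D (fun i => (a i)⁻¹) hdi t⁻¹
    (fun i => (∏ j, a j)⁻¹ * ![shq (-t) q 2, shq (-t) q 1, shq (-t) q 0] i)
  rw [hai2, s2, hprod] at s3
  rw [s1, ← s3]
  rfl

theorem DD_inv (r : Fin 4 → K) (hr0 : ∀ i, r i ≠ 0) (t δ : Q) (ht : t ≠ 0) (htδ : t + δ ≠ 0) :
    (∏ i, algebraMap K Q (r i)) ^ 2 * (t * (t + δ)) ^ 4 *
      DD (fun i => (r i)⁻¹) t⁻¹ ((t + δ)⁻¹ - t⁻¹) = DD r t δ := by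
  have hrQ : ∀ i, algebraMap K Q (r i) ≠ 0 := fun i h =>
    hr0 i ((algebraMap K Q).injective (by rw [h, map_zero]))
  have e0 : (t * (t + δ)) ^ 4 = ∏ _i : Fin 4, (t * (t + δ)) := by
    rw [Finset.prod_const, Finset.card_univ, Fintype.card_fin]
  unfold DD
  rw [e0, ← Finset.prod_pow, ← Finset.prod_mul_distrib, ← Finset.prod_mul_distrib]
  refine Finset.prod_congr rfl fun i _ => ?_
  rw [alg_inv]
  have := hrQ i
  field_simp
  ring

theorem invQ (D : Dat K) (r : Fin 4 → K) (hr : Function.Injective r) (hr0 : ∀ i, r i ≠ 0)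
    (w c : ℕ) (N N' : MvPolynomial (Fin 3) K[X][X]) (hN : KI D r w c N)
    (hN' : KI D (fun i => (r i)⁻¹) w c N')
    (t δ : Q) (ht : t ≠ 0) (htδ : t + δ ≠ 0) (hδ : δ ≠ 0) (hD : DD r t δ ≠ 0) (q : Fin 3 → Q) :
    evN t δ q N = (-1) ^ w * (∏ i, algebraMap K Q (r i)) ^ (2 * c) *
      (t * (t + δ)) ^ (w + 4 * c) * evN t⁻¹ ((t + δ)⁻¹ - t⁻¹)
        (qh t t⁻¹ (t + δ)⁻¹ (∏ i, algebraMap K Q (r i))⁻¹ q) N' := by
  have hDD := DD_inv r hr0 t δ ht htδ
  have hδ' : (t * (t + δ)) * ((t + δ)⁻¹ - t⁻¹) = -δ := by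
    field_simp
    ring
  have hδ0 : (t + δ)⁻¹ - t⁻¹ ≠ 0 := by
    intro h
    rw [h, mul_zero] at hδ'
    exact hδ (neg_eq_zero.1 hδ'.symm)
  have hD0 : DD (fun i => (r i)⁻¹) t⁻¹ ((t + δ)⁻¹ - t⁻¹) ≠ 0 := by
    intro h
    rw [h, mul_zero] at hDD
    exact hD hDD.symm
  rw [← hN Q t δ q (IsUnit.mk0 _ hδ) (IsUnit.mk0 _ hD),
    ← hN' Q _ _ _ (IsUnit.mk0 _ hδ0) (IsUnit.mk0 _ hD0), T_inv_rt D r hr hr0 t δ ht htδ hδ hD q]
  have e1 : δ ^ w = (-1) ^ w * (t * (t + δ)) ^ w * ((t + δ)⁻¹ - t⁻¹) ^ w := by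
    rw [mul_assoc, ← mul_pow, ← mul_pow, hδ', neg_one_mul, neg_neg]
  rw [e1, ← hDD, mul_pow _ _ c, mul_pow _ _ c, ← pow_mul, ← pow_mul, pow_add, pow_mul]
  ring

end fieldQ

/-- Evaluation of the leading coefficient. -/
noncomputable def evL (t : K) (q : Fin 3 → K) (G : MvPolynomial (Fin 3) K[X]) : K :=
  MvPolynomial.eval q (MvPolynomial.map (evalRingHom t) G)

theorem evN_lead (t : K) (q : Fin 3 → K) (N : MvPolynomial (Fin 3) K[X][X]) :
    evN t 0 q N = evL t q (lead N) := by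
  rw [evL, lead, MvPolynomial.map_map, MvPolynomial.eval_map, evN, MvPolynomial.coe_eval₂Hom]
  congr 1
  refine RingHom.ext fun p => ?_
  have : (ev (K := K) t 0 : K[X][X] →ₐ[K] K) =
      (aeval t : K[X] →ₐ[K] K).comp
        ((aeval (0 : K[X]) : K[X][X] →ₐ[K[X]] K[X]).restrictScalars K) := by
    refine Polynomial.algHom_ext' ?_ ?_
    · ext
      simp [ev]
    · simp [ev]
  change ev (K := K) t 0 p = eval t (eval 0 p)
  rw [this]
  change aeval t (aeval (0 : K[X]) p) = _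
  rw [coe_aeval_eq_eval, coe_aeval_eq_eval]

/-- The inversion formula for the leading coefficient. -/
theorem inv_lead (D : Dat K) (r : Fin 4 → K) (hr : Function.Injective r) (hr0 : ∀ i, r i ≠ 0)
    (w c : ℕ) (N N' : MvPolynomial (Fin 3) K[X][X]) (hN : KI D r w c N)
    (hN' : KI D (fun i => (r i)⁻¹) w c N') (t : K) (ht : t ≠ 0) (htr : ∀ i, t ≠ r i)
    (q : Fin 3 → K) :
    evL t q (lead N) = ((-1) ^ w * (∏ i, r i) ^ (2 * c) * t ^ (2 * w + 8 * c)) *
      evL t⁻¹ (qh t t⁻¹ t⁻¹ (∏ i, r i)⁻¹ q) (lead N') := by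
  let P := PowerSeries K
  let Q := FractionRing P
  let φ : P →ₐ[K] Q := IsScalarTower.toAlgHom K P Q
  have hφ : Function.Injective φ := IsFractionRing.injective P Q
  have hφ0 : ∀ x : P, x ≠ 0 → φ x ≠ 0 := fun x hx h => hx (hφ (by rw [h, map_zero]))
  let δ : P := PowerSeries.X
  let tP : P := algebraMap K P t
  have hcX : PowerSeries.constantCoeff δ = 0 := PowerSeries.constantCoeff_X
  have hcc : ∀ x : K, PowerSeries.constantCoeff (algebraMap K P x) = x := fun x => by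
    rw [alg_ps]
    simp
  have hu : IsUnit (tP + δ) := by
    rw [PowerSeries.isUnit_iff_constantCoeff, map_add, hcX, hcc, add_zero]
    exact IsUnit.mk0 t ht
  obtain ⟨v, hv⟩ := hu.exists_right_inv
  have hcv : PowerSeries.constantCoeff v = t⁻¹ := by
    have := congrArg PowerSeries.constantCoeff hv
    rw [map_mul, map_add, hcX, hcc, add_zero, map_one] at this
    exact eq_inv_of_mul_eq_one_right this
  have hφv : φ v = (φ tP + φ δ)⁻¹ := by
    have := congrArg φ hv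
    rw [map_mul, map_add, map_one] at this
    exact eq_inv_of_mul_eq_one_right this
  have hφt : φ tP = algebraMap K Q t := AlgHom.commutes φ t
  have hti : φ (algebraMap K P t⁻¹) = (φ tP)⁻¹ := by
    rw [AlgHom.commutes, hφt, alg_inv]
  have hRi : φ (algebraMap K P (∏ i, r i)⁻¹) = (∏ i, algebraMap K Q (r i))⁻¹ := by
    rw [AlgHom.commutes, alg_inv, map_prod]
  have ht0 : φ tP ≠ 0 := by
    rw [hφt]
    exact fun h => ht ((algebraMap K Q).injective (by rw [h, map_zero]))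
  have hδ0 : φ δ ≠ 0 := hφ0 _ PowerSeries.X_ne_zero
  have htδ : φ tP + φ δ ≠ 0 := by
    rw [← map_add]
    exact hφ0 _ hu.ne_zero
  have hD0 : DD r (φ tP) (φ δ) ≠ 0 := by
    rw [← DD_map]
    refine hφ0 _ ?_
    unfold DD
    refine Finset.prod_ne_zero_iff.2 fun i _ => mul_ne_zero ?_ ?_
    · intro h
      have := congrArg PowerSeries.constantCoeff h
      rw [map_sub, hcc, hcc, map_zero, sub_eq_zero] at this
      exact htr i this.symm
    · intro h
      have := congrArg PowerSeries.constantCoeff h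
      rw [map_sub, map_sub, hcc, hcc, hcX, sub_zero, map_zero, sub_eq_zero] at this
      exact htr i this.symm
  have key := invQ D r hr hr0 w c N N' hN hN' (φ tP) (φ δ) ht0 htδ hδ0 hD0
    (fun i => φ (algebraMap K P (q i)))
  have e1 : qh (φ tP) (φ tP)⁻¹ (φ tP + φ δ)⁻¹ (∏ i, algebraMap K Q (r i))⁻¹
      (fun i => φ (algebraMap K P (q i))) = fun i => φ (qh tP (algebraMap K P t⁻¹) v
        (algebraMap K P (∏ i, r i)⁻¹) (fun i => algebraMap K P (q i)) i) := by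
    have := qh_map (φ : P →+* Q) tP (algebraMap K P t⁻¹) v
        (algebraMap K P (∏ i, r i)⁻¹) (fun i => algebraMap K P (q i))
    refine Eq.trans ?_ this.symm
    change _ = qh (φ tP) (φ (algebraMap K P t⁻¹)) (φ v) (φ (algebraMap K P (∏ i, r i)⁻¹)) _
    rw [hti, hφv, hRi]
    rfl
  have e2 : (φ tP + φ δ)⁻¹ - (φ tP)⁻¹ = φ (v - algebraMap K P t⁻¹) := by
    rw [map_sub, hφv, hti]
  have e3 : (∏ i, algebraMap K Q (r i)) = φ (algebraMap K P (∏ i, r i)) := by
    rw [AlgHom.commutes, map_prod]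
  rw [e1, e2, e3, ← hti, ← evN_map, ← evN_map, ← map_pow, ← map_add, ← map_mul φ tP,
    ← map_pow] at key
  have key1 : φ (evN tP δ (fun i => algebraMap K P (q i)) N) = φ ((-1) ^ w *
      (algebraMap K P (∏ i, r i)) ^ (2 * c) * (tP * (tP + δ)) ^ (w + 4 * c) *
      evN (algebraMap K P t⁻¹) (v - algebraMap K P t⁻¹) (qh tP (algebraMap K P t⁻¹) v
        (algebraMap K P (∏ i, r i)⁻¹) (fun i => algebraMap K P (q i))) N') := by
    rw [key]
    simp only [map_mul, map_pow, map_neg, map_one]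
  have key2 := hφ key1
  let cc : P →ₐ[K] K := { PowerSeries.constantCoeff with commutes' := hcc }
  have hccv : cc v = t⁻¹ := hcv
  have hccX : cc δ = 0 := hcX
  have hcca : ∀ x : K, cc (algebraMap K P x) = x := hcc
  have key3 := congrArg cc key2
  rw [map_mul, map_mul, map_mul, evN_map, evN_map, map_pow, map_pow, map_pow, map_neg, map_one,
    map_mul, map_add, map_sub, hccX, hccv, hcca, hcca, hcca, sub_self, add_zero, evN_lead,
    evN_lead] at key3
  have e4 : (fun i => cc (qh tP (algebraMap K P t⁻¹) v (algebraMap K P (∏ i, r i)⁻¹)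
      (fun i => algebraMap K P (q i)) i)) = qh t t⁻¹ t⁻¹ (∏ i, r i)⁻¹ q := by
    have := qh_map (cc : P →+* K) tP (algebraMap K P t⁻¹) v
        (algebraMap K P (∏ i, r i)⁻¹) (fun i => algebraMap K P (q i))
    refine Eq.trans this ?_
    change qh (cc tP) (cc (algebraMap K P t⁻¹)) (cc v) (cc (algebraMap K P (∏ i, r i)⁻¹))
      (fun i => cc (algebraMap K P (q i))) = _
    rw [hcca, hcca, hccv, hcca]
    simp only [hcca]
  rw [e4] at key3
  simp only [hcca] at key3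
  rw [key3]
  congr 2
  rw [← pow_two, ← pow_mul]
  congr 1
  ring

end Pool.Agent.MG.Two2
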