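import Pool.Agent.MG.Two2.Alg6

/-!
# Pure algebra part of the case `(2, 0)`: no pole when two roots collide
-/

open Polynomial

namespace Pool.Agent.MG.Two2

variable {K : Type} [Field K]

section tri

open MvPolynomial in
/-- Substitution of `0` for one variable. -/
noncomputable def kill (i : Fin 3) : MvPolynomial (Fin 3) K →ₐ[K] MvPolynomial (Fin 3) K :=
  MvPolynomial.aeval fun j => if j = i then 0 else MvPolynomial.X j

theorem coeff_kill (i : Fin 3) (p : MvPolynomial (Fin 3) K) (m : Fin 3 →₀ ℕ) (hm : m i = 0) :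
    MvPolynomial.coeff m (kill i p) = MvPolynomial.coeff m p := by
  classical
  induction p using MvPolynomial.induction_on' with
  | add p q hp hq => rw [map_add, MvPolynomial.coeff_add, hp, hq, MvPolynomial.coeff_add]
  | monomial u c =>
    by_cases hu : u i = 0
    · have : kill i (MvPolynomial.monomial u c) = MvPolynomial.monomial u c := by
        rw [kill, MvPolynomial.aeval_monomial, MvPolynomial.monomial_eq]
        congr 1
        refine Finsupp.prod_congr fun j hj => ?_
        rw [if_neg]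
        rintro rfl
        exact Finsupp.mem_support_iff.1 hj hu
      rw [this]
    · have : kill i (MvPolynomial.monomial u c) = 0 := by
        rw [kill, MvPolynomial.aeval_monomial, Finsupp.prod,
          Finset.prod_eq_zero (Finsupp.mem_support_iff.2 hu), mul_zero]
        rw [if_pos rfl, zero_pow hu]
      rw [this, MvPolynomial.coeff_zero, MvPolynomial.coeff_monomial, if_neg]
      rintro rfl
      exact hu hm

/-- A triangular substitution. -/
noncomputable def tri (a b c d e g : K) : Fin 3 → MvPolynomial (Fin 3) K :=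
  ![MvPolynomial.C a * MvPolynomial.X 0,
    MvPolynomial.C b * MvPolynomial.X 1 + MvPolynomial.C c * MvPolynomial.X 0,
    MvPolynomial.C d * MvPolynomial.X 2 + MvPolynomial.C e * MvPolynomial.X 1 +
      MvPolynomial.C g * MvPolynomial.X 0]

theorem coeff_X_pow_mul (i : Fin 3) (n : ℕ) (p : MvPolynomial (Fin 3) K) (m : Fin 3 →₀ ℕ) :
    MvPolynomial.coeff m (MvPolynomial.X i ^ n * p) =
      if n ≤ m i then MvPolynomial.coeff (m - Finsupp.single i n) p else 0 := by
  classical
  rw [MvPolynomial.X_pow_eq_monomial, MvPolynomial.coeff_monomial_mul']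
  have : Finsupp.single i n ≤ m ↔ n ≤ m i := by
    rw [Finsupp.single_le_iff]
  simp only [this, one_mul]

theorem coeff_tri_monomial (a b c d e g : K) (u m : Fin 3 →₀ ℕ)
    (h : m 0 ≤ u 0 ∧ (u 0 = m 0 → m 1 ≤ u 1)) :
    MvPolynomial.coeff m ((tri a b c d e g 0) ^ u 0 * (tri a b c d e g 1) ^ u 1 *
      (tri a b c d e g 2) ^ u 2) =
      if u = m then a ^ m 0 * b ^ m 1 * d ^ m 2 else 0 := by
  classical
  have e0 : (tri a b c d e g 0) ^ u 0 * (tri a b c d e g 1) ^ u 1 * (tri a b c d e g 2) ^ u 2 =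
      MvPolynomial.C (a ^ u 0) * (MvPolynomial.X 0 ^ u 0 *
        ((tri a b c d e g 1) ^ u 1 * (tri a b c d e g 2) ^ u 2)) := by
    simp only [tri, Matrix.cons_val_zero, mul_pow, MvPolynomial.C_pow]
    ring
  rw [e0, MvPolynomial.coeff_C_mul, coeff_X_pow_mul]
  by_cases h0 : u 0 = m 0
  swap
  · rw [if_neg (by omega), if_neg (by rintro rfl; exact h0 rfl), mul_zero]
  rw [if_pos (by omega)]
  set m' := m - Finsupp.single 0 (u 0) with hm'
  have hm'0 : m' 0 = 0 := by simp [hm', h0]
  have hm'1 : m' 1 = m 1 := by simp [hm']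
  have hm'2 : m' 2 = m 2 := by simp [hm']
  rw [← coeff_kill 0 _ m' hm'0, map_mul, map_pow, map_pow]
  have k1 : kill (0 : Fin 3) (tri a b c d e g 1) = MvPolynomial.C b * MvPolynomial.X 1 := by
    simp [tri, kill]
  have k2 : kill (0 : Fin 3) (tri a b c d e g 2) =
      MvPolynomial.C d * MvPolynomial.X 2 + MvPolynomial.C e * MvPolynomial.X 1 := by
    simp [tri, kill]
  rw [k1, k2, mul_pow, ← MvPolynomial.C_pow, mul_assoc, MvPolynomial.coeff_C_mul, coeff_X_pow_mul]
  by_cases h1 : u 1 = m 1
  swap
  · rw [if_neg (by have := h.2 h0; omega), if_neg (by rintro rfl; exact h1 rfl), mul_zero,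
      mul_zero]
  rw [if_pos (by omega)]
  set m'' := m' - Finsupp.single 1 (u 1) with hm''
  have hm''0 : m'' 0 = 0 := by simp [hm'', hm'0]
  have hm''1 : m'' 1 = 0 := by simp [hm'', hm'1, h1]
  have hm''2 : m'' 2 = m 2 := by simp [hm'', hm'2]
  rw [← coeff_kill 1 _ m'' hm''1, map_pow]
  have k3 : kill (1 : Fin 3) (MvPolynomial.C d * MvPolynomial.X 2 +
      MvPolynomial.C e * MvPolynomial.X 1 : MvPolynomial (Fin 3) K) =
      MvPolynomial.C d * MvPolynomial.X 2 := by
    simp [kill]
  rw [k3, mul_pow, ← MvPolynomial.C_pow, MvPolynomial.coeff_C_mul, MvPolynomial.coeff_X_pow]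
  by_cases h2 : u 2 = m 2
  · have hum : u = m := by
      ext i
      fin_cases i
      · exact h0
      · exact h1
      · exact h2
    have : Finsupp.single 2 (u 2) = m'' := by
      ext i
      fin_cases i
      · simp [hm''0]
      · simp [hm''1]
      · simp [hm''2, h2]
    rw [if_pos this, if_pos hum, hum]
    ring
  · rw [if_neg, if_neg (by rintro rfl; exact h2 rfl)]
    · ring
    · intro h3
      have := DFunLike.congr_fun h3 2
      simp only [Finsupp.single_eq_same] at this
      rw [hm''2] at this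
      exact h2 this

theorem coeff_tri (a b c d e g : K) (p : MvPolynomial (Fin 3) K) (m : Fin 3 →₀ ℕ)
    (h : ∀ u ∈ p.support, m 0 ≤ u 0 ∧ (u 0 = m 0 → m 1 ≤ u 1)) :
    MvPolynomial.coeff m (MvPolynomial.bind₁ (tri a b c d e g) p) =
      MvPolynomial.coeff m p * (a ^ m 0 * b ^ m 1 * d ^ m 2) := by
  classical
  conv_lhs => rw [p.as_sum]
  rw [map_sum, MvPolynomial.coeff_sum]
  have h1 : ∀ u ∈ p.support, MvPolynomial.coeff m (MvPolynomial.bind₁ (tri a b c d e g)
      (MvPolynomial.monomial u (MvPolynomial.coeff u p))) =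
      if u = m then MvPolynomial.coeff u p * (a ^ m 0 * b ^ m 1 * d ^ m 2) else 0 := by
    intro u hu
    rw [MvPolynomial.bind₁_monomial, MvPolynomial.coeff_C_mul]
    have : (∏ i ∈ u.support, tri a b c d e g i ^ u i) =
        (tri a b c d e g 0) ^ u 0 * (tri a b c d e g 1) ^ u 1 * (tri a b c d e g 2) ^ u 2 := by
      have := Finsupp.prod_fintype u (fun i e' => tri a b c d e g i ^ e') (fun i => pow_zero _)
      rw [Fin.prod_univ_three] at this
      exact this
    rw [this, coeff_tri_monomial a b c d e g u m (h u hu), mul_ite, mul_zero]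
  rw [Finset.sum_congr rfl h1, Finset.sum_ite_eq']
  by_cases hm : m ∈ p.support
  · rw [if_pos hm]
  · rw [if_neg hm, MvPolynomial.notMem_support_iff.1 hm, zero_mul]

end tri

theorem sum_mult (r : Fin 4 → K) (hr : Function.Injective r) (p : K[X]) (hp : p ≠ 0) :
    ∑ i, p.rootMultiplicity (r i) ≤ p.natDegree := by
  have h1 : (∏ i, (X - C (r i)) ^ p.rootMultiplicity (r i)) ∣ p := by
    refine Finset.prod_dvd_of_coprime ?_ fun i _ => p.pow_rootMultiplicity_dvd (r i)
    intro i _ j _ hij
    refine IsCoprime.pow (isCoprime_X_sub_C_of_isUnit_sub ?_)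
    exact IsUnit.mk0 _ (sub_ne_zero.2 fun h => hij (hr h))
  have h2 := natDegree_le_of_dvd h1 hp
  rw [natDegree_prod_of_monic _ _ fun i _ => (monic_X_sub_C _).pow _] at h2
  simpa using h2

end Pool.Agent.MG.Two2
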