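import Pool.Agent.MG.Two2.Alg7

/-!
# Pure algebra part of the case `(2, 0)`: descent on the pole order
-/

open Polynomial

namespace Pool.Agent.MG.Two2

variable {K : Type} [Field K]

theorem qh_eval (t R : K) (ht : t ≠ 0) (q : Fin 3 → K) (p : MvPolynomial (Fin 3) K) :
    MvPolynomial.eval (qh t t⁻¹ t⁻¹ R q) p =
      MvPolynomial.eval q (MvPolynomial.bind₁ (tri (t⁻¹ ^ 4 * R) (-(t⁻¹ ^ 2 * R))
        (2 * t⁻¹ ^ 3 * R) R (-(t⁻¹ * R)) (t⁻¹ ^ 2 * R)) p) := by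
  have h1 := MvPolynomial.aeval_bind₁ (S := K) q (tri (t⁻¹ ^ 4 * R) (-(t⁻¹ ^ 2 * R))
        (2 * t⁻¹ ^ 3 * R) R (-(t⁻¹ * R)) (t⁻¹ ^ 2 * R)) p
  have ha : ∀ (f : Fin 3 → K) (p : MvPolynomial (Fin 3) K), MvPolynomial.aeval f p =
      MvPolynomial.eval f p := fun f p => by
    rw [← MvPolynomial.coe_aeval_eq_eval]
    rfl
  rw [ha, ha] at h1
  rw [h1]
  congr 2
  funext i
  fin_cases i
  · simp [qh, shq, tri]
    field_simp
    ring
  · simp [qh, shq, tri]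
    field_simp
    ring
  · simp [qh, shq, tri]
    field_simp
    ring

theorem lead_coeff_rel [Infinite K] (D : Dat K) (r : Fin 4 → K) (hr : Function.Injective r)
    (hr0 : ∀ i, r i ≠ 0) (w c : ℕ) (N N' : MvPolynomial (Fin 3) K[X][X]) (hN : KI D r w c N)
    (hN' : KI D (fun i => (r i)⁻¹) w c N') (m : Fin 3 →₀ ℕ)
    (hm : ∀ u ∈ (lead N').support, m 0 ≤ u 0 ∧ (u 0 = m 0 → m 1 ≤ u 1)) (t : K) (ht : t ≠ 0)
    (htr : ∀ i, t ≠ r i) :
    ((MvPolynomial.coeff m (lead N)).eval t) =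
      ((-1) ^ w * (∏ i, r i) ^ (2 * c) * t ^ (2 * w + 8 * c)) *
        ((MvPolynomial.coeff m (lead N')).eval t⁻¹ *
        ((t⁻¹ ^ 4 * (∏ i, r i)⁻¹) ^ m 0 * (-(t⁻¹ ^ 2 * (∏ i, r i)⁻¹)) ^ m 1 *
          (∏ i, r i)⁻¹ ^ m 2)) := by
  have h1 : MvPolynomial.map (evalRingHom t) (lead N) =
      MvPolynomial.C ((-1) ^ w * (∏ i, r i) ^ (2 * c) * t ^ (2 * w + 8 * c)) *
        MvPolynomial.bind₁ (tri (t⁻¹ ^ 4 * (∏ i, r i)⁻¹) (-(t⁻¹ ^ 2 * (∏ i, r i)⁻¹))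
        (2 * t⁻¹ ^ 3 * (∏ i, r i)⁻¹) (∏ i, r i)⁻¹ (-(t⁻¹ * (∏ i, r i)⁻¹))
        (t⁻¹ ^ 2 * (∏ i, r i)⁻¹)) (MvPolynomial.map (evalRingHom t⁻¹) (lead N')) := by
    refine MvPolynomial.funext fun q => ?_
    rw [map_mul, MvPolynomial.eval_C, ← qh_eval t _ ht]
    exact inv_lead D r hr hr0 w c N N' hN hN' t ht htr q
  have h2 := congrArg (MvPolynomial.coeff m) h1
  rw [MvPolynomial.coeff_map, MvPolynomial.coeff_C_mul, coeff_tri, MvPolynomial.coeff_map] at h2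
  · exact h2
  · intro u hu
    refine hm u ?_
    rw [MvPolynomial.mem_support_iff] at hu ⊢
    intro h
    rw [MvPolynomial.coeff_map, h, map_zero] at hu
    exact hu rfl

/-- A minimal index. -/
theorem exists_min (p : MvPolynomial (Fin 3) K[X]) (hp : p ≠ 0) :
    ∃ m ∈ p.support, ∀ u ∈ p.support, m 0 ≤ u 0 ∧ (u 0 = m 0 → m 1 ≤ u 1) := by
  classical
  have h0 : p.support.Nonempty := MvPolynomial.support_nonempty.2 hp
  obtain ⟨m₀, hm₀, h1⟩ := p.support.exists_min_image (fun u => u 0) h0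
  have h2 : (p.support.filter fun u => u 0 = m₀ 0).Nonempty :=
    ⟨m₀, Finset.mem_filter.2 ⟨hm₀, rfl⟩⟩
  obtain ⟨m, hm, h3⟩ := (p.support.filter fun u => u 0 = m₀ 0).exists_min_image (fun u => u 1) h2
  rw [Finset.mem_filter] at hm
  refine ⟨m, hm.1, fun u hu => ⟨?_, fun h => ?_⟩⟩
  · rw [hm.2]
    exact h1 u hu
  · exact h3 u (Finset.mem_filter.2 ⟨hu, by rw [h, hm.2]⟩)

theorem lead_eq_zero [Infinite K] (D : Dat K) (r : Fin 4 → K) (hr : Function.Injective r)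
    (hr0 : ∀ i, r i ≠ 0) (w c : ℕ) (N N' : MvPolynomial (Fin 3) K[X][X])
    (hN : KI D r (w + 1) c N) (hN' : KI D (fun i => (r i)⁻¹) (w + 1) c N') : lead N' = 0 := by
  by_contra h0
  obtain ⟨m, hm, hmin⟩ := exists_min (lead N') h0
  have hp' : MvPolynomial.coeff m (lead N') ≠ 0 := MvPolynomial.mem_support_iff.1 hm
  set p := MvPolynomial.coeff m (lead N) with hp
  set p' := MvPolynomial.coeff m (lead N') with hpp
  set R := ∏ i, r i with hR
  have hR0 : R ≠ 0 := Finset.prod_ne_zero_iff.2 fun i _ => hr0 i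
  set κ : K := (-1) ^ (w + 1) * R ^ (2 * c) * ((R⁻¹) ^ m 0 * (-R⁻¹) ^ m 1 * (R⁻¹) ^ m 2) with hκ
  have hκ0 : κ ≠ 0 := by
    have : R⁻¹ ≠ 0 := inv_ne_zero hR0
    have h2 : (-1 : K) ≠ 0 := by
      rw [neg_ne_zero]
      exact one_ne_zero
    exact mul_ne_zero (mul_ne_zero (pow_ne_zero _ h2) (pow_ne_zero _ hR0))
      (mul_ne_zero (mul_ne_zero (pow_ne_zero _ this) (pow_ne_zero _ (neg_ne_zero.2 this)))
        (pow_ne_zero _ this))
  have e1 : p * X ^ (4 * m 0 + 2 * m 1 + p'.natDegree) =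
      C κ * X ^ (2 * (w + 1) + 8 * c) * p'.reverse := by
    refine eq_of_infinite_eval_eq _ _ ?_
    have hfin : (Set.insert (0 : K) (Set.range r)).Finite := (Set.finite_range r).insert 0
    refine hfin.infinite_compl.mono fun t ht => ?_
    have ht0 : t ≠ 0 := fun h => ht (Or.inl h)
    have htr : ∀ i, t ≠ r i := fun i h => ht (Or.inr ⟨i, h.symm⟩)
    change eval t _ = eval t _
    have h1 := lead_coeff_rel D r hr hr0 (w + 1) c N N' hN hN' m hmin t ht0 htr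
    rw [← hp, ← hpp, ← hR] at h1
    have h2 : eval t⁻¹ p' = eval t p'.reverse * t⁻¹ ^ p'.natDegree := by
      let _ : Invertible t⁻¹ := invertibleOfNonzero (inv_ne_zero ht0)
      have h3 := eval₂_reverse_mul_pow (RingHom.id K) t⁻¹ p'
      rw [invOf_eq_inv, inv_inv] at h3
      rw [eval, ← h3]
      rfl
    rw [eval_mul, eval_mul, eval_mul, eval_C, eval_pow, eval_pow, eval_X, h1, h2, hκ]
    have h4 : t⁻¹ ^ (4 * m 0 + 2 * m 1 + p'.natDegree) * t ^ (4 * m 0 + 2 * m 1 + p'.natDegree) =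
        1 := by
      rw [← mul_pow, inv_mul_cancel₀ ht0, one_pow]
    have h5 : (t⁻¹ ^ 4 * R⁻¹) ^ m 0 * (-(t⁻¹ ^ 2 * R⁻¹)) ^ m 1 * t⁻¹ ^ p'.natDegree =
        (R⁻¹ ^ m 0 * (-R⁻¹) ^ m 1) * t⁻¹ ^ (4 * m 0 + 2 * m 1 + p'.natDegree) := by
      rw [← mul_neg, mul_pow, mul_pow, ← pow_mul, ← pow_mul, pow_add, pow_add]
      ring
    linear_combination ((-1) ^ (w + 1) * R ^ (2 * c) * t ^ (2 * (w + 1) + 8 * c) *
      eval t p'.reverse * R⁻¹ ^ m 2) * (t ^ (4 * m 0 + 2 * m 1 + p'.natDegree) * h5 +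
      (R⁻¹ ^ m 0 * (-R⁻¹) ^ m 1) * h4)
  have hrev : p'.reverse ≠ 0 := by
    rw [Ne, reverse_eq_zero]
    exact hp'
  have hp0 : p ≠ 0 := by
    intro h
    rw [h, zero_mul] at e1
    exact mul_ne_zero (mul_ne_zero (C_ne_zero.2 hκ0) (pow_ne_zero _ X_ne_zero)) hrev e1.symm
  have e2 := congrArg natDegree e1
  rw [natDegree_mul hp0 (pow_ne_zero _ X_ne_zero), natDegree_X_pow,
    natDegree_mul (mul_ne_zero (C_ne_zero.2 hκ0) (pow_ne_zero _ X_ne_zero)) hrev,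
    natDegree_C_mul hκ0, natDegree_X_pow] at e2
  have e3 := reverse_natDegree_le p'
  have e4 := sum_mult r hr p hp0
  rw [Fin.sum_univ_four] at e4
  have f0 := reg_mult D r hr (w + 1) c N hN 0 m hp0
  have f1 := reg_mult D r hr (w + 1) c N hN 1 m hp0
  have f2 := reg_mult D r hr (w + 1) c N hN 2 m hp0
  have f3 := reg_mult D r hr (w + 1) c N hN 3 m hp0
  rw [← hp] at f0 f1 f2 f3
  omega

theorem KI_raise (D : Dat K) (r : Fin 4 → K) (w c a b : ℕ) (N : MvPolynomial (Fin 3) K[X][X])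
    (hN : KI D r w c N) : ∃ N', KI D r (w + a) (c + b) N' := by
  refine ⟨N * MvPolynomial.C (X ^ a * DD r (C X : K[X][X]) X ^ b), ?_⟩
  intro B _ _ t δ q h1 h2
  rw [map_mul, ← hN B t δ q h1 h2, evN_C, map_mul, map_pow, map_pow, DD_map, ev_X, ev_C, aeval_X]
  ring

theorem KI_lower (D : Dat K) (r : Fin 4 → K) (w c : ℕ) (N : MvPolynomial (Fin 3) K[X][X])
    (hN : KI D r (w + 1) c N) (h0 : lead N = 0) : ∃ N', KI D r w c N' := by
  have h1 : (MvPolynomial.C (X : K[X][X]) : MvPolynomial (Fin 3) K[X][X]) ∣ N := by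
    rw [MvPolynomial.C_dvd_iff_dvd_coeff]
    intro m
    have := congrArg (MvPolynomial.coeff m) h0
    rw [lead, MvPolynomial.coeff_map, MvPolynomial.coeff_zero] at this
    rw [X_dvd_iff, coeff_zero_eq_eval_zero]
    exact this
  obtain ⟨N', rfl⟩ := h1
  refine ⟨N', ?_⟩
  intro B _ _ t δ q h1 h2
  have h3 := hN B t δ q h1 h2
  rw [map_mul, evN_C, ev_X] at h3
  obtain ⟨u, rfl⟩ := h1
  have h4 : (u : B) * (D.T (rt r t (u : B)) q * ((u : B) ^ w * DD r t (u : B) ^ c)) =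
      u * evN t (u : B) q N' := by
    rw [← h3]
    ring
  exact (Units.mul_right_inj u).1 h4

/-- There is no pole when two roots collide. -/
theorem KI_zero [Infinite K] (D : Dat K) (r : Fin 4 → K) (hr : Function.Injective r)
    (hr0 : ∀ i, r i ≠ 0) : ∃ (c : ℕ) (N : MvPolynomial (Fin 3) K[X][X]), KI D r 0 c N := by
  have hr' : Function.Injective fun i => (r i)⁻¹ := fun i j h => hr (inv_inj.1 h)
  have hr0' : ∀ i, (r i)⁻¹ ≠ 0 := fun i => inv_ne_zero (hr0 i)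
  have hrr : (fun i => ((r i)⁻¹)⁻¹) = r := by simp
  obtain ⟨n, N, hN⟩ := KI_exists D r hr
  obtain ⟨n', N', hN'⟩ := KI_exists D _ hr'
  obtain ⟨M, hM⟩ := KI_raise D r n n n' n' N hN
  obtain ⟨M', hM'⟩ := KI_raise D _ n' n' n n N' hN'
  rw [add_comm n' n] at hM'
  suffices H : ∀ (w c : ℕ) (N N' : MvPolynomial (Fin 3) K[X][X]), KI D r w c N →
      KI D (fun i => (r i)⁻¹) w c N' → ∃ N₀, KI D r 0 c N₀ from
    ⟨n + n', H _ _ M M' hM hM'⟩
  intro w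
  induction w with
  | zero => exact fun c N _ hN _ => ⟨N, hN⟩
  | succ w ih =>
    intro c N N' hN hN'
    have h1 : lead N' = 0 := lead_eq_zero D r hr hr0 w c N N' hN hN'
    have h2 : lead N = 0 := by
      refine lead_eq_zero D (fun i => (r i)⁻¹) hr' hr0' w c N' N hN' ?_
      rw [hrr]
      exact hN
    obtain ⟨N₁, hN₁⟩ := KI_lower D r w c N hN h2
    obtain ⟨N₂, hN₂⟩ := KI_lower D _ w c N' hN' h1
    exact ih c N₁ N₂ hN₁ hN₂

end Pool.Agent.MG.Two2
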