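import Pool.Agent.MG.Two2.Alg8

/-!
# Pure algebra part of the case `(2, 0)`: one root moves, the other five are fixed
-/

open Polynomial

namespace Pool.Agent.MG.Two2

variable {K : Type} [Field K]

section ev

variable {B B' : Type} [CommRing B] [CommRing B'] [Algebra K B] [Algebra K B']

/-- The roots `x, r_i`. -/
def rf (r : Fin 5 → K) (x : B) : Fin 6 → B :=
  Fin.cons x fun i : Fin 5 => algebraMap K B (r i)

/-- The product of the `x - r_i`. -/
def EE (r : Fin 5 → K) (x : B) : B := ∏ i, (x - algebraMap K B (r i))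

theorem EE_map (φ : B →ₐ[K] B') (r : Fin 5 → K) (x : B) : φ (EE r x) = EE r (φ x) := by
  simp [EE, map_prod]

theorem rf_map (φ : B →ₐ[K] B') (r : Fin 5 → K) (x : B) :
    (fun i => φ (rf r x i)) = rf r (φ x) := by
  unfold rf
  rw [map_cons]
  simp

theorem dis_rf (r : Fin 5 → K) (hr : Function.Injective r) (x : B) (hE : IsUnit (EE r x)) :
    Dis (rf r x) := by
  have h1 : ∀ i, IsUnit (x - algebraMap K B (r i)) := fun i =>
    isUnit_of_dvd_unit (Finset.dvd_prod_of_mem (fun i => (x - algebraMap K B (r i)))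
      (Finset.mem_univ i)) hE
  refine dis_cons h1 fun i j hij => ?_
  rw [← map_sub]
  refine (IsUnit.mk0 _ ?_).map (algebraMap K B)
  rw [sub_ne_zero]
  exact fun e => hij (hr e)

/-- Evaluation at `x` and `q`. -/
noncomputable def evM (x : B) (q : Fin 3 → B) : MvPolynomial (Fin 3) K[X] →+* B :=
  MvPolynomial.eval₂Hom ((aeval x : K[X] →ₐ[K] B) : K[X] →+* B) q

theorem evM_map (φ : B →ₐ[K] B') (x : B) (q : Fin 3 → B) (N : MvPolynomial (Fin 3) K[X]) :
    φ (evM x q N) = evM (φ x) (fun i => φ (q i)) N := by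
  have : (φ : B →+* B').comp (evM x q) = evM (K := K) (φ x) (fun i => φ (q i)) := by
    refine MvPolynomial.ringHom_ext (fun p => ?_) fun i => ?_
    · simp [evM, aeval_algHom_apply]
    · simp [evM]
  exact DFunLike.congr_fun this N

theorem evM_C (x : B) (q : Fin 3 → B) (p : K[X]) : evM x q (MvPolynomial.C p) = aeval x p := by
  simp [evM]

end ev

/-- The polynomial `N` is `E ^ n * S`. -/
def KJ (D : Dat K) (r : Fin 5 → K) (n : ℕ) (N : MvPolynomial (Fin 3) K[X]) : Prop :=
  ∀ (B : Type) [CommRing B] [Algebra K B] (x : B) (q : Fin 3 → B), IsUnit (EE r x) →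
    D.T (rf r x) q * EE r x ^ n = evM x q N

attribute [local instance] MvPolynomial.algebraMvPolynomial in
theorem KJ_exists (D : Dat K) (r : Fin 5 → K) (hr : Function.Injective r) :
    ∃ (n : ℕ) (N : MvPolynomial (Fin 3) K[X]), KJ D r n N := by
  let h : K[X] := EE r X
  let L := Localization.Away h
  let M := MvPolynomial (Fin 3) L
  let ι : K[X] →ₐ[K] L := IsScalarTower.toAlgHom K K[X] L
  let jC : L →ₐ[K] M := IsScalarTower.toAlgHom K L M
  have hu : IsUnit (ι h) := IsLocalization.Away.algebraMap_isUnit h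
  let x₀ : M := jC (ι X)
  let T₀ : M := D.T (rf r x₀) MvPolynomial.X
  have hE : IsUnit (EE r x₀) := by
    have : EE r x₀ = jC (ι h) := by
      simp only [h, x₀, EE_map]
    rw [this]
    exact hu.map jC
  have hdis := dis_rf r hr x₀ hE
  obtain ⟨⟨N, s⟩, hs⟩ := IsLocalization.surj (M := (Submonoid.powers h).map
    (MvPolynomial.C (σ := Fin 3))) T₀
  obtain ⟨_, ⟨_, ⟨n, rfl⟩, rfl⟩⟩ := s
  refine ⟨n, N, ?_⟩
  intro B _ _ x q h1
  have h3 : IsUnit (aeval (R := K) x h) := by
    have : aeval (R := K) x h = EE r x := by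
      simp only [h, EE_map, aeval_X]
    rw [this]
    exact h1
  let ψ₀ : L →ₐ[K] B := IsLocalization.liftAlgHom (M := Submonoid.powers h) (f := aeval (R := K) x)
    (by
      rintro ⟨_, ⟨m, rfl⟩⟩
      rw [map_pow]
      exact h3.pow m)
  have hψ₀ : ∀ p, ψ₀ (ι p) = aeval x p := fun p => IsLocalization.lift_eq _ _
  let ψ : M →ₐ[K] B :=
    { MvPolynomial.eval₂Hom (ψ₀ : L →+* B) q with
      commutes' := fun c => by
        change MvPolynomial.eval₂Hom (ψ₀ : L →+* B) q (MvPolynomial.C (algebraMap K L c)) = _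
        simp }
  have hψC : ∀ y, ψ (jC y) = ψ₀ y := fun y => by
    change MvPolynomial.eval₂Hom (ψ₀ : L →+* B) q (MvPolynomial.C y) = _
    simp
  have hψX : ∀ i, ψ (MvPolynomial.X i) = q i := fun i => by
    change MvPolynomial.eval₂Hom (ψ₀ : L →+* B) q (MvPolynomial.X i) = _
    simp
  have e1 : ψ T₀ = D.T (rf r x) q := by
    rw [← T_nat D ψ _ hdis, rf_map]
    simp only [hψX, x₀, hψC, hψ₀, aeval_X]
  have e2 : ψ (algebraMap (MvPolynomial (Fin 3) K[X]) M N) = evM x q N := by
    rw [MvPolynomial.algebraMap_def]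
    change MvPolynomial.eval₂Hom (ψ₀ : L →+* B) q (MvPolynomial.map (algebraMap K[X] L) N) = _
    rw [MvPolynomial.coe_eval₂Hom, MvPolynomial.eval₂_map]
    have : ((ψ₀ : L →+* B).comp (algebraMap K[X] L)) = ((aeval x : K[X] →ₐ[K] B) :
        K[X] →+* B) := RingHom.ext hψ₀
    rw [this]
    rfl
  rw [← e1, ← e2, ← hs, map_mul]
  congr 1
  have e3 : algebraMap (MvPolynomial (Fin 3) K[X]) M (MvPolynomial.C (h ^ n)) = jC (ι (h ^ n)) := by
    rw [MvPolynomial.algebraMap_def, MvPolynomial.map_C]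
    rfl
  change _ = ψ (algebraMap (MvPolynomial (Fin 3) K[X]) M (MvPolynomial.C (h ^ n)))
  rw [e3, hψC, hψ₀, map_pow]
  simp only [h, EE_map, aeval_X]

end Pool.Agent.MG.Two2
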