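import Pool.Agent.MG.Two2.Alg
import Pool.Agent.MG.Two2.AlgDefsN

/-!
# Pure algebra part of the case `(2, n)`: data over normal domains, products of linear factors
-/

open Polynomial

namespace Pool.Agent.MG.Two2.N

variable {k : Type} [Field k] (D : DatN k)

/-- The value at the polynomial with roots `a`. -/
noncomputable def T {B : Type} [CommRing B] [IsDomain B] [IsIntegrallyClosed B] [Algebra k B]
    {n : ℕ} (a : Fin n → B) (q : Fin 3 → B) : B := D.S B (P6 a) (Qp q)

section

variable {B B' : Type} [CommRing B] [IsDomain B] [IsIntegrallyClosed B] [CommRing B']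
  [IsDomain B'] [IsIntegrallyClosed B'] [Algebra k B] [Algebra k B']

theorem T_nat (φ : B →ₐ[k] B') (a : Fin 6 → B) (h : Dis a) (q : Fin 3 → B) :
    T D (fun i => φ (a i)) (fun i => φ (q i)) = φ (T D a q) := by
  unfold T
  rw [← D.nat B B' φ _ _ (good_P6 rfl a h) (natDegree_Qp q), P6_map, Qp_map]
  rfl

theorem T_congr {a b : Fin 6 → B} (h : P6 a = P6 b) (q : Fin 3 → B) : T D a q = T D b q := by
  unfold T
  rw [h]

theorem T_trans (a : Fin 6 → B) (h : Dis a) (t : B) (q : Fin 3 → B) :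
    T D (fun i => a i - t) (shq t q) = T D a q := by
  unfold T
  rw [← D.trans B t _ _ (good_P6 rfl a h) (natDegree_Qp q), P6_comp, Qp_comp]

end

theorem scal_field {K : Type} [Field K] [Algebra k K] (c : K) (hc : c ≠ 0) (f q : K[X])
    (hf : Good f) (hf' : Good (C c * f)) (hq : q.natDegree ≤ 2) :
    D.S K (C c * f) (C c * q) = D.S K f q := by
  let L := AlgebraicClosure K
  let φ : K →ₐ[k] L := IsScalarTower.toAlgHom k K L
  have hφ : Function.Injective φ := (algebraMap K L).injective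
  apply hφ
  obtain ⟨v, hv⟩ := IsAlgClosed.exists_pow_nat_eq (algebraMap K L c) (n := 2) (by norm_num)
  have hv0 : v ≠ 0 := by
    rintro rfl
    rw [zero_pow two_ne_zero] at hv
    exact hc ((algebraMap K L).injective (by rw [← hv, map_zero]))
  have hq' : (C c * q).natDegree ≤ 2 := (natDegree_C_mul_le _ _).trans hq
  have hfL : Good (f.map (φ : K →+* L)) := by
    refine ⟨(natDegree_map_le).trans hf.deg, ?_, ?_⟩
    · have := hf.cop.map (mapRingHom (φ : K →+* L))
      rw [coe_mapRingHom, ← derivative_map] at this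
      exact this
    · have := hf.cop'.map (mapRingHom (φ : K →+* L))
      rw [coe_mapRingHom, ← derivative_map, ← reflect_map] at this
      exact this
  have hqL : (q.map (φ : K →+* L)).natDegree ≤ 2 := (natDegree_map_le).trans hq
  have e := D.scal L v _ _ (IsUnit.mk0 v hv0) hfL hqL
  rw [← D.nat K L φ _ _ hf' hq', ← D.nat K L φ _ _ hf hq, ← e]
  rw [Polynomial.map_mul, Polynomial.map_mul, map_C]
  have e2 : (φ : K →+* L) c = v ^ 2 := by rw [hv]; rfl
  rw [e2]

theorem T_inv {K : Type} [Field K] [Algebra k K] (a : Fin 6 → K) (h : Dis a)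
    (h0 : ∀ i, a i ≠ 0) (q : Fin 3 → K) :
    T D (fun i => (a i)⁻¹) (fun i => (∏ j, a j)⁻¹ * ![q 2, q 1, q 0] i) = T D a q := by
  have hR : (∏ j, a j) ≠ 0 := Finset.prod_ne_zero_iff.2 fun i _ => h0 i
  have hd : Dis (fun i => (a i)⁻¹) := by
    intro i j hij
    refine IsUnit.mk0 _ ?_
    rw [Ne, sub_eq_zero, inv_inj]
    exact fun e => (h i j hij).ne_zero (sub_eq_zero.2 e)
  have hg := good_P6 rfl a h
  have e1 : (P6 a).reflect 6 = C (∏ j, a j) * P6 (fun i => (a i)⁻¹) := by
    rw [P6_reflect, P6, map_prod, ← Finset.prod_mul_distrib]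
    have : ∀ i, (1 - C (a i) * X : K[X]) = (-1) * (C (a i) * (X - C (a i)⁻¹)) := by
      intro i
      have h2 : (C (a i) * C (a i)⁻¹ : K[X]) = 1 := by
        rw [← C_mul, mul_inv_cancel₀ (h0 i), C_1]
      linear_combination -h2
    simp_rw [this]
    rw [Finset.prod_mul_distrib, Finset.prod_const, Finset.card_univ, Fintype.card_fin]
    norm_num
  have hgr : Good ((P6 a).reflect 6) := hg.reflectK
  have e2 := D.inv K _ _ hg (natDegree_Qp q)
  unfold T
  rw [← e2, e1, Qp_reflect, ← Qp_smul]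
  rw [e1] at hgr
  rw [← scal_field D _ hR _ _ (good_P6 rfl _ hd) hgr]
  · congr 1
    rw [← mul_assoc, ← C_mul, mul_inv_cancel₀ hR, C_1, one_mul]
  · exact (natDegree_C_mul_le _ _).trans (natDegree_Qp _)

variable {K : Type} [Field K]

/-- `evN` as a homomorphism of algebras. -/
noncomputable def evNA {B : Type} [CommRing B] [Algebra K B] (t δ : B) (q : Fin 3 → B) :
    MvPolynomial (Fin 3) K[X][X] →ₐ[K] B :=
  { evN t δ q with
    commutes' := fun c => by
      change evN t δ q (MvPolynomial.C (algebraMap K K[X][X] c)) = _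
      rw [evN_C, AlgHom.commutes] }

/-- `evM` as a homomorphism of algebras. -/
noncomputable def evMA {B : Type} [CommRing B] [Algebra K B] (x : B) (q : Fin 3 → B) :
    MvPolynomial (Fin 3) K[X] →ₐ[K] B :=
  { evM x q with
    commutes' := fun c => by
      change evM x q (MvPolynomial.C (algebraMap K K[X] c)) = _
      rw [evM_C, AlgHom.commutes] }

/-- The polynomial `N` is `δ ^ w * D ^ c * S`. -/
def KI (D : DatN K) (r : Fin 4 → K) (w c : ℕ) (N : MvPolynomial (Fin 3) K[X][X]) : Prop :=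
  ∀ (B : Type) [CommRing B] [IsDomain B] [IsIntegrallyClosed B] [Algebra K B] (t δ : B)
    (q : Fin 3 → B), IsUnit δ →
    IsUnit (DD r t δ) → T D (rt r t δ) q * (δ ^ w * DD r t δ ^ c) = evN t δ q N

/-- The polynomial `N` is `E ^ n * S`. -/
def KJ (D : DatN K) (r : Fin 5 → K) (n : ℕ) (N : MvPolynomial (Fin 3) K[X]) : Prop :=
  ∀ (B : Type) [CommRing B] [IsDomain B] [IsIntegrallyClosed B] [Algebra K B] (x : B)
    (q : Fin 3 → B), IsUnit (EE r x) →
    T D (rf r x) q * EE r x ^ n = evM x q N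

theorem DD_ne (r : Fin 4 → K) : (X * DD r (C X : K[X][X]) X) ≠ 0 := by
  refine mul_ne_zero X_ne_zero ?_
  unfold DD
  refine Finset.prod_ne_zero_iff.2 fun i _ => ?_
  have e1 : (algebraMap K K[X][X] (r i) - C X : K[X][X]) = C (C (r i) - X) := by
    rw [C_sub]
    rfl
  have e2 : (C (r i) - X : K[X]) ≠ 0 := by
    intro h
    have : (X - C (r i) : K[X]) = 0 := by
      rw [← neg_sub, h, neg_zero]
    exact X_sub_C_ne_zero (r i) this
  rw [e1]
  refine mul_ne_zero (C_ne_zero.2 e2) ?_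
  intro h
  have : (X - C (C (r i) - X) : K[X][X]) = 0 := by
    rw [← neg_sub, h, neg_zero]
  exact X_sub_C_ne_zero _ this

theorem exists_loc (K M : Type) [Field K] [CommRing M] [IsDomain M] [IsIntegrallyClosed M]
    [Algebra K M] (h : M) (hh : h ≠ 0) : ∃ (L : Type) (_ : CommRing L) (_ : IsDomain L)
      (_ : IsIntegrallyClosed L) (_ : Algebra M L) (_ : Algebra K L) (_ : IsScalarTower K M L),
      IsLocalization.Away h L := by
  have hM : Submonoid.powers h ≤ nonZeroDivisors M :=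
    powers_le_nonZeroDivisors_of_noZeroDivisors hh
  have h1 : IsDomain (Localization.Away h) := IsLocalization.isDomain_localization hM
  have h2 : IsIntegrallyClosed (Localization.Away h) :=
    isIntegrallyClosed_of_isLocalization (Localization.Away h) (Submonoid.powers h) hM
  exact ⟨Localization.Away h, inferInstance, h1, h2, inferInstance, inferInstance, inferInstance,
    inferInstance⟩

theorem KI_exists (D : DatN K) (r : Fin 4 → K) (hr : Function.Injective r) :
    ∃ (n : ℕ) (N : MvPolynomial (Fin 3) K[X][X]), KI D r n n N := by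
  let M := MvPolynomial (Fin 3) K[X][X]
  let jC : K[X][X] →ₐ[K] M := IsScalarTower.toAlgHom K K[X][X] M
  obtain ⟨h, hh⟩ : ∃ h : M, h = jC (X * DD r (C X : K[X][X]) X) := ⟨_, rfl⟩
  have hh0 : h ≠ 0 := by
    intro h0
    refine DD_ne r (MvPolynomial.C_injective (Fin 3) K[X][X] ?_)
    rw [map_zero]
    rw [h0] at hh
    exact hh.symm
  obtain ⟨L, _, _, _, _, _, _, _⟩ := exists_loc K M h hh0
  let ι : M →ₐ[K] L := IsScalarTower.toAlgHom K M L
  have hu : IsUnit (ι h) := IsLocalization.Away.algebraMap_isUnit h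
  let jL : K[X][X] →ₐ[K] L := ι.comp jC
  let t₀ : L := jL (C X)
  let δ₀ : L := jL X
  let T₀ : L := T D (rt r t₀ δ₀) fun i => ι (MvPolynomial.X i)
  have hu2 : IsUnit (δ₀ * DD r t₀ δ₀) := by
    have : δ₀ * DD r t₀ δ₀ = ι h := by
      rw [hh]
      change _ = jL (X * DD r (C X : K[X][X]) X)
      simp only [t₀, δ₀, map_mul, DD_map]
    rw [this]
    exact hu
  have hδ : IsUnit δ₀ := isUnit_of_mul_isUnit_left hu2
  have hD : IsUnit (DD r t₀ δ₀) := isUnit_of_mul_isUnit_right hu2
  have hdis := dis_rt r hr t₀ δ₀ hδ hD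
  obtain ⟨n, N, hs⟩ := IsLocalization.Away.surj h T₀
  refine ⟨n, N, ?_⟩
  intro B _ _ _ _ t δ q h1 h2
  let θ : M →ₐ[K] B := evNA (K := K) t δ q
  have hC : ∀ p : K[X][X], θ (jC p) = ev t δ p := fun p => evN_C t δ q p
  have hh2 : θ h = δ * DD r t δ := by
    rw [hh, hC]
    simp only [map_mul, DD_map, ev_X, ev_C, aeval_X]
  have h3 : IsUnit (θ h) := by
    rw [hh2]
    exact h1.mul h2
  let ψ : L →ₐ[K] B := IsLocalization.liftAlgHom (M := Submonoid.powers h)
    (f := θ)
    (by
      rintro ⟨_, ⟨m, rfl⟩⟩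
      rw [map_pow]
      exact h3.pow m)
  have hψ : ∀ p, ψ (ι p) = θ p := fun p => IsLocalization.lift_eq _ _
  have hX : ∀ i, θ (MvPolynomial.X i) = q i := fun i => by
    change evN t δ q (MvPolynomial.X i) = q i
    simp [evN]
  have hL : ∀ p, ψ (jL p) = ev t δ p := fun p => (hψ (jC p)).trans (hC p)
  have e1 : ψ T₀ = T D (rt r t δ) q := by
    rw [← T_nat D ψ _ hdis, rt_map]
    simp only [t₀, δ₀, hL, hψ, hX, ev_X, ev_C, aeval_X]
  have e2 : ψ (ι N) = evN t δ q N := hψ N
  have e3 := congrArg ψ hs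
  change ψ (T₀ * ι h ^ n) = ψ (ι N) at e3
  rw [map_mul, map_pow, e1, e2, hψ, hh2, mul_pow] at e3
  exact e3

theorem EE_ne (r : Fin 5 → K) : (EE r X : K[X]) ≠ 0 := by
  unfold EE
  exact Finset.prod_ne_zero_iff.2 fun l _ => X_sub_C_ne_zero _

theorem KJ_exists (D : DatN K) (r : Fin 5 → K) (hr : Function.Injective r) :
    ∃ (n : ℕ) (N : MvPolynomial (Fin 3) K[X]), KJ D r n N := by
  let M := MvPolynomial (Fin 3) K[X]
  let jC : K[X] →ₐ[K] M := IsScalarTower.toAlgHom K K[X] M
  obtain ⟨h, hh⟩ : ∃ h : M, h = jC (EE r X : K[X]) := ⟨_, rfl⟩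
  have hh0 : h ≠ 0 := by
    intro h0
    refine EE_ne r (MvPolynomial.C_injective (Fin 3) K[X] ?_)
    rw [map_zero]
    rw [h0] at hh
    exact hh.symm
  obtain ⟨L, _, _, _, _, _, _, _⟩ := exists_loc K M h hh0
  let ι : M →ₐ[K] L := IsScalarTower.toAlgHom K M L
  have hu : IsUnit (ι h) := IsLocalization.Away.algebraMap_isUnit h
  let x₀ : L := ι (jC X)
  let T₀ : L := T D (rf r x₀) fun i => ι (MvPolynomial.X i)
  have hE : IsUnit (EE r x₀) := by
    have : EE r x₀ = ι h := by
      rw [hh]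
      simp only [x₀, EE_map]
    rw [this]
    exact hu
  have hdis := dis_rf r hr x₀ hE
  obtain ⟨n, N, hs⟩ := IsLocalization.Away.surj h T₀
  refine ⟨n, N, ?_⟩
  intro B _ _ _ _ x q h1
  let θ : M →ₐ[K] B := evMA (K := K) x q
  have hC : ∀ p : K[X], θ (jC p) = aeval x p := fun p => evM_C x q p
  have hh2 : θ h = EE r x := by
    rw [hh, hC]
    simp only [EE_map, aeval_X]
  have h3 : IsUnit (θ h) := by
    rw [hh2]
    exact h1
  let ψ : L →ₐ[K] B := IsLocalization.liftAlgHom (M := Submonoid.powers h)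
    (f := θ)
    (by
      rintro ⟨_, ⟨m, rfl⟩⟩
      rw [map_pow]
      exact h3.pow m)
  have hψ : ∀ p, ψ (ι p) = θ p := fun p => IsLocalization.lift_eq _ _
  have hX : ∀ i, θ (MvPolynomial.X i) = q i := fun i => by
    change evM x q (MvPolynomial.X i) = q i
    simp [evM]
  have e1 : ψ T₀ = T D (rf r x) q := by
    rw [← T_nat D ψ _ hdis, rf_map]
    simp only [x₀, hψ, hC, hX, aeval_X]
  have e2 : ψ (ι N) = evM x q N := hψ N
  have e3 := congrArg ψ hs
  change ψ (T₀ * ι h ^ n) = ψ (ι N) at e3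
  rw [map_mul, map_pow, e1, e2, hψ, hh2] at e3
  exact e3

end Pool.Agent.MG.Two2.N
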