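import Pool.Agent.MG.Two2.AlgN1

/-!
# Pure algebra part of the case `(2, n)`: data over normal domains, the order of the pole
-/

open Polynomial

namespace Pool.Agent.MG.Two2.N

variable {K : Type} [Field K]

section fieldps

variable {F : Type} [Field F] [Algebra K F]

/-- The order of vanishing of `N` when three roots collide, over power series. -/
theorem reg_ps (D : DatN K) (r : Fin 4 → K) (hr : Function.Injective r) (w c : ℕ)
    (N : MvPolynomial (Fin 3) K[X][X]) (hN : KI D r w c N) (i : Fin 4) (d : F) (hd : d ≠ 0)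
    (hd1 : d + 1 ≠ 0) (e : Fin 3 → PowerSeries F) :
    (PowerSeries.X : PowerSeries F) ^ (2 * w + 4 * c) ∣
      evN (algebraMap K (PowerSeries F) (r i) + PowerSeries.X ^ 2)
        (PowerSeries.X ^ 2 * PowerSeries.C d)
        ![PowerSeries.X ^ 2 * e 0, PowerSeries.X * e 1, e 2] N := by
  let P := PowerSeries F
  let Q := FractionRing P
  let φ : P →ₐ[K] Q := IsScalarTower.toAlgHom K P Q
  have hφ : Function.Injective φ := IsFractionRing.injective P Q
  let s : P := PowerSeries.X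
  let t : P := algebraMap K P (r i) + s ^ 2
  let δ : P := s ^ 2 * PowerSeries.C d
  let q : Fin 3 → P := ![s ^ 2 * e 0, s * e 1, e 2]
  let ρ : Fin 3 → P := ![0, PowerSeries.C d, -1]
  let r' : Fin 3 → P := fun j => algebraMap K P (r (i.succAbove j)) - t
  have hs : s ≠ 0 := PowerSeries.X_ne_zero
  have hsc : PowerSeries.constantCoeff s = 0 := PowerSeries.constantCoeff_X
  have hC : ∀ x : F, x ≠ 0 → IsUnit (PowerSeries.C x : P) := fun x hx =>
    (IsUnit.mk0 x hx).map PowerSeries.C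
  have hK : ∀ x : K, x ≠ 0 → IsUnit (algebraMap K P x) := fun x hx =>
    (IsUnit.mk0 x hx).map (algebraMap K P)
  have hne : ∀ j, r (i.succAbove j) - r i ≠ 0 := fun j =>
    sub_ne_zero.2 fun h => Fin.succAbove_ne i j (hr h)
  have hcc : ∀ x : K, PowerSeries.constantCoeff (algebraMap K P x) = algebraMap K F x := fun x => by
    rw [alg_ps]
    simp
  have hunit : ∀ j (x : P), IsUnit (r' j - s ^ 2 * x) := by
    intro j x
    rw [PowerSeries.isUnit_iff_constantCoeff]
    have : PowerSeries.constantCoeff (r' j - s ^ 2 * x) =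
        algebraMap K F (r (i.succAbove j) - r i) := by
      simp only [r', t, map_sub, map_add, map_mul, map_pow, hsc, hcc]
      ring
    rw [this]
    exact (IsUnit.mk0 _ (hne j)).map (algebraMap K F)
  have hr'u : ∀ j, IsUnit (r' j) := fun j => by
    have := hunit j 0
    rwa [mul_zero, sub_zero] at this
  obtain ⟨b, hb⟩ := D.reg P Q φ hφ s ρ r' e hs
    (by
      have h1 : IsUnit (PowerSeries.C d : P) := hC d hd
      have h2 : IsUnit (PowerSeries.C d + 1 : P) := by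
        have := hC _ hd1
        rwa [map_add, map_one] at this
      intro a b hab
      fin_cases a <;> fin_cases b
      · exact absurd rfl hab
      · change IsUnit ((0 : P) - PowerSeries.C d)
        rw [zero_sub]
        exact h1.neg
      · change IsUnit ((0 : P) - (-1))
        rw [zero_sub, neg_neg]
        exact isUnit_one
      · change IsUnit ((PowerSeries.C d : P) - 0)
        rw [sub_zero]
        exact h1
      · exact absurd rfl hab
      · change IsUnit ((PowerSeries.C d : P) - (-1))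
        rw [sub_neg_eq_add]
        exact h2
      · change IsUnit ((-1 : P) - 0)
        rw [sub_zero]
        exact isUnit_one.neg
      · change IsUnit ((-1 : P) - PowerSeries.C d)
        have : (-1 : P) - PowerSeries.C d = -(PowerSeries.C d + 1) := by ring
        rw [this]
        exact h2.neg
      · exact absurd rfl hab)
    (by
      intro a b hab
      have : r' a - r' b = algebraMap K P (r (i.succAbove a) - r (i.succAbove b)) := by
        simp only [r', map_sub]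
        ring
      rw [this]
      refine hK _ (sub_ne_zero.2 fun h => hab ?_)
      exact Fin.succAbove_right_injective (hr h))
    hr'u (fun a j => hunit j _)
  have hroots : ((∏ i, (X - C (s ^ 2 * ρ i))) * ∏ j, (X - C (r' j)) : P[X]) = P6 (rt r t δ) := by
    rw [rt, P6_cons, P6_cons, P6, Fin.prod_univ_succAbove _ i, Fin.prod_univ_three]
    have h1 : algebraMap K P (r i) - t = s ^ 2 * ρ 2 := by
      change algebraMap K P (r i) - (algebraMap K P (r i) + s ^ 2) = s ^ 2 * (-1)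
      ring
    have h0 : (0 : P) = s ^ 2 * ρ 0 := by
      change (0 : P) = s ^ 2 * 0
      rw [mul_zero]
    have h2 : δ = s ^ 2 * ρ 1 := rfl
    rw [h1, ← h0, ← h2]
    simp only [r', mul_assoc]
  have hq : (C (s ^ 2 * e 0) + C (s * e 1) * X + C (e 2) * X ^ 2 : P[X]) = Qp q := rfl
  rw [hroots, hq, P6_map, Qp_map] at hb
  have hrt : (fun i => (φ : P →+* Q) (rt r t δ i)) = rt r (φ t) (φ δ) := rt_map φ r t δ
  rw [hrt] at hb
  have hδ0 : δ ≠ 0 := mul_ne_zero (pow_ne_zero _ hs) (hC d hd).ne_zero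
  have hfac : (algebraMap K P (r i) - t) * (algebraMap K P (r i) - t - δ) =
      s ^ 4 * (PowerSeries.C d + 1) := by
    simp only [t, δ]
    ring
  have hD0 : DD r t δ ≠ 0 := by
    unfold DD
    refine Finset.prod_ne_zero_iff.2 fun l _ => ?_
    by_cases hl : l = i
    · rw [hl, hfac]
      refine mul_ne_zero (pow_ne_zero _ hs) ?_
      have := (hC _ hd1).ne_zero
      rwa [map_add, map_one] at this
    · obtain ⟨j, rfl⟩ := Fin.exists_succAbove_eq hl
      refine mul_ne_zero (hr'u j).ne_zero ?_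
      exact (hunit j (PowerSeries.C d)).ne_zero
  have hφ0 : ∀ x : P, x ≠ 0 → φ x ≠ 0 := fun x hx h => hx (hφ (by rw [h, map_zero]))
  have key := hN Q (φ t) (φ δ) (fun i => φ (q i)) (IsUnit.mk0 _ (hφ0 _ hδ0))
    (by rw [← DD_map]; exact IsUnit.mk0 _ (hφ0 _ hD0))
  have hT : T D (rt r (φ t) (φ δ)) (fun i => φ (q i)) = φ b := hb
  rw [hT, ← DD_map, ← map_pow, ← map_pow, ← map_mul, ← map_mul, ← evN_map] at key
  have key2 := hφ key
  change s ^ (2 * w + 4 * c) ∣ evN t δ q N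
  rw [← key2, pow_add, pow_mul, pow_mul]
  refine Dvd.dvd.mul_left (mul_dvd_mul (pow_dvd_pow_of_dvd ⟨_, rfl⟩ w)
    (pow_dvd_pow_of_dvd ?_ c)) b
  refine Dvd.dvd.trans ⟨_, hfac⟩ ?_
  exact Finset.dvd_prod_of_mem (fun i => (algebraMap K P (r i) - t) *
      (algebraMap K P (r i) - t - δ)) (Finset.mem_univ i)

end fieldps

theorem reg_poly1 (D : DatN K) (r : Fin 4 → K) (hr : Function.Injective r) (w c : ℕ)
    (N : MvPolynomial (Fin 3) K[X][X]) (hN : KI D r w c N) (i : Fin 4) :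
    (X : (RE K)[X][X]) ^ (2 * w + 4 * c) ∣
      evN (algebraMap K (RE K)[X][X] (r i) + X ^ 2) (X ^ 2 * C X)
        ![X ^ 2 * C (C (MvPolynomial.X 0)), X * C (C (MvPolynomial.X 1)),
          C (C (MvPolynomial.X 2))] N := by
  let R1 := (RE K)[X]
  let F := FractionRing R1
  let θ : R1[X] →ₐ[K] PowerSeries F := toPS R1
  let d : F := algebraMap R1 F X
  have hinj : Function.Injective (algebraMap R1 F) := IsFractionRing.injective R1 F
  have hd : d ≠ 0 := fun h => X_ne_zero (hinj (by rw [map_zero]; exact h))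
  have hd1 : d + 1 ≠ 0 := by
    intro h
    have h2 : (X + C 1 : R1) = 0 := hinj (by rw [map_add, C_1, map_one, map_zero]; exact h)
    exact X_add_C_ne_zero 1 h2
  have h1 := reg_ps (F := F) D r hr w c N hN i d hd hd1
    ![PowerSeries.C (algebraMap R1 F (C (MvPolynomial.X 0))),
      PowerSeries.C (algebraMap R1 F (C (MvPolynomial.X 1))),
      PowerSeries.C (algebraMap R1 F (C (MvPolynomial.X 2)))]
  rw [Polynomial.X_pow_dvd_iff]
  intro n hn
  apply hinj
  rw [← coeff_toPS (K := K), map_zero]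
  refine (PowerSeries.X_pow_dvd_iff.1 ?_) n hn
  rw [evN_map]
  have e1 : θ (algebraMap K R1[X] (r i) + X ^ 2) =
      algebraMap K (PowerSeries F) (r i) + PowerSeries.X ^ 2 := by
    rw [map_add, AlgHom.commutes, map_pow]
    exact congrArg _ (congrArg (· ^ 2) toPS_X)
  have e2 : θ (X ^ 2 * C X) = PowerSeries.X ^ 2 * PowerSeries.C d := by
    rw [map_mul, map_pow]
    exact congr (congrArg _ (congrArg (· ^ 2) toPS_X)) (toPS_C X)
  have e3 : (fun j => θ ((![X ^ 2 * C (C (MvPolynomial.X 0)), X * C (C (MvPolynomial.X 1)),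
      C (C (MvPolynomial.X 2))] : Fin 3 → R1[X]) j)) =
      ![PowerSeries.X ^ 2 * (![PowerSeries.C (algebraMap R1 F (C (MvPolynomial.X 0))),
        PowerSeries.C (algebraMap R1 F (C (MvPolynomial.X 1))),
        PowerSeries.C (algebraMap R1 F (C (MvPolynomial.X 2)))] : Fin 3 → PowerSeries F) 0,
        PowerSeries.X * (![PowerSeries.C (algebraMap R1 F (C (MvPolynomial.X 0))),
        PowerSeries.C (algebraMap R1 F (C (MvPolynomial.X 1))),
        PowerSeries.C (algebraMap R1 F (C (MvPolynomial.X 2)))] : Fin 3 → PowerSeries F) 1,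
        (![PowerSeries.C (algebraMap R1 F (C (MvPolynomial.X 0))),
        PowerSeries.C (algebraMap R1 F (C (MvPolynomial.X 1))),
        PowerSeries.C (algebraMap R1 F (C (MvPolynomial.X 2)))] : Fin 3 → PowerSeries F) 2] := by
    funext j
    fin_cases j
    · change θ (X ^ 2 * C (C (MvPolynomial.X 0))) = PowerSeries.X ^ 2 *
        PowerSeries.C (algebraMap R1 F (C (MvPolynomial.X 0)))
      rw [map_mul, map_pow]
      exact congr (congrArg _ (congrArg (· ^ 2) toPS_X)) (toPS_C _)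
    · change θ (X * C (C (MvPolynomial.X 1))) = PowerSeries.X *
        PowerSeries.C (algebraMap R1 F (C (MvPolynomial.X 1)))
      rw [map_mul]
      exact congr (congrArg _ toPS_X) (toPS_C _)
    · exact toPS_C _
  change PowerSeries.X ^ (2 * w + 4 * c) ∣ evN (θ (algebraMap K R1[X] (r i) + X ^ 2))
    (θ (X ^ 2 * C X)) (fun j => θ ((![X ^ 2 * C (C (MvPolynomial.X 0)),
      X * C (C (MvPolynomial.X 1)), C (C (MvPolynomial.X 2))] : Fin 3 → R1[X]) j)) N
  rw [e1, e2, e3]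
  exact h1

theorem reg_poly2 (D : DatN K) (r : Fin 4 → K) (hr : Function.Injective r) (w c : ℕ)
    (N : MvPolynomial (Fin 3) K[X][X]) (hN : KI D r w c N) (i : Fin 4) :
    (X : (RE K)[X]) ^ (2 * w + 4 * c) ∣
      MvPolynomial.eval₂ ((aeval (algebraMap K (RE K)[X] (r i) + X ^ 2) : K[X] →ₐ[K] (RE K)[X]) :
        K[X] →+* (RE K)[X])
        ![X ^ 2 * C (MvPolynomial.X 0), X * C (MvPolynomial.X 1), C (MvPolynomial.X 2)]
        (lead N) := by
  let θ : (RE K)[X][X] →ₐ[K] (RE K)[X] :=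
    mapAlgHom ((aeval (0 : RE K) : (RE K)[X] →ₐ[RE K] RE K).restrictScalars K)
  have hX : θ X = X := by simp [θ]
  have hC : ∀ p : (RE K)[X], θ (C p) = C (p.eval 0) := fun p => by
    simp [θ]
  have h1 := (reg_poly1 D r hr w c N hN i)
  have h2 := map_dvd θ h1
  rw [map_pow, hX] at h2
  replace h2 := h2.trans (dvd_of_eq (evN_map (B := (RE K)[X][X]) (B' := (RE K)[X]) θ
    (algebraMap K (RE K)[X][X] (r i) + X ^ 2)
    (X ^ 2 * C X) ![X ^ 2 * C (C (MvPolynomial.X 0)), X * C (C (MvPolynomial.X 1)),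
      C (C (MvPolynomial.X 2))] N))
  have e1 : θ (algebraMap K (RE K)[X][X] (r i) + X ^ 2) = algebraMap K (RE K)[X] (r i) + X ^ 2 := by
    rw [map_add, AlgHom.commutes, map_pow, hX]
  have e2 : θ (X ^ 2 * C X) = 0 := by
    rw [map_mul, hC, eval_X, C_0, mul_zero]
  have e3 : (fun j => θ ((![X ^ 2 * C (C (MvPolynomial.X 0)), X * C (C (MvPolynomial.X 1)),
      C (C (MvPolynomial.X 2))] : Fin 3 → (RE K)[X][X]) j)) =
      ![X ^ 2 * C (MvPolynomial.X 0), X * C (MvPolynomial.X 1), C (MvPolynomial.X 2)] := by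
    funext j
    fin_cases j
    · change θ (X ^ 2 * C (C (MvPolynomial.X 0))) = X ^ 2 * C (MvPolynomial.X 0)
      rw [map_mul, map_pow, hX, hC, eval_C]
    · change θ (X * C (C (MvPolynomial.X 1))) = X * C (MvPolynomial.X 1)
      rw [map_mul, hX, hC, eval_C]
    · change θ (C (C (MvPolynomial.X 2))) = C (MvPolynomial.X 2)
      rw [hC, eval_C]
  rw [e1, e2, e3] at h2
  refine h2.trans (dvd_of_eq ?_)
  rw [lead, MvPolynomial.eval₂_map, evN, MvPolynomial.coe_eval₂Hom]
  congr 1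
  refine RingHom.ext fun p => ?_
  have : (ev (K := K) (algebraMap K (RE K)[X] (r i) + X ^ 2) 0 : K[X][X] →ₐ[K] (RE K)[X]) =
      (aeval (algebraMap K (RE K)[X] (r i) + X ^ 2) : K[X] →ₐ[K] (RE K)[X]).comp
        ((aeval (0 : K[X]) : K[X][X] →ₐ[K[X]] K[X]).restrictScalars K) := by
    refine Polynomial.algHom_ext' ?_ ?_
    · ext
      simp [ev]
    · simp [ev]
  change (ev (K := K) (algebraMap K (RE K)[X] (r i) + X ^ 2) 0) p =
    aeval (algebraMap K (RE K)[X] (r i) + X ^ 2) (eval 0 p)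
  rw [this]
  rfl

/-- `2 ord_{r_i} + 2 l + j ≥ 2 w + 4 c`. -/
theorem reg_dvd (D : DatN K) (r : Fin 4 → K) (hr : Function.Injective r) (w c : ℕ)
    (N : MvPolynomial (Fin 3) K[X][X]) (hN : KI D r w c N) (i : Fin 4) (m : Fin 3 →₀ ℕ) :
    (X : K[X]) ^ (2 * w + 4 * c) ∣
      (MvPolynomial.coeff m (lead N)).comp (C (r i) + X ^ 2) * X ^ (2 * m 0 + m 1) := by
  rw [Polynomial.X_pow_dvd_iff]
  intro n hn
  rw [← coeff_ev, Polynomial.X_pow_dvd_iff.1 (reg_poly2 D r hr w c N hN i) n hn,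
    MvPolynomial.coeff_zero]

/-- The multiplicity of the root `r_i`. -/
theorem reg_mult (D : DatN K) (r : Fin 4 → K) (hr : Function.Injective r) (w c : ℕ)
    (N : MvPolynomial (Fin 3) K[X][X]) (hN : KI D r w c N) (i : Fin 4) (m : Fin 3 →₀ ℕ)
    (h0 : MvPolynomial.coeff m (lead N) ≠ 0) :
    2 * w + 4 * c ≤ 2 * (MvPolynomial.coeff m (lead N)).rootMultiplicity (r i) + (2 * m 0 + m 1) := by
  set p := MvPolynomial.coeff m (lead N) with hp
  obtain ⟨p1, hp1, hnd⟩ := exists_eq_pow_rootMultiplicity_mul_and_not_dvd p h0 (r i)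
  have h1 := reg_dvd D r hr w c N hN i m
  rw [← hp] at h1
  set μ := p.rootMultiplicity (r i)
  have h2 : p.comp (C (r i) + X ^ 2) = X ^ (2 * μ) * p1.comp (C (r i) + X ^ 2) := by
    conv_lhs => rw [hp1]
    rw [mul_comp, pow_comp, sub_comp, X_comp, C_comp, add_sub_cancel_left, ← pow_mul]
  rw [h2, mul_assoc, mul_comm (p1.comp _), ← mul_assoc, ← pow_add] at h1
  by_contra hlt
  push Not at hlt
  have hX : (X : K[X]) ^ (2 * μ + (2 * m 0 + m 1)) ≠ 0 := pow_ne_zero _ X_ne_zero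
  have h3 : (X : K[X]) ^ (2 * μ + (2 * m 0 + m 1)) * X ∣
      X ^ (2 * μ + (2 * m 0 + m 1)) * p1.comp (C (r i) + X ^ 2) := by
    rw [← pow_succ]
    exact (pow_dvd_pow X hlt).trans h1
  have h5 : (X : K[X]) ∣ p1.comp (C (r i) + X ^ 2) := (mul_dvd_mul_iff_left hX).1 h3
  have h4 : p1.eval (r i) = 0 := by
    rw [X_dvd_iff, coeff_zero_eq_eval_zero, eval_comp] at h5
    simpa using h5
  exact hnd (dvd_iff_isRoot.2 h4)

section fieldQ

variable {Q : Type} [Field Q] [Algebra K Q]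

theorem T_inv_rt (D : DatN K) (r : Fin 4 → K) (hr : Function.Injective r) (hr0 : ∀ i, r i ≠ 0)
    (t δ : Q) (ht : t ≠ 0) (htδ : t + δ ≠ 0) (hδ : δ ≠ 0) (hD : DD r t δ ≠ 0) (q : Fin 3 → Q) :
    T D (rt (fun i => (r i)⁻¹) t⁻¹ ((t + δ)⁻¹ - t⁻¹))
      (qh t t⁻¹ (t + δ)⁻¹ (∏ i, algebraMap K Q (r i))⁻¹ q) = T D (rt r t δ) q := by
  let a : Fin 6 → Q := Fin.cons t (Fin.cons (t + δ) fun i : Fin 4 => algebraMap K Q (r i))
  have ha : (fun i => a i - t) = rt r t δ := by
    refine (map_cons2 (fun x : Q => x - t) _ _ _).trans ?_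
    unfold rt
    simp only [sub_self, add_sub_cancel_left]
  have hdis : Dis a := by
    have h1 := dis_rt r hr t δ (IsUnit.mk0 _ hδ) (IsUnit.mk0 _ hD)
    rw [← ha] at h1
    have h2 := h1.sub (-t)
    simpa only [sub_neg_eq_add, sub_add_cancel] using h2
  have hrQ : ∀ i, algebraMap K Q (r i) ≠ 0 := fun i h =>
    hr0 i ((algebraMap K Q).injective (by rw [h, map_zero]))
  have ha0 : ∀ i, a i ≠ 0 := by
    intro i
    refine Fin.cases ht (fun j => ?_) i
    exact Fin.cases htδ (fun l => hrQ l) j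
  have hai : (fun i => (a i)⁻¹) = Fin.cons t⁻¹ (Fin.cons (t + δ)⁻¹ fun i : Fin 4 =>
      (algebraMap K Q (r i))⁻¹) := by
    exact map_cons2 (fun x : Q => x⁻¹) _ _ _
  have hdi : Dis (fun i => (a i)⁻¹) := by
    intro i j hij
    refine IsUnit.mk0 _ ?_
    rw [Ne, sub_eq_zero, inv_inj]
    exact fun e => (hdis i j hij).ne_zero (sub_eq_zero.2 e)
  have hai2 : (fun i => (a i)⁻¹ - t⁻¹) =
      rt (fun i => (r i)⁻¹) t⁻¹ ((t + δ)⁻¹ - t⁻¹) := by
    have e1 : (fun i => (a i)⁻¹ - t⁻¹) = fun i => (fun x => x - t⁻¹) ((fun i => (a i)⁻¹) i) := rfl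
    rw [e1, hai]
    refine (map_cons2 (fun x : Q => x - t⁻¹) _ _ _).trans ?_
    unfold rt
    simp only [alg_inv, sub_self]
  have hprod : (∏ j, a j)⁻¹ = t⁻¹ * (t + δ)⁻¹ * (∏ i, algebraMap K Q (r i))⁻¹ := by
    rw [Fin.prod_univ_succ, Fin.prod_univ_succ, mul_inv, mul_inv, mul_assoc]
    rfl
  have s1 := T_trans D a hdis t (shq (-t) q)
  rw [ha, shq_neg] at s1
  have s2 := T_inv D a hdis ha0 (shq (-t) q)
  have s3 := T_trans D (fun i => (a i)⁻¹) hdi t⁻¹
    (fun i => (∏ j, a j)⁻¹ * ![shq (-t) q 2, shq (-t) q 1, shq (-t) q 0] i)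
  rw [hai2, s2, hprod] at s3
  rw [s1, ← s3]
  rfl

theorem invQ (D : DatN K) (r : Fin 4 → K) (hr : Function.Injective r) (hr0 : ∀ i, r i ≠ 0)
    (w c : ℕ) (N N' : MvPolynomial (Fin 3) K[X][X]) (hN : KI D r w c N)
    (hN' : KI D (fun i => (r i)⁻¹) w c N')
    (t δ : Q) (ht : t ≠ 0) (htδ : t + δ ≠ 0) (hδ : δ ≠ 0) (hD : DD r t δ ≠ 0) (q : Fin 3 → Q) :
    evN t δ q N = (-1) ^ w * (∏ i, algebraMap K Q (r i)) ^ (2 * c) *
      (t * (t + δ)) ^ (w + 4 * c) * evN t⁻¹ ((t + δ)⁻¹ - t⁻¹)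
        (qh t t⁻¹ (t + δ)⁻¹ (∏ i, algebraMap K Q (r i))⁻¹ q) N' := by
  have hDD := DD_inv r hr0 t δ ht htδ
  have hδ' : (t * (t + δ)) * ((t + δ)⁻¹ - t⁻¹) = -δ := by
    field_simp
    ring
  have hδ0 : (t + δ)⁻¹ - t⁻¹ ≠ 0 := by
    intro h
    rw [h, mul_zero] at hδ'
    exact hδ (neg_eq_zero.1 hδ'.symm)
  have hD0 : DD (fun i => (r i)⁻¹) t⁻¹ ((t + δ)⁻¹ - t⁻¹) ≠ 0 := by
    intro h
    rw [h, mul_zero] at hDD
    exact hD hDD.symm
  rw [← hN Q t δ q (IsUnit.mk0 _ hδ) (IsUnit.mk0 _ hD),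
    ← hN' Q _ _ _ (IsUnit.mk0 _ hδ0) (IsUnit.mk0 _ hD0), T_inv_rt D r hr hr0 t δ ht htδ hδ hD q]
  have e1 : δ ^ w = (-1) ^ w * (t * (t + δ)) ^ w * ((t + δ)⁻¹ - t⁻¹) ^ w := by
    rw [mul_assoc, ← mul_pow, ← mul_pow, hδ', neg_one_mul, neg_neg]
  rw [e1, ← hDD, mul_pow _ _ c, mul_pow _ _ c, ← pow_mul, ← pow_mul, pow_add, pow_mul]
  ring

end fieldQ

/-- The inversion formula for the leading coefficient. -/
theorem inv_lead (D : DatN K) (r : Fin 4 → K) (hr : Function.Injective r) (hr0 : ∀ i, r i ≠ 0)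
    (w c : ℕ) (N N' : MvPolynomial (Fin 3) K[X][X]) (hN : KI D r w c N)
    (hN' : KI D (fun i => (r i)⁻¹) w c N') (t : K) (ht : t ≠ 0) (htr : ∀ i, t ≠ r i)
    (q : Fin 3 → K) :
    evL t q (lead N) = ((-1) ^ w * (∏ i, r i) ^ (2 * c) * t ^ (2 * w + 8 * c)) *
      evL t⁻¹ (qh t t⁻¹ t⁻¹ (∏ i, r i)⁻¹ q) (lead N') := by
  let P := PowerSeries K
  let Q := FractionRing P
  let φ : P →ₐ[K] Q := IsScalarTower.toAlgHom K P Q
  have hφ : Function.Injective φ := IsFractionRing.injective P Q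
  have hφ0 : ∀ x : P, x ≠ 0 → φ x ≠ 0 := fun x hx h => hx (hφ (by rw [h, map_zero]))
  let δ : P := PowerSeries.X
  let tP : P := algebraMap K P t
  have hcX : PowerSeries.constantCoeff δ = 0 := PowerSeries.constantCoeff_X
  have hcc : ∀ x : K, PowerSeries.constantCoeff (algebraMap K P x) = x := fun x => by
    rw [alg_ps]
    simp
  have hu : IsUnit (tP + δ) := by
    rw [PowerSeries.isUnit_iff_constantCoeff, map_add, hcX, hcc, add_zero]
    exact IsUnit.mk0 t ht
  obtain ⟨v, hv⟩ := hu.exists_right_inv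
  have hcv : PowerSeries.constantCoeff v = t⁻¹ := by
    have := congrArg PowerSeries.constantCoeff hv
    rw [map_mul, map_add, hcX, hcc, add_zero, map_one] at this
    exact eq_inv_of_mul_eq_one_right this
  have hφv : φ v = (φ tP + φ δ)⁻¹ := by
    have := congrArg φ hv
    rw [map_mul, map_add, map_one] at this
    exact eq_inv_of_mul_eq_one_right this
  have hφt : φ tP = algebraMap K Q t := AlgHom.commutes φ t
  have hti : φ (algebraMap K P t⁻¹) = (φ tP)⁻¹ := by
    rw [AlgHom.commutes, hφt, alg_inv]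
  have hRi : φ (algebraMap K P (∏ i, r i)⁻¹) = (∏ i, algebraMap K Q (r i))⁻¹ := by
    rw [AlgHom.commutes, alg_inv, map_prod]
  have ht0 : φ tP ≠ 0 := by
    rw [hφt]
    exact fun h => ht ((algebraMap K Q).injective (by rw [h, map_zero]))
  have hδ0 : φ δ ≠ 0 := hφ0 _ PowerSeries.X_ne_zero
  have htδ : φ tP + φ δ ≠ 0 := by
    rw [← map_add]
    exact hφ0 _ hu.ne_zero
  have hD0 : DD r (φ tP) (φ δ) ≠ 0 := by
    rw [← DD_map]
    refine hφ0 _ ?_
    unfold DD
    refine Finset.prod_ne_zero_iff.2 fun i _ => mul_ne_zero ?_ ?_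
    · intro h
      have := congrArg PowerSeries.constantCoeff h
      rw [map_sub, hcc, hcc, map_zero, sub_eq_zero] at this
      exact htr i this.symm
    · intro h
      have := congrArg PowerSeries.constantCoeff h
      rw [map_sub, map_sub, hcc, hcc, hcX, sub_zero, map_zero, sub_eq_zero] at this
      exact htr i this.symm
  have key := invQ D r hr hr0 w c N N' hN hN' (φ tP) (φ δ) ht0 htδ hδ0 hD0
    (fun i => φ (algebraMap K P (q i)))
  have e1 : qh (φ tP) (φ tP)⁻¹ (φ tP + φ δ)⁻¹ (∏ i, algebraMap K Q (r i))⁻¹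
      (fun i => φ (algebraMap K P (q i))) = fun i => φ (qh tP (algebraMap K P t⁻¹) v
        (algebraMap K P (∏ i, r i)⁻¹) (fun i => algebraMap K P (q i)) i) := by
    have := qh_map (φ : P →+* Q) tP (algebraMap K P t⁻¹) v
        (algebraMap K P (∏ i, r i)⁻¹) (fun i => algebraMap K P (q i))
    refine Eq.trans ?_ this.symm
    change _ = qh (φ tP) (φ (algebraMap K P t⁻¹)) (φ v) (φ (algebraMap K P (∏ i, r i)⁻¹)) _
    rw [hti, hφv, hRi]
    rfl
  have e2 : (φ tP + φ δ)⁻¹ - (φ tP)⁻¹ = φ (v - algebraMap K P t⁻¹) := by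
    rw [map_sub, hφv, hti]
  have e3 : (∏ i, algebraMap K Q (r i)) = φ (algebraMap K P (∏ i, r i)) := by
    rw [AlgHom.commutes, map_prod]
  rw [e1, e2, e3, ← hti, ← evN_map, ← evN_map, ← map_pow, ← map_add, ← map_mul φ tP,
    ← map_pow] at key
  have key1 : φ (evN tP δ (fun i => algebraMap K P (q i)) N) = φ ((-1) ^ w *
      (algebraMap K P (∏ i, r i)) ^ (2 * c) * (tP * (tP + δ)) ^ (w + 4 * c) *
      evN (algebraMap K P t⁻¹) (v - algebraMap K P t⁻¹) (qh tP (algebraMap K P t⁻¹) v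
        (algebraMap K P (∏ i, r i)⁻¹) (fun i => algebraMap K P (q i))) N') := by
    rw [key]
    simp only [map_mul, map_pow, map_neg, map_one]
  have key2 := hφ key1
  let cc : P →ₐ[K] K := { PowerSeries.constantCoeff with commutes' := hcc }
  have hccv : cc v = t⁻¹ := hcv
  have hccX : cc δ = 0 := hcX
  have hcca : ∀ x : K, cc (algebraMap K P x) = x := hcc
  have key3 := congrArg cc key2
  rw [map_mul, map_mul, map_mul, evN_map, evN_map, map_pow, map_pow, map_pow, map_neg, map_one,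
    map_mul, map_add, map_sub, hccX, hccv, hcca, hcca, hcca, sub_self, add_zero, evN_lead,
    evN_lead] at key3
  have e4 : (fun i => cc (qh tP (algebraMap K P t⁻¹) v (algebraMap K P (∏ i, r i)⁻¹)
      (fun i => algebraMap K P (q i)) i)) = qh t t⁻¹ t⁻¹ (∏ i, r i)⁻¹ q := by
    have := qh_map (cc : P →+* K) tP (algebraMap K P t⁻¹) v
        (algebraMap K P (∏ i, r i)⁻¹) (fun i => algebraMap K P (q i))
    refine Eq.trans this ?_
    change qh (cc tP) (cc (algebraMap K P t⁻¹)) (cc v) (cc (algebraMap K P (∏ i, r i)⁻¹))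
      (fun i => cc (algebraMap K P (q i))) = _
    rw [hcca, hcca, hccv, hcca]
    simp only [hcca]
  rw [e4] at key3
  simp only [hcca] at key3
  rw [key3]
  congr 2
  rw [← pow_two, ← pow_mul]
  congr 1
  ring

end Pool.Agent.MG.Two2.N
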