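import Pool.Agent.MG.Two2.AlgN2

/-!
# Pure algebra part of the case `(2, n)`: data over normal domains, no pole
-/

open Polynomial

namespace Pool.Agent.MG.Two2.N

variable {K : Type} [Field K]

theorem lead_coeff_rel [Infinite K] (D : DatN K) (r : Fin 4 → K) (hr : Function.Injective r)
    (hr0 : ∀ i, r i ≠ 0) (w c : ℕ) (N N' : MvPolynomial (Fin 3) K[X][X]) (hN : KI D r w c N)
    (hN' : KI D (fun i => (r i)⁻¹) w c N') (m : Fin 3 →₀ ℕ)
    (hm : ∀ u ∈ (lead N').support, m 0 ≤ u 0 ∧ (u 0 = m 0 → m 1 ≤ u 1)) (t : K) (ht : t ≠ 0)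
    (htr : ∀ i, t ≠ r i) :
    ((MvPolynomial.coeff m (lead N)).eval t) =
      ((-1) ^ w * (∏ i, r i) ^ (2 * c) * t ^ (2 * w + 8 * c)) *
        ((MvPolynomial.coeff m (lead N')).eval t⁻¹ *
        ((t⁻¹ ^ 4 * (∏ i, r i)⁻¹) ^ m 0 * (-(t⁻¹ ^ 2 * (∏ i, r i)⁻¹)) ^ m 1 *
          (∏ i, r i)⁻¹ ^ m 2)) := by
  have h1 : MvPolynomial.map (evalRingHom t) (lead N) =
      MvPolynomial.C ((-1) ^ w * (∏ i, r i) ^ (2 * c) * t ^ (2 * w + 8 * c)) *
        MvPolynomial.bind₁ (tri (t⁻¹ ^ 4 * (∏ i, r i)⁻¹) (-(t⁻¹ ^ 2 * (∏ i, r i)⁻¹))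
        (2 * t⁻¹ ^ 3 * (∏ i, r i)⁻¹) (∏ i, r i)⁻¹ (-(t⁻¹ * (∏ i, r i)⁻¹))
        (t⁻¹ ^ 2 * (∏ i, r i)⁻¹)) (MvPolynomial.map (evalRingHom t⁻¹) (lead N')) := by
    refine MvPolynomial.funext fun q => ?_
    rw [map_mul, MvPolynomial.eval_C, ← qh_eval t _ ht]
    exact inv_lead D r hr hr0 w c N N' hN hN' t ht htr q
  have h2 := congrArg (MvPolynomial.coeff m) h1
  rw [MvPolynomial.coeff_map, MvPolynomial.coeff_C_mul, coeff_tri, MvPolynomial.coeff_map] at h2
  · exact h2
  · intro u hu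
    refine hm u ?_
    rw [MvPolynomial.mem_support_iff] at hu ⊢
    intro h
    rw [MvPolynomial.coeff_map, h, map_zero] at hu
    exact hu rfl

theorem lead_eq_zero [Infinite K] (D : DatN K) (r : Fin 4 → K) (hr : Function.Injective r)
    (hr0 : ∀ i, r i ≠ 0) (w c : ℕ) (N N' : MvPolynomial (Fin 3) K[X][X])
    (hN : KI D r (w + 1) c N) (hN' : KI D (fun i => (r i)⁻¹) (w + 1) c N') : lead N' = 0 := by
  by_contra h0
  obtain ⟨m, hm, hmin⟩ := exists_min (lead N') h0
  have hp' : MvPolynomial.coeff m (lead N') ≠ 0 := MvPolynomial.mem_support_iff.1 hm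
  set p := MvPolynomial.coeff m (lead N) with hp
  set p' := MvPolynomial.coeff m (lead N') with hpp
  set R := ∏ i, r i with hR
  have hR0 : R ≠ 0 := Finset.prod_ne_zero_iff.2 fun i _ => hr0 i
  set κ : K := (-1) ^ (w + 1) * R ^ (2 * c) * ((R⁻¹) ^ m 0 * (-R⁻¹) ^ m 1 * (R⁻¹) ^ m 2) with hκ
  have hκ0 : κ ≠ 0 := by
    have : R⁻¹ ≠ 0 := inv_ne_zero hR0
    have h2 : (-1 : K) ≠ 0 := by
      rw [neg_ne_zero]
      exact one_ne_zero
    exact mul_ne_zero (mul_ne_zero (pow_ne_zero _ h2) (pow_ne_zero _ hR0))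
      (mul_ne_zero (mul_ne_zero (pow_ne_zero _ this) (pow_ne_zero _ (neg_ne_zero.2 this)))
        (pow_ne_zero _ this))
  have e1 : p * X ^ (4 * m 0 + 2 * m 1 + p'.natDegree) =
      C κ * X ^ (2 * (w + 1) + 8 * c) * p'.reverse := by
    refine eq_of_infinite_eval_eq _ _ ?_
    have hfin : (Set.insert (0 : K) (Set.range r)).Finite := (Set.finite_range r).insert 0
    refine hfin.infinite_compl.mono fun t ht => ?_
    have ht0 : t ≠ 0 := fun h => ht (Or.inl h)
    have htr : ∀ i, t ≠ r i := fun i h => ht (Or.inr ⟨i, h.symm⟩)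
    change eval t _ = eval t _
    have h1 := lead_coeff_rel D r hr hr0 (w + 1) c N N' hN hN' m hmin t ht0 htr
    rw [← hp, ← hpp, ← hR] at h1
    have h2 : eval t⁻¹ p' = eval t p'.reverse * t⁻¹ ^ p'.natDegree := by
      let _ : Invertible t⁻¹ := invertibleOfNonzero (inv_ne_zero ht0)
      have h3 := eval₂_reverse_mul_pow (RingHom.id K) t⁻¹ p'
      rw [invOf_eq_inv, inv_inv] at h3
      rw [eval, ← h3]
      rfl
    rw [eval_mul, eval_mul, eval_mul, eval_C, eval_pow, eval_pow, eval_X, h1, h2, hκ]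
    have h4 : t⁻¹ ^ (4 * m 0 + 2 * m 1 + p'.natDegree) * t ^ (4 * m 0 + 2 * m 1 + p'.natDegree) =
        1 := by
      rw [← mul_pow, inv_mul_cancel₀ ht0, one_pow]
    have h5 : (t⁻¹ ^ 4 * R⁻¹) ^ m 0 * (-(t⁻¹ ^ 2 * R⁻¹)) ^ m 1 * t⁻¹ ^ p'.natDegree =
        (R⁻¹ ^ m 0 * (-R⁻¹) ^ m 1) * t⁻¹ ^ (4 * m 0 + 2 * m 1 + p'.natDegree) := by
      rw [← mul_neg, mul_pow, mul_pow, ← pow_mul, ← pow_mul, pow_add, pow_add]
      ring
    linear_combination ((-1) ^ (w + 1) * R ^ (2 * c) * t ^ (2 * (w + 1) + 8 * c) *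
      eval t p'.reverse * R⁻¹ ^ m 2) * (t ^ (4 * m 0 + 2 * m 1 + p'.natDegree) * h5 +
      (R⁻¹ ^ m 0 * (-R⁻¹) ^ m 1) * h4)
  have hrev : p'.reverse ≠ 0 := by
    rw [Ne, reverse_eq_zero]
    exact hp'
  have hp0 : p ≠ 0 := by
    intro h
    rw [h, zero_mul] at e1
    exact mul_ne_zero (mul_ne_zero (C_ne_zero.2 hκ0) (pow_ne_zero _ X_ne_zero)) hrev e1.symm
  have e2 := congrArg natDegree e1
  rw [natDegree_mul hp0 (pow_ne_zero _ X_ne_zero), natDegree_X_pow,
    natDegree_mul (mul_ne_zero (C_ne_zero.2 hκ0) (pow_ne_zero _ X_ne_zero)) hrev,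
    natDegree_C_mul hκ0, natDegree_X_pow] at e2
  have e3 := reverse_natDegree_le p'
  have e4 := sum_mult r hr p hp0
  rw [Fin.sum_univ_four] at e4
  have f0 := reg_mult D r hr (w + 1) c N hN 0 m hp0
  have f1 := reg_mult D r hr (w + 1) c N hN 1 m hp0
  have f2 := reg_mult D r hr (w + 1) c N hN 2 m hp0
  have f3 := reg_mult D r hr (w + 1) c N hN 3 m hp0
  rw [← hp] at f0 f1 f2 f3
  omega

theorem KI_raise (D : DatN K) (r : Fin 4 → K) (w c a b : ℕ) (N : MvPolynomial (Fin 3) K[X][X])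
    (hN : KI D r w c N) : ∃ N', KI D r (w + a) (c + b) N' := by
  refine ⟨N * MvPolynomial.C (X ^ a * DD r (C X : K[X][X]) X ^ b), ?_⟩
  intro B _ _ _ _ t δ q h1 h2
  rw [map_mul, ← hN B t δ q h1 h2, evN_C, map_mul, map_pow, map_pow, DD_map, ev_X, ev_C, aeval_X]
  ring

theorem KI_lower (D : DatN K) (r : Fin 4 → K) (w c : ℕ) (N : MvPolynomial (Fin 3) K[X][X])
    (hN : KI D r (w + 1) c N) (h0 : lead N = 0) : ∃ N', KI D r w c N' := by
  have h1 : (MvPolynomial.C (X : K[X][X]) : MvPolynomial (Fin 3) K[X][X]) ∣ N := by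
    rw [MvPolynomial.C_dvd_iff_dvd_coeff]
    intro m
    have := congrArg (MvPolynomial.coeff m) h0
    rw [lead, MvPolynomial.coeff_map, MvPolynomial.coeff_zero] at this
    rw [X_dvd_iff, coeff_zero_eq_eval_zero]
    exact this
  obtain ⟨N', rfl⟩ := h1
  refine ⟨N', ?_⟩
  intro B _ _ _ _ t δ q h1 h2
  have h3 := hN B t δ q h1 h2
  rw [map_mul, evN_C, ev_X] at h3
  obtain ⟨u, rfl⟩ := h1
  have h4 : (u : B) * (T D (rt r t (u : B)) q * ((u : B) ^ w * DD r t (u : B) ^ c)) =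
      u * evN t (u : B) q N' := by
    rw [← h3]
    ring
  exact (Units.mul_right_inj u).1 h4

/-- There is no pole when two roots collide. -/
theorem KI_zero [Infinite K] (D : DatN K) (r : Fin 4 → K) (hr : Function.Injective r)
    (hr0 : ∀ i, r i ≠ 0) : ∃ (c : ℕ) (N : MvPolynomial (Fin 3) K[X][X]), KI D r 0 c N := by
  have hr' : Function.Injective fun i => (r i)⁻¹ := fun i j h => hr (inv_inj.1 h)
  have hr0' : ∀ i, (r i)⁻¹ ≠ 0 := fun i => inv_ne_zero (hr0 i)
  have hrr : (fun i => ((r i)⁻¹)⁻¹) = r := by simp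
  obtain ⟨n, N, hN⟩ := KI_exists D r hr
  obtain ⟨n', N', hN'⟩ := KI_exists D _ hr'
  obtain ⟨M, hM⟩ := KI_raise D r n n n' n' N hN
  obtain ⟨M', hM'⟩ := KI_raise D _ n' n' n n N' hN'
  rw [add_comm n' n] at hM'
  suffices H : ∀ (w c : ℕ) (N N' : MvPolynomial (Fin 3) K[X][X]), KI D r w c N →
      KI D (fun i => (r i)⁻¹) w c N' → ∃ N₀, KI D r 0 c N₀ from
    ⟨n + n', H _ _ M M' hM hM'⟩
  intro w
  induction w with
  | zero => exact fun c N _ hN _ => ⟨N, hN⟩
  | succ w ih =>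
    intro c N N' hN hN'
    have h1 : lead N' = 0 := lead_eq_zero D r hr hr0 w c N N' hN hN'
    have h2 : lead N = 0 := by
      refine lead_eq_zero D (fun i => (r i)⁻¹) hr' hr0' w c N' N hN' ?_
      rw [hrr]
      exact hN
    obtain ⟨N₁, hN₁⟩ := KI_lower D r w c N hN h2
    obtain ⟨N₂, hN₂⟩ := KI_lower D _ w c N' hN' h1
    exact ih c N₁ N₂ hN₁ hN₂

theorem KJ_dvd [Infinite K] (D : DatN K) (r : Fin 5 → K) (hr : Function.Injective r)
    (hr0 : ∀ i, r i ≠ 0) (n : ℕ) (N : MvPolynomial (Fin 3) K[X]) (hN : KJ D r n N) (i : Fin 5) :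
    (MvPolynomial.C ((X - C (r i)) ^ n) : MvPolynomial (Fin 3) K[X]) ∣ N := by
  let r' : Fin 4 → K := fun j => r (i.succAbove j)
  have hr' : Function.Injective r' := hr.comp Fin.succAbove_right_injective
  obtain ⟨c, N4, hN4⟩ := KI_zero D r' hr' fun j => hr0 _
  let M := MvPolynomial (Fin 3) K[X]
  let Q := FractionRing M
  let φ : M →ₐ[K] Q := IsScalarTower.toAlgHom K M Q
  have hφ : Function.Injective φ := IsFractionRing.injective M Q
  have hφ0 : ∀ x : M, x ≠ 0 → φ x ≠ 0 := fun x hx h => hx (hφ (by rw [h, map_zero]))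
  let jC : K[X] →ₐ[K] M := IsScalarTower.toAlgHom K K[X] M
  have hjC : Function.Injective jC := MvPolynomial.C_injective _ _
  let x : M := jC X
  let t : M := algebraMap K M (r i)
  have htC : t = jC (C (r i)) := by
    change algebraMap K M (r i) = jC (algebraMap K K[X] (r i))
    rw [AlgHom.commutes]
  have hE : EE r x = jC (EE r X) := by
    simp only [x, EE_map]
  have hE0 : (EE r X : K[X]) ≠ 0 := by
    unfold EE
    exact Finset.prod_ne_zero_iff.2 fun l _ => X_sub_C_ne_zero _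
  have hxt : x - t = jC (X - C (r i)) := by
    rw [map_sub, htC]
  have hDD : DD r' t (x - t) = jC (DD r' (C (r i)) (X - C (r i))) := by
    rw [DD_map, hxt, htC]
  have hfac : ∀ j, algebraMap K K[X] (r' j) - C (r i) = C (r' j - r i) := fun j => by
    rw [C_sub]
    rfl
  have hne : ∀ j, r' j - r i ≠ 0 := fun j =>
    sub_ne_zero.2 fun h => Fin.succAbove_ne i j (hr h)
  have hcop : IsCoprime (X - C (r i)) (DD r' (C (r i)) (X - C (r i))) := by
    unfold DD
    refine IsCoprime.prod_right fun j _ => ?_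
    rw [hfac j]
    have h1 : IsUnit (C (r' j - r i) : K[X]) := (IsUnit.mk0 _ (hne j)).map C
    have h1' : IsCoprime (X - C (r i)) (C (r' j - r i) : K[X]) := by
      obtain ⟨v, hv⟩ := h1.exists_left_inv
      exact ⟨0, v, by rw [zero_mul, zero_add, hv]⟩
    refine IsCoprime.mul_right h1' ?_
    have h2 : (C (r' j - r i) - (X - C (r i)) : K[X]) = -(X - C (r' j)) := by
      rw [C_sub]
      ring
    rw [h2]
    exact (isCoprime_X_sub_C_of_isUnit_sub (IsUnit.mk0 _ (by
      rw [← neg_sub]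
      exact neg_ne_zero.2 (hne j)))).neg_right
  have hDD0 : (DD r' (C (r i)) (X - C (r i)) : K[X]) ≠ 0 := by
    unfold DD
    refine Finset.prod_ne_zero_iff.2 fun j _ => ?_
    rw [hfac j]
    refine mul_ne_zero (C_ne_zero.2 (hne j)) ?_
    have h2 : (C (r' j - r i) - (X - C (r i)) : K[X]) = -(X - C (r' j)) := by
      rw [C_sub]
      ring
    rw [h2]
    exact neg_ne_zero.2 (X_sub_C_ne_zero _)
  have u1 : IsUnit (EE r (φ x)) := by
    rw [← EE_map, hE]
    exact IsUnit.mk0 _ (hφ0 _ fun h => hE0 (hjC (by rw [h, map_zero])))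
  have u2 : IsUnit (φ (x - t)) := by
    rw [hxt]
    exact IsUnit.mk0 _ (hφ0 _ fun h => X_sub_C_ne_zero (r i) (hjC (by rw [h, map_zero])))
  have u3 : IsUnit (DD r' (φ t) (φ (x - t))) := by
    rw [← DD_map, hDD]
    exact IsUnit.mk0 _ (hφ0 _ fun h => hDD0 (hjC (by rw [h, map_zero])))
  have k1 := hN Q (φ x) (fun l => φ (MvPolynomial.X l)) u1
  have k2 := hN4 Q (φ t) (φ (x - t)) (shq (φ t) fun l => φ (MvPolynomial.X l)) u2 u3
  -- comparison of the values
  let a : Fin 6 → Q := Fin.cons (φ t) (Fin.cons (φ x) fun j : Fin 4 => algebraMap K Q (r' j))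
  have hφt : φ t = algebraMap K Q (r i) := AlgHom.commutes φ (r i)
  have ha : (fun l => a l - φ t) = rt r' (φ t) (φ (x - t)) := by
    refine (map_cons2 (fun y : Q => y - φ t) _ _ _).trans ?_
    unfold rt
    simp only [sub_self, map_sub]
  have hPa : P6 a = P6 (rf r (φ x)) := by
    have := P6_rf r (φ x) i
    rw [← hφt] at this
    exact this
  have hda : Dis a := by
    have h1 := dis_rt r' hr' (φ t) (φ (x - t)) u2 u3
    rw [← ha] at h1
    have h2 := h1.sub (-φ t)
    simpa only [sub_neg_eq_add, sub_add_cancel] using h2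
  have s1 := T_trans D a hda (φ t) fun l => φ (MvPolynomial.X l)
  rw [ha, T_congr D hPa] at s1
  rw [s1, pow_zero, one_mul] at k2
  have e1 : (shq (φ t) fun l => φ (MvPolynomial.X l)) = fun l => φ (shq t MvPolynomial.X l) := by
    have h2 : φ 2 = 2 := map_ofNat φ 2
    funext l
    fin_cases l <;> simp [shq, h2]
  rw [e1, ← evN_map, ← DD_map, ← map_pow] at k2
  rw [← evM_map, ← EE_map, ← map_pow] at k1
  have k3 : φ (evM x MvPolynomial.X N * DD r' t (x - t) ^ c) =
      φ (evN t (x - t) (shq t MvPolynomial.X) N4 * EE r x ^ n) := by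
    rw [map_mul, map_mul, ← k1, ← k2]
    ring
  have k4 := hφ k3
  have hself : evM x MvPolynomial.X N = N := evM_self N
  rw [hself, hDD, hE] at k4
  have h5 : jC (X - C (r i)) ^ n ∣ N * jC (DD r' (C (r i)) (X - C (r i))) ^ c := by
    rw [k4]
    refine Dvd.dvd.mul_left (pow_dvd_pow_of_dvd ?_ n) _
    refine map_dvd jC ?_
    exact Finset.dvd_prod_of_mem (fun l => (X - algebraMap K K[X] (r l))) (Finset.mem_univ i)
  have h6 : IsCoprime (jC (X - C (r i)) ^ n) (jC (DD r' (C (r i)) (X - C (r i))) ^ c) :=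
    (hcop.map (jC : K[X] →+* M)).pow
  have h7 := h6.dvd_of_dvd_mul_right h5
  rw [MvPolynomial.C_pow]
  exact h7

theorem KJ_zero [Infinite K] (D : DatN K) (r : Fin 5 → K) (hr : Function.Injective r)
    (hr0 : ∀ i, r i ≠ 0) : ∃ N : MvPolynomial (Fin 3) K[X], KJ D r 0 N := by
  obtain ⟨n, N, hN⟩ := KJ_exists D r hr
  have h1 : (∏ i, MvPolynomial.C ((X - C (r i)) ^ n) : MvPolynomial (Fin 3) K[X]) ∣ N := by
    refine Finset.prod_dvd_of_coprime ?_ fun i _ => KJ_dvd D r hr hr0 n N hN i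
    intro i _ j _ hij
    have : IsCoprime ((X - C (r i)) ^ n) ((X - C (r j)) ^ n) := by
      refine IsCoprime.pow (isCoprime_X_sub_C_of_isUnit_sub ?_)
      exact IsUnit.mk0 _ (sub_ne_zero.2 fun h => hij (hr h))
    exact this.map (MvPolynomial.C : K[X] →+* MvPolynomial (Fin 3) K[X])
  have h2 : (∏ i, MvPolynomial.C ((X - C (r i)) ^ n) : MvPolynomial (Fin 3) K[X]) =
      MvPolynomial.C (EE r X ^ n) := by
    rw [← map_prod, Finset.prod_pow]
    rfl
  rw [h2] at h1
  obtain ⟨N0, rfl⟩ := h1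
  refine ⟨N0, ?_⟩
  intro B _ _ _ _ x q hu
  have h3 := hN B x q hu
  rw [map_mul, evM_C, map_pow, EE_map, aeval_X] at h3
  obtain ⟨v, hv⟩ := hu.pow n
  rw [← hv] at h3
  rw [pow_zero, mul_one]
  refine (Units.mul_right_inj v).1 ?_
  rw [← h3, mul_comm]

theorem const5_aux [Infinite K] (D : DatN K) (r : Fin 5 → K) (hr : Function.Injective r)
    (hr0 : ∀ i, r i ≠ 0) : ∃ c : K, ∀ (x : K) (q : Fin 3 → K), (∀ i, x ≠ r i) →
      T D (rf r x) q = c := by
  have hr' : Function.Injective fun i => (r i)⁻¹ := fun i j h => hr (inv_inj.1 h)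
  have hr0' : ∀ i, (r i)⁻¹ ≠ 0 := fun i => inv_ne_zero (hr0 i)
  obtain ⟨N, hN⟩ := KJ_zero D r hr hr0
  obtain ⟨N', hN'⟩ := KJ_zero D _ hr' hr0'
  have hE : ∀ (s : Fin 5 → K) (x : K), (∀ i, x ≠ s i) → IsUnit (EE s x) := fun s x hx =>
    IsUnit.mk0 _ (Finset.prod_ne_zero_iff.2 fun i _ => sub_ne_zero.2 (hx i))
  have hv : ∀ (x : K) (q : Fin 3 → K), (∀ i, x ≠ r i) → T D (rf r x) q = evM x q N := by
    intro x q hx
    rw [← hN K x q (hE r x hx), pow_zero, mul_one]
  have hv' : ∀ (x : K) (q : Fin 3 → K), (∀ i, x ≠ (r i)⁻¹) →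
      T D (rf (fun i => (r i)⁻¹) x) q = evM x q N' := by
    intro x q hx
    rw [← hN' K x q (hE _ x hx), pow_zero, mul_one]
  set R := ∏ i, r i with hR
  refine ⟨evM (0 : K) (fun _ => 0) N', fun x q hx => ?_⟩
  let P : K[X] := evM X (fun i => C (q i)) N
  let G : K[X] := evM X (fun i => C (R⁻¹ * ![q 2, q 1, q 0] i) * X) N'
  have hPe : ∀ y : K, P.eval y = evM y q N := by
    intro y
    rw [evM_eval y y _ N X (eval_X)]
    simp only [eval_C]
  have hGe : ∀ y : K, G.eval y = evM y (fun i => R⁻¹ * ![q 2, q 1, q 0] i * y) N' := by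
    intro y
    rw [evM_eval y y _ N' X (eval_X)]
    simp only [eval_C, eval_mul, eval_X]
  have key : P = C (G.eval 0) := by
    refine poly_inv_const P G (Set.range r) (Set.finite_range r) fun y hy hy0 => ?_
    have hyr : ∀ i, y ≠ r i := fun i h => hy ⟨i, h.symm⟩
    have hd : Dis (rf r y) := dis_rf r hr y (hE r y hyr)
    have ha0 : ∀ i, rf r y i ≠ 0 := fun i => by
      refine Fin.cases hy0 (fun j => ?_) i
      exact hr0 j
    have h1 := T_inv D (rf r y) hd ha0 q
    have h2 : (fun i => (rf r y i)⁻¹) = rf (fun i => (r i)⁻¹) y⁻¹ :=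
      map_cons (fun z : K => z⁻¹) y _
    have h3 : (∏ j, rf r y j) = y * R := by
      rw [Fin.prod_univ_succ]
      rfl
    rw [h2, h3] at h1
    rw [hPe, hGe, ← hv y q hyr, ← h1, hv' y⁻¹ _ fun i h => hyr i (inv_inj.1 h)]
    congr 2
    funext i
    rw [mul_inv]
    ring
  rw [hv x q hx, ← hPe, key, eval_C, hGe]
  simp only [mul_zero]

theorem const5 [Infinite K] (D : DatN K) (r : Fin 5 → K) (hr : Function.Injective r) :
    ∃ c : K, ∀ (x : K) (q : Fin 3 → K), (∀ i, x ≠ r i) → T D (rf r x) q = c := by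
  obtain ⟨s, hs⟩ := (Set.finite_range r).infinite_compl.nonempty
  have hs' : ∀ i, r i - s ≠ 0 := fun i h => hs ⟨i, sub_eq_zero.1 h⟩
  obtain ⟨c, hc⟩ := const5_aux D (fun i => r i - s) (fun i j h => hr (sub_left_injective h)) hs'
  refine ⟨c, fun x q hx => ?_⟩
  have hd : Dis (rf r x) := dis_rf r hr x
    (IsUnit.mk0 _ (Finset.prod_ne_zero_iff.2 fun i _ => sub_ne_zero.2 (hx i)))
  rw [← T_trans D _ hd s q]
  have h2 : (fun i => rf r x i - s) = rf (fun i => r i - s) (x - s) :=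
    map_cons (fun z : K => z - s) x _
  rw [h2]
  exact hc _ _ fun i h => hx i (sub_left_injective h)

theorem const_step [Infinite K] (D : DatN K) (a b : Fin 6 → K) (ha : Function.Injective a)
    (hb : Function.Injective b) (i : Fin 6) (hab : ∀ j, j ≠ i → b j = a j) (q q' : Fin 3 → K) :
    T D b q = T D a q' := by
  let r : Fin 5 → K := fun j => a (i.succAbove j)
  have hr : Function.Injective r := ha.comp Fin.succAbove_right_injective
  obtain ⟨c, hc⟩ := const5 D r hr
  have h1 : P6 a = P6 (rf r (a i)) := by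
    rw [P6_split a i, rf, P6_cons]
    rfl
  have h2 : P6 b = P6 (rf r (b i)) := by
    rw [P6_split b i, rf, P6_cons]
    congr 2
    funext j
    exact hab _ (Fin.succAbove_ne i j)
  rw [T_congr D h1, T_congr D h2, hc, hc]
  · exact fun j h => Fin.succAbove_ne i j (ha h).symm
  · intro j h
    change b i = a (i.succAbove j) at h
    rw [← hab _ (Fin.succAbove_ne i j)] at h
    exact Fin.succAbove_ne i j (hb h).symm

theorem const_disj [Infinite K] (D : DatN K) (a b : Fin 6 → K) (ha : Function.Injective a)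
    (hb : Function.Injective b) (hab : ∀ i j, a i ≠ b j) (q q' : Fin 3 → K) :
    T D b q = T D a q' := by
  classical
  have hinj : ∀ s : Finset (Fin 6), Function.Injective fun i => if i ∈ s then b i else a i := by
    intro s i j h
    simp only at h
    by_cases hi : i ∈ s
    · by_cases hj : j ∈ s
      · rw [if_pos hi, if_pos hj] at h
        exact hb h
      · rw [if_pos hi, if_neg hj] at h
        exact absurd h.symm (hab j i)
    · by_cases hj : j ∈ s
      · rw [if_neg hi, if_pos hj] at h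
        exact absurd h (hab i j)
      · rw [if_neg hi, if_neg hj] at h
        exact ha h
  have H : ∀ (s : Finset (Fin 6)) (q : Fin 3 → K),
      T D (fun i => if i ∈ s then b i else a i) q = T D a q' := by
    intro s
    induction s using Finset.induction_on with
    | empty =>
      intro q
      simp only [Finset.notMem_empty, if_false]
      exact const_step D a a ha ha 0 (fun _ _ => rfl) q q'
    | insert i s his ih =>
      intro q
      rw [← ih q]
      refine const_step D _ _ (hinj s) (hinj (insert i s)) i (fun j hj => ?_) q q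
      by_cases hjs : j ∈ s
      · rw [if_pos hjs, if_pos (Finset.mem_insert_of_mem hjs)]
      · rw [if_neg hjs, if_neg]
        rw [Finset.mem_insert, not_or]
        exact ⟨hj, hjs⟩
  have := H Finset.univ q
  simpa using this

/-- `S` is constant on polynomials with six roots. -/
theorem const6 [Infinite K] (D : DatN K) (a b : Fin 6 → K) (ha : Function.Injective a)
    (hb : Function.Injective b) (q q' : Fin 3 → K) : T D b q = T D a q' := by
  have hfin : (Set.range a ∪ Set.range b).Finite := (Set.finite_range a).union (Set.finite_range b)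
  have hinf : (Set.range a ∪ Set.range b)ᶜ.Infinite := hfin.infinite_compl
  obtain ⟨t, ht, hcard⟩ := hinf.exists_subset_card_eq 6
  let e : Fin 6 ≃ t := (Finset.equivFinOfCardEq hcard).symm
  let d : Fin 6 → K := fun i => e i
  have hd : Function.Injective d := Subtype.val_injective.comp e.injective
  have hdn : ∀ i, d i ∉ Set.range a ∪ Set.range b := fun i => ht (e i).2
  have h1 : ∀ i j, a i ≠ d j := fun i j h => hdn j (Or.inl ⟨i, h⟩)
  have h2 : ∀ i j, b i ≠ d j := fun i j h => hdn j (Or.inr ⟨i, h⟩)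
  rw [← const_disj D b d hb hd h2 0 q, ← const_disj D a d ha hd h1 0 q']

end Pool.Agent.MG.Two2.N
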